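import Pool.Agent.Lib.MP_8b8716_co_QR.TriV
import Pool.Agent.Lib.MP_8b8716_co_S19.Main

set_option autoImplicit false

/-!
# MP_8b8716_co, project QR: the soft inequality for the residue field with 19 elements
-/

noncomputable section

namespace Pool.Agent.MP_8b8716_co_QR

theorem soft_nineteen : ∃ δ : ℝ, 0 < δ ∧ SoftAt 4 19 δ := by
  refine ⟨1 / 10000, by norm_num, softAt_of_V fun a b ha hb hSa hSb => ?_⟩
  have h := Pool.Agent.MP8b8716.S19.soft_main ha hb hSa hSb
  linarith

end Pool.Agent.MP_8b8716_co_QR
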