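import Mathlib
import Pool.Agent.Lib.MP_8b8716_co_QG.Defs

set_option autoImplicit false

/-!
# MP_8b8716_co, project QR: definitions

Families of functions on finite rings with values in the simplex, and their roundings.
-/

noncomputable section

namespace Pool.Agent.MP_8b8716_co_QR

open Pool.Agent.MP_8b8716_co_QG

open Classical in
/-- the elements of norm one -/
def UU {A : Type} [CommRing A] [Fintype A] (bar : A →+* A) : Finset A :=
  Finset.univ.filter fun u => u * bar u = 1

/-- functions with values in the unit interval -/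
def Unit01 {A : Type} (f : A → ℝ) : Prop := ∀ h, 0 ≤ f h ∧ f h ≤ 1

/-- two functions with mean value at least `θ` are not cross independent -/
def CrossT (θ : ℝ) {A : Type} [CommRing A] [Fintype A] (bar : A →+* A) (δ : ℝ) : Prop :=
  ∀ f g : A → ℝ, Unit01 f → Unit01 g → θ ≤ mean f → θ ≤ mean g → δ ≤ cross (UU bar) f g

/-- functions with values in the simplex -/
def Smp (k : ℕ) {A : Type} (G : Fin k → A → ℝ) : Prop :=
  (∀ i h, 0 ≤ G i h) ∧ ∀ h, ∑ i, G i h = 1

/-- simplex valued functions `G x` for the points `x` of the plane, such that for points of `X` at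
distance one the functions of the same colour are cross independent up to `ε` -/
def FamOn (k : ℕ) {A : Type} [CommRing A] [Fintype A] (bar : A →+* A) (X : Set ℂ) (ε : ℝ) : Prop :=
  ∃ G : ℂ → Fin k → A → ℝ, (∀ x, Smp k (G x)) ∧
    ∀ x ∈ X, ∀ y ∈ X, ‖x - y‖ = 1 → ∀ i, cross (UU bar) (G x i) (G y i) ≤ ε

/-- the mean value of `f - f ^ 2` -/
def VV {A : Type} [Fintype A] (f : A → ℝ) : ℝ := mean f - mean fun h => f h ^ 2

/-- the triangle inequality for three functions on a ring -/
def TriC (s0 θ k0 κ Kc : ℝ) {A : Type} [CommRing A] [Fintype A] (bar : A →+* A) : Prop :=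
  ∀ a b c : A → ℝ, Unit01 a → Unit01 b → Unit01 c → s0 ≤ mean a → mean a ≤ θ →
    mean b + mean c ≤ k0 - κ * mean a +
      Kc * (cross (UU bar) a b + cross (UU bar) a c + cross (UU bar) b c)

/-- the soft inequality for the field with `q ^ 2` elements -/
def SoftAt (k q : ℕ) (δ : ℝ) : Prop :=
  ∀ (K : Type) [Field K] [Fintype K] (bar : K →+* K), (∀ a, bar (bar a) = a) →
    (∃ a, bar a ≠ a) → Fintype.card K = q ^ 2 → ∀ a b : K → ℝ, Unit01 a → Unit01 b →
    mean a = 1 / k → mean b = 1 / k →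
    1 / ((q : ℝ) + 1) * (VV a + VV b) + δ ≤ cross (UU bar) a b

/-- the soft triangle inequality for the field with `q ^ 2` elements -/
def TriAt (q : ℕ) (s0 θ k0 κ Kc : ℝ) : Prop :=
  ∀ (K : Type) [Field K] [Fintype K] (bar : K →+* K), (∀ a, bar (bar a) = a) →
    (∃ a, bar a ≠ a) → Fintype.card K = q ^ 2 → ∀ a b c : K → ℝ, Unit01 a → Unit01 b → Unit01 c →
    s0 ≤ mean a → mean a ≤ θ →
    mean b + mean c ≤ k0 - κ * mean a +
      Kc * (cross (UU bar) a b + cross (UU bar) a c + cross (UU bar) b c -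
        2 / ((q : ℝ) + 1) * (VV a + VV b + VV c))

/-- two sided bounds for the norm one sums of the field with `q ^ 2` elements -/
def GapTwo (q : ℕ) (lo hi : ℝ) : Prop :=
  ∀ (K : Type) [Field K] [Fintype K] (bar : K →+* K), (∀ a, bar (bar a) = a) →
    (∃ a, bar a ≠ a) → Fintype.card K = q ^ 2 → ∀ χ : AddChar K ℂ, χ ≠ 1 →
    lo * (UU bar).card ≤ (∑ u ∈ UU bar, χ u).re ∧ (∑ u ∈ UU bar, χ u).re ≤ hi * (UU bar).card

/-- the set `X` with the triangle partners of its points -/
def Xp (X : Set ℂ) : Set ℂ :=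
  {z | ∃ x ∈ X, z = x ∨ z = x + 1 ∨ z = x + Complex.exp (Real.pi / 3 * Complex.I)}

end Pool.Agent.MP_8b8716_co_QR
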