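import Mathlib

set_option autoImplicit false

/-!
# MP_8b8716_co, project QR: numerical values of the roots of unity
-/

noncomputable section

namespace Pool.Agent.MP_8b8716_co_QR

open Complex

/-- the Taylor polynomial of the exponential function -/
theorem taylor12 (y : ℝ) : ∑ m ∈ Finset.range 12, ((y : ℂ) * I) ^ m / (m.factorial : ℂ) =
    ((1 - y ^ 2 / 2 + y ^ 4 / 24 - y ^ 6 / 720 + y ^ 8 / 40320 - y ^ 10 / 3628800 : ℝ) : ℂ) +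
    ((y - y ^ 3 / 6 + y ^ 5 / 120 - y ^ 7 / 5040 + y ^ 9 / 362880 -
      y ^ 11 / 39916800 : ℝ) : ℂ) * I := by
  have h4 : I ^ 4 = 1 := Complex.I_pow_four
  have h2 : I ^ 2 = -1 := Complex.I_sq
  simp only [Finset.sum_range_succ, Finset.sum_range_zero, Nat.factorial]
  push_cast
  have h3 : I ^ 3 = -I := by rw [pow_succ, h2]; ring
  have h5 : I ^ 5 = I := by rw [pow_succ, h4]; ring
  have h6 : I ^ 6 = -1 := by rw [show 6 = 4 + 2 from rfl, pow_add, h4, h2]; ring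
  have h7 : I ^ 7 = -I := by rw [show 7 = 4 + 3 from rfl, pow_add, h4, h3]; ring
  have h8 : I ^ 8 = 1 := by rw [show 8 = 4 + 4 from rfl, pow_add, h4]; ring
  have h9 : I ^ 9 = I := by rw [show 9 = 8 + 1 from rfl, pow_add, h8]; ring
  have h10 : I ^ 10 = -1 := by rw [show 10 = 8 + 2 from rfl, pow_add, h8, h2]; ring
  have h11 : I ^ 11 = -I := by rw [show 11 = 8 + 3 from rfl, pow_add, h8, h3]; ring
  simp only [mul_pow, h2, h3, h4, h5, h6, h7, h8, h9, h10, h11]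
  ring

/-- the exponential function on the imaginary axis is 1-Lipschitz -/
theorem norm_exp_sub_le (x y : ℝ) : ‖cexp ((x : ℂ) * I) - cexp ((y : ℂ) * I)‖ ≤ |x - y| := by
  have h1 : cexp ((x : ℂ) * I) - cexp ((y : ℂ) * I) =
      cexp ((y : ℂ) * I) * (cexp (I * ((x - y : ℝ) : ℂ)) - 1) := by
    rw [mul_sub, ← Complex.exp_add, mul_one]
    congr 2
    push_cast
    ring
  rw [h1, norm_mul, Complex.norm_exp_ofReal_mul_I, one_mul]
  exact Real.norm_exp_I_mul_ofReal_sub_one_le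

/-- an approximation of the first root of unity -/
theorem zeta_near {p : ℕ} (y : ℝ) (hy0 : 0 ≤ y) (hy1 : y ≤ 3 / 5)
    (hπ : |2 * Real.pi / p - y| ≤ 1 / 10 ^ 10) (A B : ℤ)
    (hA : |(1 - y ^ 2 / 2 + y ^ 4 / 24 - y ^ 6 / 720 + y ^ 8 / 40320 - y ^ 10 / 3628800) -
      A / 10 ^ 10| ≤ 1 / 10 ^ 9)
    (hB : |(y - y ^ 3 / 6 + y ^ 5 / 120 - y ^ 7 / 5040 + y ^ 9 / 362880 -
      y ^ 11 / 39916800) - B / 10 ^ 10| ≤ 1 / 10 ^ 9) :
    ‖cexp (2 * Real.pi * I / p) - ((A : ℂ) / 10 ^ 10 + (B : ℂ) / 10 ^ 10 * I)‖ ≤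
      3 / 10 ^ 9 := by
  have h1 : cexp (2 * Real.pi * I / p) = cexp (((2 * Real.pi / p : ℝ) : ℂ) * I) := by
    congr 1
    push_cast
    ring
  have h2 := norm_exp_sub_le (2 * Real.pi / p) y
  have hny : ‖(y : ℂ) * I‖ = y := by
    rw [norm_mul, Complex.norm_I, mul_one, Complex.norm_real, Real.norm_of_nonneg hy0]
  have h3 := Complex.exp_bound (x := (y : ℂ) * I) (by rw [hny]; linarith) (n := 12) (by norm_num)
  rw [taylor12, hny] at h3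
  have h4 : y ^ 12 * (((12 : ℕ).succ : ℝ) * (((12 : ℕ).factorial : ℝ) * (12 : ℕ))⁻¹) ≤
      1 / 10 ^ 10 := by
    have h5 : y ^ 12 ≤ (3 / 5) ^ 12 := by gcongr
    have h6 : (((12 : ℕ).succ : ℝ) * (((12 : ℕ).factorial : ℝ) * (12 : ℕ))⁻¹) ≤ 1 / 10 ^ 8 := by
      norm_num [Nat.factorial]
    calc y ^ 12 * (((12 : ℕ).succ : ℝ) * (((12 : ℕ).factorial : ℝ) * (12 : ℕ))⁻¹) ≤
        (3 / 5) ^ 12 * (1 / 10 ^ 8) := by gcongr
      _ ≤ 1 / 10 ^ 10 := by norm_num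
  set P : ℝ := 1 - y ^ 2 / 2 + y ^ 4 / 24 - y ^ 6 / 720 + y ^ 8 / 40320 - y ^ 10 / 3628800
    with hP
  set Q : ℝ := y - y ^ 3 / 6 + y ^ 5 / 120 - y ^ 7 / 5040 + y ^ 9 / 362880 - y ^ 11 / 39916800
    with hQ
  have h5 : ‖((P : ℂ) + (Q : ℂ) * I) - ((A : ℂ) / 10 ^ 10 + (B : ℂ) / 10 ^ 10 * I)‖ ≤
      1 / 10 ^ 9 + 1 / 10 ^ 9 := by
    have h6 : ((P : ℂ) + (Q : ℂ) * I) - ((A : ℂ) / 10 ^ 10 + (B : ℂ) / 10 ^ 10 * I) =
        ((P - A / 10 ^ 10 : ℝ) : ℂ) + ((Q - B / 10 ^ 10 : ℝ) : ℂ) * I := by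
      push_cast
      ring
    rw [h6]
    refine (norm_add_le _ _).trans ?_
    rw [norm_mul, Complex.norm_I, mul_one, Complex.norm_real, Complex.norm_real]
    exact add_le_add hA hB
  rw [h1]
  calc ‖cexp (((2 * Real.pi / p : ℝ) : ℂ) * I) - ((A : ℂ) / 10 ^ 10 + (B : ℂ) / 10 ^ 10 * I)‖
      = ‖(cexp (((2 * Real.pi / p : ℝ) : ℂ) * I) - cexp ((y : ℂ) * I)) +
          (cexp ((y : ℂ) * I) - ((P : ℂ) + (Q : ℂ) * I)) +
          (((P : ℂ) + (Q : ℂ) * I) - ((A : ℂ) / 10 ^ 10 + (B : ℂ) / 10 ^ 10 * I))‖ := by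
        congr 1; ring
    _ ≤ 1 / 10 ^ 10 + 1 / 10 ^ 10 + (1 / 10 ^ 9 + 1 / 10 ^ 9) := by
        refine (norm_add_le _ _).trans (add_le_add ((norm_add_le _ _).trans (add_le_add ?_ ?_)) h5)
        · exact h2.trans hπ
        · exact h3.trans h4
    _ ≤ 3 / 10 ^ 9 := by norm_num

/-- powers of two close numbers in the unit disc -/
theorem norm_pow_sub_pow_le {z w : ℂ} (hz : ‖z‖ ≤ 1) (hw : ‖w‖ ≤ 1) (n : ℕ) :
    ‖z ^ n - w ^ n‖ ≤ n * ‖z - w‖ := by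
  induction n with
  | zero => simp
  | succ n ih =>
    have h1 : z ^ (n + 1) - w ^ (n + 1) = z ^ n * (z - w) + (z ^ n - w ^ n) * w := by ring
    rw [h1]
    refine (norm_add_le _ _).trans ?_
    rw [norm_mul, norm_mul, norm_pow]
    have h2 : ‖z‖ ^ n ≤ 1 := pow_le_one₀ (norm_nonneg _) hz
    calc ‖z‖ ^ n * ‖z - w‖ + ‖z ^ n - w ^ n‖ * ‖w‖ ≤ 1 * ‖z - w‖ + (n * ‖z - w‖) * 1 := by
          gcongr
      _ = ((n + 1 : ℕ) : ℝ) * ‖z - w‖ := by push_cast; ring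

/-- powers of Gaussian integers -/
def gp (A B : ℤ) : ℕ → ℤ × ℤ
  | 0 => (1, 0)
  | n + 1 => ((gp A B n).1 * A - (gp A B n).2 * B, (gp A B n).1 * B + (gp A B n).2 * A)

theorem gp_spec (A B : ℤ) (n : ℕ) :
    (((gp A B n).1 : ℂ) + ((gp A B n).2 : ℂ) * I) = ((A : ℂ) + (B : ℂ) * I) ^ n := by
  induction n with
  | zero => simp [gp]
  | succ n ih =>
    rw [pow_succ, ← ih, gp]
    push_cast
    linear_combination (-(((gp A B n).2 : ℂ) * B)) * Complex.I_sq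

end Pool.Agent.MP_8b8716_co_QR
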