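import Mathlib
import Pool.Agent.Lib.MP_8b8716_co_QR.Spec1

set_option autoImplicit false

/-!
# MP_8b8716_co, project QR: numerical values of Kloosterman sums modulo a prime
-/

noncomputable section

namespace Pool.Agent.MP_8b8716_co_QR

open Complex Finset

/-- the exponents in the Kloosterman sum -/
def vv (p m k : ℕ) : ℕ := ((k + 1) + m * (k + 1) ^ (p - 2)) % p

/-- the Kloosterman sum with an approximate root of unity -/
def ks (p : ℕ) (A B : ℤ) (m : ℕ) : ℤ :=
  ∑ k ∈ Finset.range (p - 1), (gp A B (vv p m k)).1 * (10 ^ 10) ^ (p - vv p m k)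

section
variable (p : ℕ) [Fact p.Prime]

/-- the Kloosterman sum -/
def kl (c : ZMod p) : ℂ :=
  ∑ x ∈ univ.erase (0 : ZMod p), (ZMod.stdAddChar (x + c / x) : ℂ)

/-- the root of unity -/
def zt : ℂ := cexp (2 * Real.pi * I / p)

theorem std_eq (j : ZMod p) : (ZMod.stdAddChar j : ℂ) = zt p ^ j.val := by
  rw [ZMod.stdAddChar_apply, ZMod.toCircle_apply, zt, ← Complex.exp_nat_mul]
  congr 1
  ring

omit [Fact p.Prime] in
theorem norm_zt : ‖zt p‖ = 1 := by
  have h : zt p = cexp (((2 * Real.pi / p : ℝ) : ℂ) * I) := by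
    unfold zt
    congr 1
    push_cast
    ring
  rw [h, Complex.norm_exp_ofReal_mul_I]

theorem kl_eq (m : ℕ) : kl p (m : ZMod p) = ∑ k ∈ Finset.range (p - 1), zt p ^ vv p m k := by
  have hp : p.Prime := Fact.out
  have hp2 := hp.two_le
  unfold kl
  symm
  have hne : ∀ k ∈ Finset.range (p - 1), ((k + 1 : ℕ) : ZMod p) ≠ 0 := by
    intro k hk h
    rw [Finset.mem_range] at hk
    rw [ZMod.natCast_eq_zero_iff] at h
    exact absurd (Nat.le_of_dvd (by omega) h) (by omega)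
  refine Finset.sum_bij (fun k _ => ((k + 1 : ℕ) : ZMod p)) ?_ ?_ ?_ ?_
  · intro k hk
    exact Finset.mem_erase.2 ⟨hne k hk, Finset.mem_univ _⟩
  · intro k hk l hl h
    rw [Finset.mem_range] at hk hl
    have h1 := congrArg ZMod.val h
    rw [ZMod.val_natCast, ZMod.val_natCast, Nat.mod_eq_of_lt (by omega),
      Nat.mod_eq_of_lt (by omega)] at h1
    omega
  · intro x hx
    have hx0 : x ≠ 0 := (Finset.mem_erase.1 hx).1
    have hv : x.val ≠ 0 := fun h => hx0 ((ZMod.val_eq_zero x).1 h)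
    have hlt := ZMod.val_lt x
    refine ⟨x.val - 1, ?_, ?_⟩
    · rw [Finset.mem_range]; omega
    · have h1 : x.val - 1 + 1 = x.val := by omega
      simp only [h1]
      exact ZMod.natCast_zmod_val x
  · intro k hk
    rw [std_eq]
    congr 1
    have hinv : ((k + 1 : ℕ) : ZMod p)⁻¹ = ((k + 1 : ℕ) : ZMod p) ^ (p - 2) := by
      have h1 := ZMod.pow_card_sub_one_eq_one (hne k hk)
      have h2 : ((k + 1 : ℕ) : ZMod p) ^ (p - 2) * ((k + 1 : ℕ) : ZMod p) = 1 := by
        rw [← pow_succ, show p - 2 + 1 = p - 1 by omega, h1]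
      exact (eq_inv_of_mul_eq_one_left h2).symm
    rw [div_eq_mul_inv, hinv]
    have h3 : ((k + 1 : ℕ) : ZMod p) + (m : ZMod p) * ((k + 1 : ℕ) : ZMod p) ^ (p - 2) =
        (((k + 1) + m * (k + 1) ^ (p - 2) : ℕ) : ZMod p) := by
      push_cast
      ring
    rw [h3, ZMod.val_natCast]
    rfl

/-- comparison with the approximate sum -/
theorem kl_re (A B : ℤ) (hAB : A ^ 2 + B ^ 2 ≤ 10 ^ 20)
    (hz : ‖zt p - ((A : ℂ) / 10 ^ 10 + (B : ℂ) / 10 ^ 10 * I)‖ ≤ 3 / 10 ^ 9) (m : ℕ) :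
    |(kl p (m : ZMod p)).re - (ks p A B m : ℝ) / (10 ^ 10) ^ p| ≤ (p : ℝ) ^ 2 * (3 / 10 ^ 9) := by
  have hp : p.Prime := Fact.out
  have hp2 := hp.two_le
  set w : ℂ := (A : ℂ) / 10 ^ 10 + (B : ℂ) / 10 ^ 10 * I with hw
  have hw1 : ‖w‖ ≤ 1 := by
    have h1 : w = ((A / 10 ^ 10 : ℝ) : ℂ) + ((B / 10 ^ 10 : ℝ) : ℂ) * I := by
      rw [hw]; push_cast; ring
    rw [h1, Complex.norm_add_mul_I]
    apply Real.sqrt_le_one.2
    have h2 : (A : ℝ) ^ 2 + (B : ℝ) ^ 2 ≤ 10 ^ 20 := by exact_mod_cast hAB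
    rw [div_pow, div_pow, ← add_div, div_le_one (by positivity)]
    calc (A : ℝ) ^ 2 + (B : ℝ) ^ 2 ≤ 10 ^ 20 := h2
      _ = (10 ^ 10) ^ 2 := by norm_num
  have hvp : ∀ k, vv p m k < p := fun k => Nat.mod_lt _ hp.pos
  have h1 : ‖∑ k ∈ Finset.range (p - 1), zt p ^ vv p m k -
      ∑ k ∈ Finset.range (p - 1), w ^ vv p m k‖ ≤ p ^ 2 * (3 / 10 ^ 9) := by
    rw [← Finset.sum_sub_distrib]
    refine (norm_sum_le _ _).trans ?_
    calc ∑ k ∈ Finset.range (p - 1), ‖zt p ^ vv p m k - w ^ vv p m k‖ ≤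
        ∑ k ∈ Finset.range (p - 1), (p : ℝ) * (3 / 10 ^ 9) := by
          refine Finset.sum_le_sum fun k _ => ?_
          refine (norm_pow_sub_pow_le (norm_zt p).le hw1 _).trans ?_
          have h3 : ((vv p m k : ℕ) : ℝ) ≤ p := by exact_mod_cast (hvp k).le
          gcongr
      _ = ((p - 1 : ℕ) : ℝ) * (p * (3 / 10 ^ 9)) := by
          rw [Finset.sum_const, Finset.card_range, nsmul_eq_mul]
      _ ≤ (p : ℝ) * (p * (3 / 10 ^ 9)) := by
          have h3 : ((p - 1 : ℕ) : ℝ) ≤ p := by exact_mod_cast Nat.sub_le _ _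
          gcongr
      _ = p ^ 2 * (3 / 10 ^ 9) := by ring
  have h2 : ∀ n, n ≤ p → w ^ n = (((gp A B n).1 * (10 ^ 10) ^ (p - n) / (10 ^ 10) ^ p : ℝ) : ℂ) +
      (((gp A B n).2 / (10 ^ 10) ^ n : ℝ) : ℂ) * I := by
    intro n hn
    have h3 : w = ((A : ℂ) + (B : ℂ) * I) / 10 ^ 10 := by rw [hw]; ring
    rw [h3, div_pow, ← gp_spec]
    push_cast
    have h4 : ((10 : ℂ) ^ 10) ^ p = (10 ^ 10) ^ (p - n) * (10 ^ 10) ^ n := by
      rw [← pow_add, Nat.sub_add_cancel hn]
    rw [h4]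
    have h5 : ((10 : ℂ) ^ 10) ^ (p - n) ≠ 0 := pow_ne_zero _ (by norm_num)
    have h6 : ((10 : ℂ) ^ 10) ^ n ≠ 0 := pow_ne_zero _ (by norm_num)
    generalize ((10 : ℂ) ^ 10) ^ (p - n) = u at *
    generalize ((10 : ℂ) ^ 10) ^ n = v at *
    field_simp
  have h3 : (∑ k ∈ Finset.range (p - 1), w ^ vv p m k).re = (ks p A B m : ℝ) / (10 ^ 10) ^ p := by
    rw [Complex.re_sum, ks, Int.cast_sum, Finset.sum_div]
    refine Finset.sum_congr rfl fun k _ => ?_
    rw [h2 _ (hvp k).le, Complex.add_re, Complex.re_ofReal_mul, Complex.I_re, mul_zero, add_zero,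
      Complex.ofReal_re]
    push_cast
    norm_num
  rw [kl_eq, ← h3, ← Complex.sub_re]
  exact (Complex.abs_re_le_norm _).trans h1

/-- the Kloosterman sum is real -/
theorem kl_im (c : ZMod p) : (kl p c).im = 0 := by
  have h1 : (starRingEnd ℂ) (kl p c) = kl p c := by
    unfold kl
    rw [map_sum]
    refine Finset.sum_bij (fun x _ => -x) ?_ ?_ ?_ ?_
    · intro x hx
      rw [Finset.mem_erase] at hx ⊢
      exact ⟨neg_ne_zero.2 hx.1, Finset.mem_univ _⟩
    · intro x _ y _ h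
      exact neg_injective h
    · intro x hx
      rw [Finset.mem_erase] at hx
      exact ⟨-x, Finset.mem_erase.2 ⟨neg_ne_zero.2 hx.1, Finset.mem_univ _⟩, neg_neg x⟩
    · intro x _
      rw [← AddChar.map_neg_eq_conj]
      congr 1
      rw [div_neg]
      ring
  exact Complex.conj_eq_iff_im.1 h1

end

/-- every field with `p` elements and every nontrivial character: Kloosterman sums -/
theorem sum_eq_kl {F : Type} [Field F] [Fintype F] [DecidableEq F] {p : ℕ} [hp : Fact p.Prime]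
    (hF : Fintype.card F = p) {ψ : AddChar F ℂ} (hψ : ψ ≠ 1) {b : F} (hb : b ≠ 0) :
    ∃ c : ZMod p, c ≠ 0 ∧ ∑ x ∈ univ.erase (0 : F), ψ (x + b / x) = kl p c := by
  classical
  let e : ZMod p ≃+* F := ZMod.ringEquivOfPrime F hp.out hF
  set ψ0 : AddChar (ZMod p) ℂ := ψ.compAddMonoidHom e.toAddEquiv.toAddMonoidHom with hψ0
  have hval : ∀ z, ψ0 z = ψ (e z) := fun z => rfl
  have hψ01 : ψ0 ≠ 1 := by
    intro h
    apply hψ
    ext z
    rw [← e.apply_symm_apply z, ← hval, h, AddChar.one_apply, AddChar.one_apply]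
  have hprim := ZMod.isPrimitive_stdAddChar p
  have hinj : Function.Injective (AddChar.mulShift (ZMod.stdAddChar : AddChar (ZMod p) ℂ)) :=
    AddChar.to_mulShift_inj_of_isPrimitive hprim
  have hcard : Fintype.card (ZMod p) = Fintype.card (AddChar (ZMod p) ℂ) := AddChar.card_eq.symm
  have hbij := (Fintype.bijective_iff_injective_and_card
    (AddChar.mulShift (ZMod.stdAddChar : AddChar (ZMod p) ℂ))).2 ⟨hinj, hcard⟩
  obtain ⟨k, hk⟩ := hbij.2 ψ0
  have hk0 : k ≠ 0 := by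
    rintro rfl
    apply hψ01
    rw [← hk]
    ext z
    rw [AddChar.mulShift_apply, zero_mul, AddChar.map_zero_eq_one, AddChar.one_apply]
  have hψz : ∀ z, ψ (e z) = ZMod.stdAddChar (k * z) := by
    intro z
    rw [← hval, ← hk, AddChar.mulShift_apply]
  refine ⟨k ^ 2 * e.symm b, mul_ne_zero (pow_ne_zero 2 hk0) ?_, ?_⟩
  · intro h
    exact hb (by rw [← e.apply_symm_apply b, h, map_zero])
  · unfold kl
    refine Finset.sum_bij (fun x _ => k * e.symm x) ?_ ?_ ?_ ?_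
    · intro x hx
      rw [Finset.mem_erase] at hx ⊢
      refine ⟨mul_ne_zero hk0 fun h => hx.1 ?_, Finset.mem_univ _⟩
      rw [← e.apply_symm_apply x, h, map_zero]
    · intro x _ y _ h
      exact e.symm.injective (mul_left_cancel₀ hk0 h)
    · intro x hx
      rw [Finset.mem_erase] at hx
      refine ⟨e (k⁻¹ * x), ?_, ?_⟩
      · rw [Finset.mem_erase]
        refine ⟨fun h => ?_, Finset.mem_univ _⟩
        have h1 : k⁻¹ * x = 0 := e.injective (by rw [h, map_zero])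
        rcases mul_eq_zero.1 h1 with h2 | h2
        · exact inv_ne_zero hk0 h2
        · exact hx.1 h2
      · rw [e.symm_apply_apply, ← mul_assoc, mul_inv_cancel₀ hk0, one_mul]
    · intro x hx
      rw [Finset.mem_erase] at hx
      have hx0 : e.symm x ≠ 0 := fun h => hx.1 (by rw [← e.apply_symm_apply x, h, map_zero])
      have h1 : x + b / x = e (e.symm x + e.symm b / e.symm x) := by
        rw [map_add, map_div₀, e.apply_symm_apply, e.apply_symm_apply]
      rw [h1, hψz]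
      congr 1
      field_simp

end Pool.Agent.MP_8b8716_co_QR
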