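import Mathlib
import Pool.Agent.Lib.MP_8b8716_co_QG.GWeil
import Pool.Agent.Lib.MP_8b8716_co_QR.Spec2

set_option autoImplicit false
set_option linter.unusedSectionVars false

/-!
# MP_8b8716_co, project QR: the spectra for the residue fields with 11, 23, 27, 31 elements
-/

noncomputable section

namespace Pool.Agent.MP_8b8716_co_QR

open Complex Finset
open Pool.Agent.MP_8b8716_co_QG

section
variable {K : Type} [Field K] [Fintype K] [DecidableEq K] (bar : K →+* K)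
  (hbar : ∀ a, bar (bar a) = a) (hne : ∃ a, bar a ≠ a)

include hbar hne

/-- the sum over the elements of norm one is a Kloosterman sum -/
theorem torus_eq (U : Finset K) (hU : ∀ u, u ∈ U ↔ u * bar u = 1) {χ : AddChar K ℂ}
    (hχ : χ ≠ 1) : ∃ (ψ : AddChar (fx bar) ℂ) (b : fx bar), ψ ≠ 1 ∧ b ≠ 0 ∧
      ∑ u ∈ U, χ u = -∑ x ∈ univ.erase (0 : fx bar), ψ (x + b / x) := by
  classical
  obtain ⟨ψ, a, hψ, ha, hχa⟩ := exists_char bar hbar hne hχ
  set b : fx bar := ⟨a * bar a, norm_mem bar hbar a⟩ with hb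
  have hb0 : b ≠ 0 := by
    intro h
    have h1 : a * bar a = 0 := congrArg Subtype.val h
    rcases mul_eq_zero.1 h1 with h2 | h2
    · exact ha h2
    · exact bar_ne_zero bar hbar ha h2
  set W : Finset K := U.image (fun u => a * u) with hW
  have hWm : ∀ w, w ∈ W ↔ w * bar w = a * bar a := by
    intro w
    rw [hW, Finset.mem_image]
    constructor
    · rintro ⟨u, hu, rfl⟩
      rw [hU] at hu
      rw [map_mul]
      linear_combination (a * bar a) * hu
    · intro hw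
      refine ⟨w / a, ?_, mul_div_cancel₀ w ha⟩
      have hb1 := bar_ne_zero bar hbar ha
      rw [hU, map_div₀]
      field_simp
      exact hw
  have hinj : Function.Injective (fun u : K => a * u) := fun x y h => mul_left_cancel₀ ha h
  have hWc : W.card = Fintype.card (fx bar) + 1 := by
    rw [hW, Finset.card_image_of_injective _ hinj, card_U bar hbar hne U hU]
  have hsum : ∑ u ∈ U, χ u = ∑ w ∈ W, ψ (trc bar hbar w) := by
    rw [hW, Finset.sum_image fun x _ y _ h => hinj h]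
    exact Finset.sum_congr rfl fun u _ => hχa u
  -- the numbers of representations
  let n1 : fx bar → ℕ := fun t => (W.filter fun w => trc bar hbar w = t).card
  let n2 : fx bar → ℕ := fun t => ((univ.erase (0 : fx bar)).filter fun x => x + b / x = t).card
  have hn : ∀ t, n1 t + n2 t ≤ 2 := by
    intro t
    refine le_trans (add_le_add ?_ ?_) (count_le bar (a * bar a) (t : K))
    · apply Finset.card_le_card
      intro w hw
      rw [Finset.mem_filter] at hw ⊢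
      refine ⟨Finset.mem_univ _, (hWm w).1 hw.1, ?_⟩
      rw [← hw.2, trc_val]
    · refine Finset.card_le_card_of_injOn (fun x : fx bar => (x : K)) ?_ ?_
      · intro x hx
        rw [Finset.mem_coe, Finset.mem_filter, Finset.mem_erase] at hx
        rw [Finset.mem_coe, Finset.mem_filter]
        refine ⟨Finset.mem_univ _, x.2, fun h => hx.1.1 (Subtype.ext h), ?_⟩
        rw [← hx.2]
        rfl
      · intro x _ y _ h
        exact Subtype.ext h
  have hs1 : ∑ t, n1 t = Fintype.card (fx bar) + 1 := by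
    rw [← hWc]
    exact (Finset.card_eq_sum_card_fiberwise (f := fun w => trc bar hbar w) (s := W)
      (t := Finset.univ) (fun _ _ => Finset.mem_coe.2 (Finset.mem_univ _))).symm
  have hs2 : ∑ t, n2 t + 1 = Fintype.card (fx bar) := by
    have h1 : ∑ t, n2 t = (univ.erase (0 : fx bar)).card :=
      (Finset.card_eq_sum_card_fiberwise (f := fun x : fx bar => x + b / x) (s := univ.erase (0 : fx bar))
        (t := Finset.univ) (fun _ _ => Finset.mem_coe.2 (Finset.mem_univ _))).symm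
    rw [h1, Finset.card_erase_of_mem (Finset.mem_univ _), Finset.card_univ]
    have := Fintype.card_pos (α := fx bar)
    omega
  have heq : ∀ t, n1 t + n2 t = 2 := by
    have h1 : ∑ t, (n1 t + n2 t) = ∑ _t : fx bar, 2 := by
      rw [Finset.sum_add_distrib, Finset.sum_const, Finset.card_univ, smul_eq_mul]
      omega
    intro t
    exact (Finset.sum_eq_sum_iff_of_le fun t _ => hn t).1 h1 t (Finset.mem_univ t)
  have hψsum : ∑ t : fx bar, ψ t = 0 := AddChar.sum_eq_zero_of_ne_one hψ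
  have h1 : ∑ w ∈ W, ψ (trc bar hbar w) = ∑ t : fx bar, (n1 t : ℂ) * ψ t := by
    rw [← Finset.sum_fiberwise_of_maps_to (s := W) (t := Finset.univ)
      (g := fun w => trc bar hbar w) (fun x _ => Finset.mem_univ _)]
    refine Finset.sum_congr rfl fun t _ => ?_
    rw [Finset.sum_congr rfl (g := fun _ => ψ t)]
    · rw [Finset.sum_const, nsmul_eq_mul]
    · intro w hw
      rw [(Finset.mem_filter.1 hw).2]
  have h2 : ∑ x ∈ univ.erase (0 : fx bar), ψ (x + b / x) = ∑ t : fx bar, (n2 t : ℂ) * ψ t := by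
    rw [← Finset.sum_fiberwise_of_maps_to (s := univ.erase (0 : fx bar)) (t := Finset.univ)
      (g := fun x : fx bar => x + b / x) (fun x _ => Finset.mem_univ _)]
    refine Finset.sum_congr rfl fun t _ => ?_
    rw [Finset.sum_congr rfl (g := fun _ => ψ t)]
    · rw [Finset.sum_const, nsmul_eq_mul]
    · intro w hw
      rw [(Finset.mem_filter.1 hw).2]
  have h3 : ∑ t : fx bar, (n1 t : ℂ) * ψ t + ∑ t : fx bar, (n2 t : ℂ) * ψ t = 0 := by
    rw [← Finset.sum_add_distrib]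
    have h4 : ∀ t : fx bar, (n1 t : ℂ) * ψ t + (n2 t : ℂ) * ψ t = 2 * ψ t := by
      intro t
      rw [← add_mul, ← Nat.cast_add, heq t]
      norm_num
    rw [Finset.sum_congr rfl fun t _ => h4 t, ← Finset.mul_sum, hψsum, mul_zero]
  have h4 : ∑ u ∈ U, χ u = -∑ x ∈ univ.erase (0 : fx bar), ψ (x + b / x) := by
    rw [hsum, h1, h2]
    linear_combination h3
  exact ⟨ψ, b, hψ, hb0, h4⟩

/-- the sum over the elements of norm one is real -/
theorem torus_im (U : Finset K) (hU : ∀ u, u ∈ U ↔ u * bar u = 1) (χ : AddChar K ℂ) :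
    (∑ u ∈ U, χ u).im = 0 := by
  have h1 : (starRingEnd ℂ) (∑ u ∈ U, χ u) = ∑ u ∈ U, χ u := by
    rw [map_sum]
    refine Finset.sum_bij (fun x _ => -x) ?_ ?_ ?_ ?_
    · intro x hx
      rw [hU] at hx ⊢
      rw [map_neg, neg_mul_neg, hx]
    · intro x _ y _ h
      exact neg_injective h
    · intro x hx
      rw [hU] at hx
      refine ⟨-x, ?_, neg_neg x⟩
      rw [hU, map_neg, neg_mul_neg, hx]
    · intro x _
      rw [← AddChar.map_neg_eq_conj]
  exact Complex.conj_eq_iff_im.1 h1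

/-- the spectrum for a prime residue field -/
theorem spec_prime {p : ℕ} [hp : Fact p.Prime] (hcard : Fintype.card K = p ^ 2) {lo hi : ℝ}
    (h : ∀ c : ZMod p, c ≠ 0 → -hi ≤ (kl p c).re ∧ (kl p c).re ≤ -lo)
    (U : Finset K) (hU : ∀ u, u ∈ U ↔ u * bar u = 1) {χ : AddChar K ℂ} (hχ : χ ≠ 1) :
    lo ≤ (∑ u ∈ U, χ u).re ∧ (∑ u ∈ U, χ u).re ≤ hi := by
  classical
  have hfx := card_eq_fx bar hbar hne
  have hpn : Fintype.card (fx bar) = p := by
    have h1 : Fintype.card (fx bar) ^ 2 = p ^ 2 := by rw [← hfx, hcard]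
    exact Nat.pow_left_injective (n := 2) two_ne_zero h1
  obtain ⟨ψ, b, hψ, hb, hS⟩ := torus_eq bar hbar hne U hU hχ
  obtain ⟨c, hc, hk⟩ := sum_eq_kl hpn hψ hb
  have h1 : ∑ x ∈ univ.erase (0 : fx bar), ψ (x + b / x) = kl p c := by
    rw [← hk]
  rw [hS, h1, Complex.neg_re]
  obtain ⟨h2, h3⟩ := h c hc
  constructor <;> linarith

end

/-- bounds for all the Kloosterman sums modulo `p` -/
theorem kl_bounds (p : ℕ) [hp : Fact p.Prime] (y : ℝ) (hy0 : 0 ≤ y) (hy1 : y ≤ 3 / 5)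
    (hπ : |2 * Real.pi / p - y| ≤ 1 / 10 ^ 10) (A B : ℤ)
    (hA : |(1 - y ^ 2 / 2 + y ^ 4 / 24 - y ^ 6 / 720 + y ^ 8 / 40320 - y ^ 10 / 3628800) -
      A / 10 ^ 10| ≤ 1 / 10 ^ 9)
    (hB : |(y - y ^ 3 / 6 + y ^ 5 / 120 - y ^ 7 / 5040 + y ^ 9 / 362880 -
      y ^ 11 / 39916800) - B / 10 ^ 10| ≤ 1 / 10 ^ 9)
    (hAB : A ^ 2 + B ^ 2 ≤ 10 ^ 20) (hp31 : p ≤ 31) (lo hi : ℤ)
    (hks : ∀ m ∈ Finset.range p, m ≠ 0 →
      lo * 10 ^ (10 * p - 5) + 10 ^ (10 * p - 5) ≤ ks p A B m ∧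
      ks p A B m ≤ hi * 10 ^ (10 * p - 5) - 10 ^ (10 * p - 5)) :
    ∀ c : ZMod p, c ≠ 0 → (lo : ℝ) / 10 ^ 5 ≤ (kl p c).re ∧ (kl p c).re ≤ (hi : ℝ) / 10 ^ 5 := by
  intro c hc
  have hp0 : 0 < p := hp.out.pos
  have hz := zeta_near y hy0 hy1 hπ A B hA hB
  have h1 := kl_re p A B hAB hz c.val
  rw [ZMod.natCast_zmod_val] at h1
  have hm : c.val ≠ 0 := fun h => hc ((ZMod.val_eq_zero c).1 h)
  obtain ⟨h2, h3⟩ := hks c.val (Finset.mem_range.2 (ZMod.val_lt c)) hm
  have h4 : ((p : ℝ)) ^ 2 * (3 / 10 ^ 9) ≤ 1 / 10 ^ 5 := by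
    have h5 : (p : ℝ) ≤ 31 := by exact_mod_cast hp31
    have h6 : (p : ℝ) ^ 2 ≤ 31 ^ 2 := by gcongr
    calc ((p : ℝ)) ^ 2 * (3 / 10 ^ 9) ≤ 31 ^ 2 * (3 / 10 ^ 9) := by gcongr
      _ ≤ 1 / 10 ^ 5 := by norm_num
  have h5 : ((10 : ℝ) ^ 10) ^ p = 10 ^ (10 * p - 5) * 10 ^ 5 := by
    rw [← pow_mul, ← pow_add]
    congr 1
    omega
  have h6 : (0 : ℝ) < 10 ^ (10 * p - 5) := by positivity
  have h2' : ((lo : ℝ) + 1) * 10 ^ (10 * p - 5) ≤ (ks p A B c.val : ℝ) := by
    have : ((lo * 10 ^ (10 * p - 5) + 10 ^ (10 * p - 5) : ℤ) : ℝ) ≤ (ks p A B c.val : ℝ) := by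
      exact_mod_cast h2
    push_cast at this
    linarith
  have h3' : (ks p A B c.val : ℝ) ≤ ((hi : ℝ) - 1) * 10 ^ (10 * p - 5) := by
    have : (ks p A B c.val : ℝ) ≤ ((hi * 10 ^ (10 * p - 5) - 10 ^ (10 * p - 5) : ℤ) : ℝ) := by
      exact_mod_cast h3
    push_cast at this
    linarith
  have h7 : ((lo : ℝ) + 1) / 10 ^ 5 ≤ (ks p A B c.val : ℝ) / (10 ^ 10) ^ p := by
    rw [h5, div_le_div_iff₀ (by positivity) (by positivity)]
    calc ((lo : ℝ) + 1) * (10 ^ (10 * p - 5) * 10 ^ 5) =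
        (((lo : ℝ) + 1) * 10 ^ (10 * p - 5)) * 10 ^ 5 := by ring
      _ ≤ (ks p A B c.val : ℝ) * 10 ^ 5 := by gcongr
  have h8 : (ks p A B c.val : ℝ) / (10 ^ 10) ^ p ≤ ((hi : ℝ) - 1) / 10 ^ 5 := by
    rw [h5, div_le_div_iff₀ (by positivity) (by positivity)]
    calc (ks p A B c.val : ℝ) * 10 ^ 5 ≤ (((hi : ℝ) - 1) * 10 ^ (10 * p - 5)) * 10 ^ 5 := by gcongr
      _ = ((hi : ℝ) - 1) * (10 ^ (10 * p - 5) * 10 ^ 5) := by ring
  have h9 := abs_le.1 (h1.trans h4)
  have h10 : ((lo : ℝ) + 1) / 10 ^ 5 = (lo : ℝ) / 10 ^ 5 + 1 / 10 ^ 5 := by ring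
  have h11 : ((hi : ℝ) - 1) / 10 ^ 5 = (hi : ℝ) / 10 ^ 5 - 1 / 10 ^ 5 := by ring
  rw [h10] at h7
  rw [h11] at h8
  constructor
  · linarith [h9.1]
  · linarith [h9.2]

theorem kl_11 [hp : Fact (Nat.Prime 11)] : ∀ c : ZMod 11, c ≠ 0 →
    ((-571704 : ℤ) : ℝ) / 10 ^ 5 ≤ (kl 11 c).re ∧ (kl 11 c).re ≤ ((479580 : ℤ) : ℝ) / 10 ^ 5 := by
  refine kl_bounds 11 (5711986642891 / 10000000000000) (by norm_num) (by norm_num) ?_
    8412535328 5406408174 ?_ ?_ (by norm_num) (by norm_num) (-571704) 479580 (by decide +kernel)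
  · have h1 := Real.pi_gt_d20
    have h2 := Real.pi_lt_d20
    rw [abs_le]
    constructor
    · norm_num at h1 h2 ⊢
      linarith
    · norm_num at h1 h2 ⊢
      linarith
  · rw [abs_le]
    constructor <;> norm_num
  · rw [abs_le]
    constructor <;> norm_num

theorem kl_23 [hp : Fact (Nat.Prime 23)] : ∀ c : ZMod 23, c ≠ 0 →
    ((-799992 : ℤ) : ℝ) / 10 ^ 5 ≤ (kl 23 c).re ∧ (kl 23 c).re ≤ ((799992 : ℤ) : ℝ) / 10 ^ 5 := by
  refine kl_bounds 23 (1365909849387 / 5000000000000) (by norm_num) (by norm_num) ?_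
    9629172873 2697967711 ?_ ?_ (by norm_num) (by norm_num) (-799992) 799992 (by decide +kernel)
  · have h1 := Real.pi_gt_d20
    have h2 := Real.pi_lt_d20
    rw [abs_le]
    constructor
    · norm_num at h1 h2 ⊢
      linarith
    · norm_num at h1 h2 ⊢
      linarith
  · rw [abs_le]
    constructor <;> norm_num
  · rw [abs_le]
    constructor <;> norm_num

theorem kl_31 [hp : Fact (Nat.Prime 31)] : ∀ c : ZMod 31, c ≠ 0 →
    ((-1066656 : ℤ) : ℝ) / 10 ^ 5 ≤ (kl 31 c).re ∧ (kl 31 c).re ≤ ((1066656 : ℤ) : ℝ) / 10 ^ 5 := by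
  refine kl_bounds 31 (1013416985029 / 5000000000000) (by norm_num) (by norm_num) ?_
    9795299412 2012985200 ?_ ?_ (by norm_num) (by norm_num) (-1066656) 1066656 (by decide +kernel)
  · have h1 := Real.pi_gt_d20
    have h2 := Real.pi_lt_d20
    rw [abs_le]
    constructor
    · norm_num at h1 h2 ⊢
      linarith
    · norm_num at h1 h2 ⊢
      linarith
  · rw [abs_le]
    constructor <;> norm_num
  · rw [abs_le]
    constructor <;> norm_num

end Pool.Agent.MP_8b8716_co_QR
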