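import Mathlib
import Pool.Agent.Lib.MP_8b8716_co_QR.Spec3

set_option autoImplicit false
set_option linter.unusedSectionVars false

/-!
# MP_8b8716_co, project QR: the spectral gap for the residue fields with 23, 31 and at least 34
elements, and the spectra for the residue fields with 11 and 27 elements
-/

noncomputable section

namespace Pool.Agent.MP_8b8716_co_QR

open Complex Finset
open Pool.Agent.MP_8b8716_co_QG

/-- the spectral gap for 23, 31 and all numbers from 34 on -/
theorem gapAt_third : GapAt {q | q = 23 ∨ q = 31 ∨ 34 ≤ q} (33333 / 100000) := by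
  refine ⟨by norm_num, ?_⟩
  intro K _ _ _ bar hbar hne hcard U hU
  obtain ⟨q, hq, hcard⟩ := hcard
  rcases hq with rfl | rfl | hq
  · have : Fact (Nat.Prime 23) := ⟨by norm_num⟩
    have hfx := card_eq_fx bar hbar hne
    have hqn : Fintype.card (fx bar) = 23 := by
      have h1 : Fintype.card (fx bar) ^ 2 = 23 ^ 2 := by rw [← hfx, hcard]
      exact Nat.pow_left_injective (n := 2) two_ne_zero h1
    have hUc := card_U bar hbar hne U hU
    rw [hqn] at hUc
    rw [hUc]
    refine ⟨by norm_num, fun χ hχ => ?_⟩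
    have him := torus_im bar hbar hne U hU χ
    obtain ⟨h1, h2⟩ := spec_prime bar hbar hne hcard (lo := -799992 / 10 ^ 5)
      (hi := 799992 / 10 ^ 5) (fun c hc => by
        obtain ⟨h3, h4⟩ := kl_23 c hc
        push_cast at h3 h4
        constructor <;> linarith) U hU hχ
    have h3 : ∑ u ∈ U, χ u = (((∑ u ∈ U, χ u).re : ℝ) : ℂ) := by
      apply Complex.ext
      · rw [Complex.ofReal_re]
      · rw [Complex.ofReal_im, him]
    rw [h3, Complex.norm_real, Real.norm_eq_abs, abs_le]
    constructor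
    · refine le_trans ?_ h1
      norm_num
    · refine h2.trans ?_
      norm_num
  · have : Fact (Nat.Prime 31) := ⟨by norm_num⟩
    have hfx := card_eq_fx bar hbar hne
    have hqn : Fintype.card (fx bar) = 31 := by
      have h1 : Fintype.card (fx bar) ^ 2 = 31 ^ 2 := by rw [← hfx, hcard]
      exact Nat.pow_left_injective (n := 2) two_ne_zero h1
    have hUc := card_U bar hbar hne U hU
    rw [hqn] at hUc
    rw [hUc]
    refine ⟨by norm_num, fun χ hχ => ?_⟩
    have him := torus_im bar hbar hne U hU χ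
    obtain ⟨h1, h2⟩ := spec_prime bar hbar hne hcard (lo := -1066656 / 10 ^ 5)
      (hi := 1066656 / 10 ^ 5) (fun c hc => by
        obtain ⟨h3, h4⟩ := kl_31 c hc
        push_cast at h3 h4
        constructor <;> linarith) U hU hχ
    have h3 : ∑ u ∈ U, χ u = (((∑ u ∈ U, χ u).re : ℝ) : ℂ) := by
      apply Complex.ext
      · rw [Complex.ofReal_re]
      · rw [Complex.ofReal_im, him]
    rw [h3, Complex.norm_real, Real.norm_eq_abs, abs_le]
    constructor
    · refine le_trans ?_ h1
      norm_num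
    · refine h2.trans ?_
      norm_num
  · have hg : GapAt {q | 34 ≤ q} (33333 / 100000) := by
      refine gapAt_weil (by norm_num) fun q hq => ?_
      have h1 : (34 : ℝ) ≤ q := by exact_mod_cast hq
      have h2 : 2 * Real.sqrt q = Real.sqrt (4 * q) := by
        rw [Real.sqrt_mul (by norm_num), show (4 : ℝ) = 2 ^ 2 by norm_num,
          Real.sqrt_sq (by norm_num)]
      rw [h2]
      apply Real.sqrt_le_iff.2
      refine ⟨by positivity, ?_⟩
      nlinarith
    exact hg.2 K bar hbar hne ⟨q, hq, hcard⟩ U hU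

/-- the spectrum for the residue field with 11 elements -/
theorem spec_eleven {K : Type} [Field K] [Fintype K] [DecidableEq K] (bar : K →+* K)
    (hbar : ∀ a, bar (bar a) = a) (hne : ∃ a, bar a ≠ a) (hcard : Fintype.card K = 11 ^ 2)
    (U : Finset K) (hU : ∀ u, u ∈ U ↔ u * bar u = 1) {χ : AddChar K ℂ} (hχ : χ ≠ 1) :
    (∑ u ∈ U, χ u).im = 0 ∧ -(39965 / 100000) * 12 ≤ (∑ u ∈ U, χ u).re ∧
      (∑ u ∈ U, χ u).re ≤ (47642 / 100000) * 12 := by
  have : Fact (Nat.Prime 11) := ⟨by norm_num⟩
  refine ⟨torus_im bar hbar hne U hU χ, ?_⟩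
  refine spec_prime bar hbar hne hcard (fun c hc => ?_) U hU hχ
  obtain ⟨h3, h4⟩ := kl_11 c hc
  push_cast at h3 h4
  constructor <;> linarith

/-- the spectrum for the residue field with 27 elements -/
theorem spec_twentyseven {K : Type} [Field K] [Fintype K] [DecidableEq K] (bar : K →+* K)
    (hbar : ∀ a, bar (bar a) = a) (hne : ∃ a, bar a ≠ a) (hcard : Fintype.card K = 27 ^ 2)
    (U : Finset K) (hU : ∀ u, u ∈ U ↔ u * bar u = 1) {χ : AddChar K ℂ} (hχ : χ ≠ 1) :
    ∃ n : ℤ, ∑ u ∈ U, χ u = ((1 - 3 * n : ℤ) : ℂ) ∧ -8 ≤ 1 - 3 * n ∧ 1 - 3 * n ≤ 10 := by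
  have hfx := card_eq_fx bar hbar hne
  have hqn : Fintype.card (fx bar) = 27 := by
    have h1 : Fintype.card (fx bar) ^ 2 = 27 ^ 2 := by rw [← hfx, hcard]
    exact Nat.pow_left_injective (n := 2) two_ne_zero h1
  have hUc := card_U bar hbar hne U hU
  rw [hqn] at hUc
  have him := torus_im bar hbar hne U hU χ
  have hn := torus_le bar hbar hne U hU hχ
  rw [hqn] at hn
  have hrn : |(∑ u ∈ U, χ u).re| ≤ 2 * Real.sqrt (27 : ℕ) := (Complex.abs_re_le_norm _).trans hn
  have hsq : 2 * Real.sqrt ((27 : ℕ) : ℝ) < 11 := by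
    have h1 : Real.sqrt ((27 : ℕ) : ℝ) < 11 / 2 := by
      rw [Real.sqrt_lt' (by norm_num)]
      norm_num
    exact lt_of_lt_of_eq (mul_lt_mul_of_pos_left h1 two_pos) (by norm_num)
  -- the characteristic is 3
  have h3K : (3 : K) = 0 := by
    have h1 : ((Fintype.card K : ℕ) : K) = 0 := Nat.cast_card_eq_zero K
    rw [hcard] at h1
    have h2 : (3 : K) ^ 6 = 0 := by
      have : (((27 ^ 2 : ℕ)) : K) = (3 : K) ^ 6 := by push_cast; norm_num
      rw [← this, h1]
    exact pow_eq_zero_iff (by norm_num) |>.1 h2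
  have h20 : (2 : K) ≠ 0 := by
    intro h
    have h1 : (1 : K) = 3 - 2 := by norm_num
    rw [h3K, h, sub_zero] at h1
    exact one_ne_zero h1
  have hcube : ∀ u, χ u ^ 3 = 1 := by
    intro u
    rw [← AddChar.map_nsmul_eq_pow]
    have : (3 : ℕ) • u = 0 := by
      rw [nsmul_eq_mul]
      push_cast
      rw [h3K, zero_mul]
    rw [this, AddChar.map_zero_eq_one]
  -- the values
  have hval : ∀ u, (χ u = 1) ∨ ((χ u).re = -1 / 2 ∧ (χ u).im ≠ 0) := by
    intro u
    have h1 : (χ u - 1) * ((χ u) ^ 2 + χ u + 1) = 0 := by linear_combination hcube u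
    rcases mul_eq_zero.1 h1 with h2 | h2
    · left; exact sub_eq_zero.1 h2
    · right
      have h4 : (χ u).im * (2 * (χ u).re + 1) = 0 := by
        have := congrArg Complex.im h2
        simp [pow_two] at this
        linarith
      have h5 : (χ u).re * (χ u).re - (χ u).im * (χ u).im + (χ u).re + 1 = 0 := by
        have := congrArg Complex.re h2
        simp [pow_two] at this
        linarith
      have h6 : (χ u).im ≠ 0 := by
        intro h
        rw [h, mul_zero, sub_zero] at h5
        nlinarith [sq_nonneg ((χ u).re + 1 / 2)]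
      refine ⟨?_, h6⟩
      have := (mul_eq_zero.1 h4).resolve_left h6
      linarith
  set P := U.filter fun u => 0 < (χ u).im with hP
  set N := U.filter fun u => (χ u).im < 0 with hN
  set Z := U.filter fun u => χ u = 1 with hZ
  have hPN : P.card = N.card := by
    refine Finset.card_bij (fun u _ => -u) ?_ ?_ ?_
    · intro u hu
      rw [hP, Finset.mem_filter, hU] at hu
      rw [hN, Finset.mem_filter, hU, map_neg, neg_mul_neg, AddChar.map_neg_eq_conj,
        Complex.conj_im]
      exact ⟨hu.1, by linarith [hu.2]⟩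
    · intro x _ y _ h
      exact neg_injective h
    · intro u hu
      rw [hN, Finset.mem_filter, hU] at hu
      refine ⟨-u, ?_, neg_neg u⟩
      rw [hP, Finset.mem_filter, hU, map_neg, neg_mul_neg, AddChar.map_neg_eq_conj,
        Complex.conj_im]
      exact ⟨hu.1, by linarith [hu.2]⟩
  have hdisj : Disjoint P N := by
    rw [Finset.disjoint_left]
    intro u h1 h2
    rw [hP, Finset.mem_filter] at h1
    rw [hN, Finset.mem_filter] at h2
    linarith [h1.2, h2.2]
  have hcompl : U.filter (fun u => ¬ χ u = 1) = P ∪ N := by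
    ext u
    rw [Finset.mem_union, hP, hN, Finset.mem_filter, Finset.mem_filter, Finset.mem_filter]
    constructor
    · rintro ⟨h1, h2⟩
      rcases hval u with h3 | ⟨-, h3⟩
      · exact absurd h3 h2
      · rcases lt_or_gt_of_ne h3 with h4 | h4
        · right; exact ⟨h1, h4⟩
        · left; exact ⟨h1, h4⟩
    · rintro (⟨h1, h2⟩ | ⟨h1, h2⟩)
      · refine ⟨h1, fun h => ?_⟩
        rw [h, Complex.one_im] at h2
        exact lt_irrefl _ h2
      · refine ⟨h1, fun h => ?_⟩
        rw [h, Complex.one_im] at h2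
        exact lt_irrefl _ h2
  have hcardsum : Z.card + (P ∪ N).card = 28 := by
    have h1 := Finset.card_filter_add_card_filter_not (s := U) (fun u => χ u = 1)
    rw [hcompl, hUc] at h1
    exact h1
  rw [Finset.card_union_of_disjoint hdisj, hPN] at hcardsum
  have hre : (∑ u ∈ U, χ u).re = (Z.card : ℝ) - (N.card : ℝ) := by
    rw [Complex.re_sum, ← Finset.sum_filter_add_sum_filter_not U (fun u => χ u = 1)]
    have h1 : ∑ u ∈ U.filter (fun u => χ u = 1), (χ u).re = (Z.card : ℝ) := by
      rw [Finset.sum_congr rfl (g := fun _ => (1 : ℝ))]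
      · rw [Finset.sum_const, nsmul_eq_mul, mul_one]
      · intro u hu
        rw [(Finset.mem_filter.1 hu).2, Complex.one_re]
    have h2 : ∑ u ∈ U.filter (fun u => ¬ χ u = 1), (χ u).re = -(N.card : ℝ) := by
      rw [Finset.sum_congr rfl (g := fun _ => (-1 / 2 : ℝ))]
      · rw [hcompl, Finset.sum_const, nsmul_eq_mul, Finset.card_union_of_disjoint hdisj, hPN]
        push_cast
        ring
      · intro u hu
        rcases hval u with h3 | ⟨h3, -⟩
        · exact absurd h3 (Finset.mem_filter.1 hu).2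
        · exact h3
    rw [h1, h2]
    ring
  have hZ28 : (Z.card : ℤ) = 28 - 2 * (N.card : ℤ) := by
    have : (Z.card : ℤ) + ((N.card : ℤ) + (N.card : ℤ)) = 28 := by exact_mod_cast hcardsum
    linarith
  have hreZ : (∑ u ∈ U, χ u).re = ((1 - 3 * ((N.card : ℤ) - 9) : ℤ) : ℝ) := by
    rw [hre]
    have : ((Z.card : ℤ) : ℝ) = ((28 - 2 * (N.card : ℤ) : ℤ) : ℝ) := by rw [hZ28]
    push_cast at this ⊢
    rw [this]
    ring
  refine ⟨(N.card : ℤ) - 9, ?_, ?_⟩
  · apply Complex.ext
    · rw [Complex.intCast_re, hreZ]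
    · rw [Complex.intCast_im, him]
  · rw [hreZ] at hrn
    have h1 := abs_le.1 (hrn.trans hsq.le)
    have h2 : |(((1 - 3 * ((N.card : ℤ) - 9) : ℤ)) : ℝ)| < 11 := lt_of_le_of_lt hrn hsq
    rw [← Int.cast_abs] at h2
    have h3 : |(1 - 3 * ((N.card : ℤ) - 9) : ℤ)| < 11 := by exact_mod_cast h2
    rw [abs_lt] at h3
    omega

end Pool.Agent.MP_8b8716_co_QR
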