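import Mathlib
import Pool.Agent.Lib.MP_8b8716_co_QF.GapA
import Pool.Agent.Lib.MP_8b8716_co_QR.Defs
import Pool.Agent.Lib.MP_8b8716_co_QR.Spec

set_option autoImplicit false

/-!
# MP_8b8716_co, project QR: two sided mixing inequality, the soft inequality for the residue field
with 27 elements, two sided gaps for 11 and 27
-/

noncomputable section

namespace Pool.Agent.MP_8b8716_co_QR

open Finset
open Pool.Agent.MP_8b8716_co_QG
open Pool.Agent.MP_8b8716_co_QF (fc fc_shift sum_norm_fc fc_zero)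

/-- the mixing inequality with two sided bounds of the spectrum -/
theorem mixing_two {A : Type*} [AddCommGroup A] [Fintype A] (U : Finset A) (hU : U.Nonempty)
    (c r : ℝ) (hr : 0 ≤ r)
    (hgap : ∀ ψ : AddChar A ℂ, ψ ≠ 1 → (∑ u ∈ U, ψ u).im = 0 ∧
      |(∑ u ∈ U, ψ u).re - c * U.card| ≤ r * U.card) (f g : A → ℝ) :
    mean f * mean g + c * ((mean fun h => f h * g h) - mean f * mean g) -
      r / 2 * (((mean fun h => f h ^ 2) - mean f ^ 2) + ((mean fun h => g h ^ 2) - mean g ^ 2)) ≤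
      cross U f g := by
  classical
  set N : ℝ := (Fintype.card A : ℝ) with hN
  have hNpos : 0 < N := by
    rw [hN]
    exact_mod_cast Fintype.card_pos
  set n : ℝ := (U.card : ℝ) with hn
  have hnpos : 0 < n := by
    rw [hn]
    exact_mod_cast hU.card_pos
  set X : ℝ := ∑ h, ∑ u ∈ U, f (h + u) * g h with hX
  have h1 : ∑ ψ : AddChar A ℂ, fc f ψ * (starRingEnd ℂ) (fc g ψ) * ∑ u ∈ U, ψ u =
      ((N * X : ℝ) : ℂ) := by
    simp only [Finset.mul_sum]
    rw [Finset.sum_comm]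
    simp only [fc_shift]
    rw [← Finset.mul_sum]
    push_cast
    rw [hX, Finset.sum_comm, hN]
    push_cast
    simp only [Finset.mul_sum]
  have h2 : ∑ ψ : AddChar A ℂ, fc f ψ * (starRingEnd ℂ) (fc g ψ) =
      ((N * ∑ y, f y * g y : ℝ) : ℂ) := by
    have h := fc_shift f g 0
    simp only [AddChar.map_zero_eq_one, mul_one, add_zero] at h
    rw [h, hN]
    push_cast
    rfl
  have h3 : ∑ ψ : AddChar A ℂ, fc f ψ * (starRingEnd ℂ) (fc g ψ) *
      (∑ u ∈ U, ψ u - ((c * n : ℝ) : ℂ)) = ((N * X - c * n * (N * ∑ y, f y * g y) : ℝ) : ℂ) := by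
    simp only [mul_sub]
    rw [Finset.sum_sub_distrib, h1, ← Finset.sum_mul, h2]
    push_cast
    ring
  rw [← Finset.add_sum_erase _ _ (Finset.mem_univ (0 : AddChar A ℂ))] at h3
  have h4 : fc f 0 * (starRingEnd ℂ) (fc g 0) *
      (∑ u ∈ U, (0 : AddChar A ℂ) u - ((c * n : ℝ) : ℂ)) =
      (((∑ x, f x) * (∑ x, g x) * (n - c * n) : ℝ) : ℂ) := by
    rw [fc_zero, fc_zero, Complex.conj_ofReal]
    simp only [AddChar.zero_apply, Finset.sum_const, nsmul_eq_mul, mul_one]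
    push_cast
    rw [hn]
    push_cast
    ring
  rw [h4] at h3
  have h5 : ∀ k : A → ℝ, ∑ ψ ∈ (Finset.univ : Finset (AddChar A ℂ)).erase 0, ‖fc k ψ‖ ^ 2 =
      N * ∑ y, k y ^ 2 - (∑ y, k y) ^ 2 := by
    intro k
    have h6 := sum_norm_fc k
    rw [← Finset.add_sum_erase _ _ (Finset.mem_univ (0 : AddChar A ℂ)), fc_zero,
      Complex.norm_real, Real.norm_eq_abs, sq_abs] at h6
    rw [hN]
    linarith
  have h6 : ‖∑ ψ ∈ (Finset.univ : Finset (AddChar A ℂ)).erase 0,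
      fc f ψ * (starRingEnd ℂ) (fc g ψ) * (∑ u ∈ U, ψ u - ((c * n : ℝ) : ℂ))‖ ≤
      r * n / 2 * ((N * ∑ y, f y ^ 2 - (∑ y, f y) ^ 2) + (N * ∑ y, g y ^ 2 - (∑ y, g y) ^ 2)) := by
    calc ‖∑ ψ ∈ (Finset.univ : Finset (AddChar A ℂ)).erase 0,
        fc f ψ * (starRingEnd ℂ) (fc g ψ) * (∑ u ∈ U, ψ u - ((c * n : ℝ) : ℂ))‖
        ≤ ∑ ψ ∈ (Finset.univ : Finset (AddChar A ℂ)).erase 0,
          ‖fc f ψ * (starRingEnd ℂ) (fc g ψ) * (∑ u ∈ U, ψ u - ((c * n : ℝ) : ℂ))‖ :=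
          norm_sum_le _ _
      _ ≤ ∑ ψ ∈ (Finset.univ : Finset (AddChar A ℂ)).erase 0,
          (r * n) / 2 * (‖fc f ψ‖ ^ 2 + ‖fc g ψ‖ ^ 2) := by
        refine Finset.sum_le_sum fun ψ hψ => ?_
        rw [norm_mul, norm_mul, RCLike.norm_conj]
        obtain ⟨h7, h8⟩ := hgap ψ fun h => Finset.ne_of_mem_erase hψ (h.trans AddChar.one_eq_zero)
        have h9 : ∑ u ∈ U, ψ u - ((c * n : ℝ) : ℂ) =
            (((∑ u ∈ U, ψ u).re - c * n : ℝ) : ℂ) := by
          apply Complex.ext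
          · rw [Complex.sub_re, Complex.ofReal_re, Complex.ofReal_re]
          · rw [Complex.sub_im, Complex.ofReal_im, Complex.ofReal_im, h7, sub_zero]
        rw [h9, Complex.norm_real, Real.norm_eq_abs]
        have h10 : ‖fc f ψ‖ * ‖fc g ψ‖ ≤ (‖fc f ψ‖ ^ 2 + ‖fc g ψ‖ ^ 2) / 2 := by
          nlinarith [sq_nonneg (‖fc f ψ‖ - ‖fc g ψ‖)]
        calc ‖fc f ψ‖ * ‖fc g ψ‖ * |(∑ u ∈ U, ψ u).re - c * n|
            ≤ ((‖fc f ψ‖ ^ 2 + ‖fc g ψ‖ ^ 2) / 2) * (r * n) := by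
              gcongr
          _ = _ := by ring
      _ = _ := by
        rw [← Finset.mul_sum, Finset.sum_add_distrib, h5, h5]
  have h7 : ∑ ψ ∈ (Finset.univ : Finset (AddChar A ℂ)).erase 0,
      fc f ψ * (starRingEnd ℂ) (fc g ψ) * (∑ u ∈ U, ψ u - ((c * n : ℝ) : ℂ)) =
      ((N * X - c * n * (N * ∑ y, f y * g y) -
        (∑ x, f x) * (∑ x, g x) * (n - c * n) : ℝ) : ℂ) := by
    rw [Complex.ofReal_sub, ← h3]
    ring
  rw [h7, Complex.norm_real, Real.norm_eq_abs, abs_le] at h6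
  have h8 := h6.1
  unfold cross mean
  rw [← hN, ← hn, ← hX]
  have h9 : X / (N * n) = (N * X) / (N ^ 2 * n) := by
    field_simp
  rw [h9, le_div_iff₀ (by positivity)]
  have h10 : ((∑ h, f h) / N * ((∑ h, g h) / N) +
      c * ((∑ h, f h * g h) / N - (∑ h, f h) / N * ((∑ h, g h) / N)) -
      r / 2 * ((∑ h, f h ^ 2) / N - ((∑ h, f h) / N) ^ 2 +
        ((∑ h, g h ^ 2) / N - ((∑ h, g h) / N) ^ 2))) * (N ^ 2 * n) =
      (∑ h, f h) * (∑ h, g h) * (n - c * n) + c * n * (N * ∑ h, f h * g h) -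
      r * n / 2 * ((N * ∑ y, f y ^ 2 - (∑ y, f y) ^ 2) +
        (N * ∑ y, g y ^ 2 - (∑ y, g y) ^ 2)) := by
    field_simp
    ring
  rw [h10]
  linarith

section
variable {K : Type} [Field K] [Fintype K] (bar : K →+* K)

theorem mem_UU (u : K) : u ∈ UU bar ↔ u * bar u = 1 := by
  classical
  unfold UU
  rw [Finset.mem_filter]
  exact ⟨fun h => h.2, fun h => ⟨Finset.mem_univ _, h⟩⟩

theorem one_mem_UU : (1 : K) ∈ UU bar := by
  rw [mem_UU, map_one, mul_one]

theorem card_UU (hbar : ∀ a, bar (bar a) = a) (hne : ∃ a, bar a ≠ a) {q : ℕ}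
    (hcard : Fintype.card K = q ^ 2) : (UU bar).card = q + 1 := by
  classical
  have hfx := card_eq_fx bar hbar hne
  have hqn : Fintype.card (fx bar) = q := by
    have h1 : Fintype.card (fx bar) ^ 2 = q ^ 2 := by rw [← hfx, hcard]
    exact Nat.pow_left_injective (n := 2) two_ne_zero h1
  rw [card_U bar hbar hne _ (mem_UU bar), hqn]

end

/-- the two sided gap for 11 -/
theorem gapTwo_11 : GapTwo 11 (-(39965 / 100000)) (47642 / 100000) := by
  classical
  intro K _ _ bar hbar hne hcard χ hχ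
  rw [card_UU bar hbar hne hcard]
  obtain ⟨-, h2, h3⟩ := spec_eleven bar hbar hne hcard (UU bar) (mem_UU bar) hχ
  push_cast
  norm_num at h2 h3 ⊢
  exact ⟨h2, h3⟩

/-- the two sided gap for 27 -/
theorem gapTwo_27 : GapTwo 27 (-(8 / 28)) (10 / 28) := by
  classical
  intro K _ _ bar hbar hne hcard χ hχ
  rw [card_UU bar hbar hne hcard]
  obtain ⟨n, h1, h2, h3⟩ := spec_twentyseven bar hbar hne hcard (UU bar) (mem_UU bar) hχ
  rw [h1, Complex.intCast_re]
  have h4 : (-8 : ℝ) ≤ ((1 - 3 * n : ℤ) : ℝ) := by exact_mod_cast h2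
  have h5 : ((1 - 3 * n : ℤ) : ℝ) ≤ 10 := by exact_mod_cast h3
  push_cast at h4 h5 ⊢
  constructor <;> linarith

/-- functions with mean value 1/4 on a set with 729 elements are not indicator functions -/
theorem vv_ge {A : Type} [Fintype A] (hA : Fintype.card A = 27 ^ 2) (a : A → ℝ) (ha : Unit01 a)
    (hm : mean a = 1 / 4) : 1 / 5832 ≤ VV a := by
  classical
  unfold VV mean at *
  rw [hA] at hm ⊢
  have h1 : ∑ h, a h = 729 / 4 := by
    rw [div_eq_iff (by norm_num)] at hm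
    rw [hm]
    norm_num
  set r : A → ℕ := fun x => if a x ≤ 1 / 2 then 0 else 1
  have h2 : ∀ x, |a x - (r x : ℝ)| ≤ 2 * (a x - a x ^ 2) := by
    intro x
    obtain ⟨h3, h4⟩ := ha x
    by_cases h5 : a x ≤ 1 / 2
    · have : r x = 0 := if_pos h5
      rw [this, Nat.cast_zero, sub_zero, abs_of_nonneg h3]
      nlinarith
    · have : r x = 1 := if_neg h5
      rw [this, Nat.cast_one, abs_sub_comm, abs_of_nonneg (by linarith)]
      push Not at h5
      nlinarith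
  have h3 : |∑ x, a x - ((∑ x, r x : ℕ) : ℝ)| ≤ 2 * (∑ x, a x - ∑ x, a x ^ 2) := by
    rw [Nat.cast_sum, ← Finset.sum_sub_distrib, ← Finset.sum_sub_distrib, Finset.mul_sum]
    exact (Finset.abs_sum_le_sum_abs _ _).trans (Finset.sum_le_sum fun x _ => h2 x)
  have h4 : 1 / 4 ≤ |∑ x, a x - ((∑ x, r x : ℕ) : ℝ)| := by
    rw [h1]
    generalize (∑ x, r x : ℕ) = n
    rcases Nat.lt_or_ge n 183 with h5 | h5
    · have h6 : (n : ℝ) ≤ 182 := by exact_mod_cast (by omega : n ≤ 182)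
      rw [abs_of_nonneg (by linarith)]
      linarith
    · have h6 : (183 : ℝ) ≤ n := by exact_mod_cast h5
      rw [abs_of_nonpos (by linarith)]
      linarith
  have h5 : 1 / 8 ≤ ∑ x, a x - ∑ x, a x ^ 2 := by linarith
  rw [← sub_div, le_div_iff₀ (by norm_num)]
  refine le_trans ?_ h5
  norm_num

/-- the soft inequality for 27 -/
theorem softAt_27 : SoftAt 4 27 (1 / 23328) := by
  classical
  intro K _ _ bar hbar hne hcard a b ha hb hma hmb
  have hgap : ∀ ψ : AddChar K ℂ, ψ ≠ 1 → (∑ u ∈ UU bar, ψ u).im = 0 ∧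
      |(∑ u ∈ UU bar, ψ u).re - 1 / 28 * (UU bar).card| ≤ 9 / 28 * (UU bar).card := by
    intro ψ hψ
    refine ⟨torus_im bar hbar hne (UU bar) (mem_UU bar) ψ, ?_⟩
    obtain ⟨h1, h2⟩ := gapTwo_27 K bar hbar hne hcard ψ hψ
    rw [abs_le]
    constructor <;> linarith
  have h1 := mixing_two (UU bar) ⟨1, one_mem_UU bar⟩ (1 / 28) (9 / 28) (by norm_num) hgap a b
  have h2 := vv_ge hcard a ha (by rw [hma]; norm_num)
  have h3 := vv_ge hcard b hb (by rw [hmb]; norm_num)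
  have h4 : 0 ≤ mean fun h => a h * b h := by
    unfold mean
    exact div_nonneg (Finset.sum_nonneg fun x _ => mul_nonneg (ha x).1 (hb x).1)
      (Nat.cast_nonneg _)
  have h5 : (mean fun h => a h ^ 2) = mean a - VV a := by unfold VV; ring
  have h6 : (mean fun h => b h ^ 2) = mean b - VV b := by unfold VV; ring
  rw [h5, h6, hma, hmb] at h1
  refine le_trans ?_ h1
  push_cast
  linarith

end Pool.Agent.MP_8b8716_co_QR
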