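import Mathlib
import Pool.Agent.Lib.MP_8b8716_co_QR.Defs
import Pool.Agent.Lib.MP_8b8716_co_QR.Spec
import Pool.Agent.Lib.MP_8b8716_co_QR.Soft27

set_option autoImplicit false

/-!
# MP_8b8716_co, project QR: the certificates for the residue fields with 23, 31 and 27 elements
-/

noncomputable section

namespace Pool.Agent.MP_8b8716_co_QR

open Pool.Agent.MP_8b8716_co_QG

/-- the gap for 23 and 31 -/
theorem gap_small : ∃ lam : ℝ, 3 * lam < 1 ∧ GapAt {23, 31} lam := by
  refine ⟨33333 / 100000, by norm_num, gapAt_third.1, ?_⟩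
  intro K _ _ _ bar hbar hne ⟨q, hq, hc⟩ U hU
  refine gapAt_third.2 K bar hbar hne ⟨q, ?_, hc⟩ U hU
  rcases hq with h | h
  · exact Or.inl h
  · exact Or.inr (Or.inl h)

/-- the soft inequality for 27 -/
theorem soft_twentyseven : ∃ δ : ℝ, 0 < δ ∧ SoftAt 4 27 δ := ⟨_, by norm_num, softAt_27⟩

/-- the two sided gap for 11 in the form used with the threshold 63/200 -/
theorem gapTwo_eleven : GapTwo 11 (-(2 / 5)) (12 / 25) := by
  intro K _ _ bar hbar hne hcard χ hχ
  obtain ⟨h1, h2⟩ := gapTwo_11 K bar hbar hne hcard χ hχ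
  have h3 : (0 : ℝ) ≤ (UU bar).card := Nat.cast_nonneg _
  constructor
  · refine le_trans ?_ h1
    nlinarith
  · refine h2.trans ?_
    nlinarith

end Pool.Agent.MP_8b8716_co_QR
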