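import Mathlib
import Pool.Agent.Lib.MP_8b8716_co_QR.Defs
import Pool.Agent.Lib.MP_8b8716_co_QR.Soft27

set_option autoImplicit false

/-!
# MP_8b8716_co, project QR: coordinates in the field with `p ^ 2` elements, `p = 3` modulo 4
-/

noncomputable section

namespace Pool.Agent.MP_8b8716_co_QR

open Finset
open Pool.Agent.MP_8b8716_co_QG

namespace TriV

/-- coordinates in the field with `p ^ 2` elements -/
theorem coords {p : ℕ} [hp : Fact p.Prime] (hp4 : p % 4 = 3) {K : Type} [Field K] [Fintype K]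
    (bar : K →+* K) (hbar : ∀ a, bar (bar a) = a) (hne : ∃ a, bar a ≠ a)
    (hcard : Fintype.card K = p ^ 2) :
    ∃ φ : ZMod p × ZMod p → K, Function.Bijective φ ∧ (∀ h u, φ (h + u) = φ h + φ u) ∧
      ∀ u, φ u * bar (φ u) = 1 ↔ u.1 ^ 2 + u.2 ^ 2 = 1 := by
  classical
  have hfx := card_eq_fx bar hbar hne
  have hpn : Fintype.card (fx bar) = p := by
    have h1 : Fintype.card (fx bar) ^ 2 = p ^ 2 := by rw [← hfx, hcard]
    exact Nat.pow_left_injective (n := 2) two_ne_zero h1
  let e : ZMod p ≃+* fx bar := ZMod.ringEquivOfPrime (fx bar) hp.out hpn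
  obtain ⟨i, hi⟩ : ∃ i : K, i * i = -1 := by
    have h1 : IsSquare (-1 : K) := by
      rw [FiniteField.isSquare_neg_one_iff, hcard]
      have h2 : p ^ 2 % 4 = 1 := by
        rw [Nat.pow_mod, hp4]
      omega
    obtain ⟨i, hi⟩ := h1
    exact ⟨i, hi.symm⟩
  have hbi : bar i = -i := by
    have h1 : bar i * bar i = -1 := by rw [← map_mul, hi, map_neg, map_one]
    have h2 : (bar i - i) * (bar i + i) = 0 := by linear_combination h1 - hi
    rcases mul_eq_zero.1 h2 with h3 | h3
    · exfalso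
      have h4 : bar i = i := sub_eq_zero.1 h3
      have h5 : IsSquare (-1 : fx bar) := by
        refine ⟨⟨i, h4⟩, ?_⟩
        apply Subtype.ext
        show (-1 : K) = i * i
        exact hi.symm
      rw [FiniteField.isSquare_neg_one_iff, hpn] at h5
      exact h5 hp4
    · exact eq_neg_of_add_eq_zero_left h3
  have hi0 : bar i ≠ i := by
    rw [hbi]
    intro h
    have h1 : (2 : K) * i = 0 := by linear_combination -h
    have hi1 : i ≠ 0 := by
      rintro rfl
      rw [mul_zero] at hi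
      exact one_ne_zero (α := K) (by linear_combination hi)
    have h2 : (2 : K) = 0 := (mul_eq_zero.1 h1).resolve_right hi1
    have h3 : ((Fintype.card K : ℕ) : K) = 0 := Nat.cast_card_eq_zero K
    rw [hcard] at h3
    have h4 : p ^ 2 = 2 * (p ^ 2 / 2) + 1 := by
      have : p ^ 2 % 2 = 1 := by
        rw [Nat.pow_mod]
        have : p % 2 = 1 := by omega
        rw [this]
      omega
    rw [h4] at h3
    push_cast at h3
    rw [h2, zero_mul, zero_add] at h3
    exact one_ne_zero h3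
  have hbij := bijective_pair bar hbar hi0
  refine ⟨fun h => (e h.1 : K) + (e h.2 : K) * i, ?_, ?_, ?_⟩
  · have h1 : Function.Bijective (fun h : ZMod p × ZMod p => ((e h.1, e h.2) : fx bar × fx bar)) :=
      (Equiv.prodCongr e.toEquiv e.toEquiv).bijective
    exact hbij.comp h1
  · intro h u
    simp only [Prod.fst_add, Prod.snd_add, map_add, Subfield.coe_add]
    ring
  · intro u
    have hx : bar (e u.1 : K) = e u.1 := (e u.1).2
    have hy : bar (e u.2 : K) = e u.2 := (e u.2).2
    have h1 : ((e u.1 : K) + (e u.2 : K) * i) * bar ((e u.1 : K) + (e u.2 : K) * i) =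
        ((e (u.1 ^ 2 + u.2 ^ 2) : fx bar) : K) := by
      rw [map_add, map_mul, hx, hy, hbi, map_add, map_pow, map_pow]
      push_cast
      linear_combination (-(e u.2 : K) ^ 2) * hi
    simp only [h1]
    constructor
    · intro h
      apply e.injective
      rw [map_one]
      exact Subtype.ext h
    · intro h
      rw [h, map_one]
      rfl

/-- the sums in coordinates -/
theorem sum_coords {p : ℕ} [hp : Fact p.Prime] {K : Type} [Field K] [Fintype K]
    {φ : ZMod p × ZMod p → K} (hφ : Function.Bijective φ) (f : K → ℝ) :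
    ∑ h, f h = ∑ h, f (φ h) :=
  (Fintype.sum_bijective φ hφ (fun h => f (φ h)) f fun _ => rfl).symm

/-- the crossing number in coordinates -/
theorem cross_coords {p : ℕ} [hp : Fact p.Prime] {K : Type} [Field K] [Fintype K]
    (bar : K →+* K) {φ : ZMod p × ZMod p → K} (hφ : Function.Bijective φ)
    (hadd : ∀ h u, φ (h + u) = φ h + φ u)
    (hU : ∀ u, φ u * bar (φ u) = 1 ↔ u.1 ^ 2 + u.2 ^ 2 = 1) (f g : K → ℝ) :
    ∑ h, ∑ u ∈ UU bar, f (h + u) * g h =
      ∑ u ∈ Finset.univ.filter (fun u : ZMod p × ZMod p => u.1 ^ 2 + u.2 ^ 2 = 1),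
        ∑ h, f (φ h) * g (φ (h + u)) := by
  classical
  rw [Finset.sum_comm]
  have h0 : φ 0 = 0 := by
    have := hadd 0 0
    rw [add_zero] at this
    exact left_eq_add.1 this
  have hneg : ∀ u, φ (-u) = -φ u := by
    intro u
    have := hadd (-u) u
    rw [neg_add_cancel, h0] at this
    exact eq_neg_of_add_eq_zero_left this.symm
  symm
  refine Finset.sum_bij (fun u _ => -φ u) ?_ ?_ ?_ ?_
  · intro u hu
    rw [Finset.mem_filter] at hu
    rw [mem_UU, map_neg, neg_mul_neg]
    exact (hU u).2 hu.2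
  · intro u _ v _ h
    exact hφ.1 (neg_injective h)
  · intro v hv
    obtain ⟨u, hu⟩ := hφ.2 (-v)
    refine ⟨u, ?_, ?_⟩
    · rw [Finset.mem_filter]
      refine ⟨Finset.mem_univ _, (hU u).1 ?_⟩
      rw [hu, map_neg, neg_mul_neg]
      exact (mem_UU bar v).1 hv
    · rw [hu, neg_neg]
  · intro u _
    have h1 : ∀ h, f (φ h) * g (φ (h + u)) = (fun y => f (y + -φ u) * g y) (φ h + φ u) := by
      intro h
      simp only
      rw [add_neg_cancel_right, hadd]
    simp only [h1]
    rw [← sum_coords hφ (fun y => (fun y => f (y + -φ u) * g y) (y + φ u))]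
    exact Fintype.sum_equiv (Equiv.addRight (φ u)) _ _ fun x => rfl

end TriV

/-- transport of the soft triangle inequality for 11 -/
theorem triAt_of_V {s0 θ k0 κ Kc : ℝ} (H : ∀ a b c : ZMod 11 × ZMod 11 → ℝ, Unit01 a → Unit01 b →
    Unit01 c → 121 * s0 ≤ ∑ h, a h → ∑ h, a h ≤ 121 * θ →
    ∑ h, b h + ∑ h, c h ≤ 121 * k0 - κ * ∑ h, a h +
      Kc * (1 / 12 * ∑ u ∈ Finset.univ.filter (fun u : ZMod 11 × ZMod 11 => u.1 ^ 2 + u.2 ^ 2 = 1),
        ((∑ h, a h * b (h + u)) + (∑ h, a h * c (h + u)) + ∑ h, b h * c (h + u)) -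
        1 / 6 * (∑ h, (a h - a h ^ 2) + ∑ h, (b h - b h ^ 2) + ∑ h, (c h - c h ^ 2)))) :
    TriAt 11 s0 θ k0 κ Kc := by
  intro K _ _ bar hbar hne hcard a b c ha hb hc h1 h2
  have hp : Fact (Nat.Prime 11) := ⟨by norm_num⟩
  obtain ⟨φ, hφ, hadd, hU⟩ := TriV.coords (p := 11) (by norm_num) bar hbar hne hcard
  have hcardU := card_UU bar hbar hne hcard
  have h3 := H (fun h => a (φ h)) (fun h => b (φ h)) (fun h => c (φ h)) (fun h => ha _)
    (fun h => hb _) (fun h => hc _)
  unfold mean at h1 h2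
  rw [hcard, le_div_iff₀ (by norm_num), TriV.sum_coords hφ] at h1
  rw [hcard, div_le_iff₀ (by norm_num), TriV.sum_coords hφ] at h2
  have h4 := h3 (by push_cast at h1; linarith) (by push_cast at h2; linarith)
  rw [Finset.sum_add_distrib, Finset.sum_add_distrib] at h4
  unfold cross VV mean
  rw [TriV.cross_coords bar hφ hadd hU a b, TriV.cross_coords bar hφ hadd hU a c,
    TriV.cross_coords bar hφ hadd hU b c, TriV.sum_coords hφ a, TriV.sum_coords hφ b,
    TriV.sum_coords hφ c, TriV.sum_coords hφ (fun h => a h ^ 2),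
    TriV.sum_coords hφ (fun h => b h ^ 2), TriV.sum_coords hφ (fun h => c h ^ 2), hcard, hcardU]
  simp only [Finset.sum_sub_distrib] at h4
  push_cast
  norm_num at h4 ⊢
  linarith

/-- transport of the soft inequality for 19 -/
theorem softAt_of_V {δ : ℝ} (H : ∀ a b : ZMod 19 × ZMod 19 → ℝ, Unit01 a → Unit01 b →
    ∑ h, a h = 361 / 4 → ∑ h, b h = 361 / 4 →
    1 / 20 * (∑ h, (a h - a h ^ 2) + ∑ h, (b h - b h ^ 2)) + 361 * δ ≤
      1 / 20 * ∑ u ∈ Finset.univ.filter (fun u : ZMod 19 × ZMod 19 => u.1 ^ 2 + u.2 ^ 2 = 1),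
        ∑ h, a h * b (h + u)) :
    SoftAt 4 19 δ := by
  intro K _ _ bar hbar hne hcard a b ha hb h1 h2
  have hp : Fact (Nat.Prime 19) := ⟨by norm_num⟩
  obtain ⟨φ, hφ, hadd, hU⟩ := TriV.coords (p := 19) (by norm_num) bar hbar hne hcard
  have hcardU := card_UU bar hbar hne hcard
  have h3 := H (fun h => a (φ h)) (fun h => b (φ h)) (fun h => ha _) (fun h => hb _)
  unfold mean at h1 h2
  rw [hcard, div_eq_iff (by norm_num), TriV.sum_coords hφ] at h1
  rw [hcard, div_eq_iff (by norm_num), TriV.sum_coords hφ] at h2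
  have h4 := h3 (by rw [h1]; norm_num) (by rw [h2]; norm_num)
  unfold cross VV mean
  rw [TriV.cross_coords bar hφ hadd hU a b, TriV.sum_coords hφ a, TriV.sum_coords hφ b,
    TriV.sum_coords hφ (fun h => a h ^ 2), TriV.sum_coords hφ (fun h => b h ^ 2), hcard, hcardU]
  simp only [Finset.sum_sub_distrib] at h4
  push_cast
  norm_num at h4 ⊢
  linarith

end Pool.Agent.MP_8b8716_co_QR
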