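import Mathlib
import Pool.Agent.Lib.MP_8b8716_co_QR.Defs
import Pool.Agent.Lib.MP_8b8716_co_QR.CertS
import Pool.Agent.Lib.MP_8b8716_co_QR.TriV
import Pool.Agent.Lib.MP_8b8716_co_TRI.TriMain

set_option autoImplicit false

/-!
# MP_8b8716_co, project QR: the certificate for the residue fields with eleven elements
-/

noncomputable section

namespace Pool.Agent.MP_8b8716_co_QR

open Finset
open Pool.Agent.MP_8b8716_co_QG
open Pool.Agent.MP8b8716T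

theorem triAt_eleven : TriAt 11 (11 / 200) (63 / 200) (4423 / 5000) (77 / 50) 6 := by
  refine triAt_of_V fun a b c ha hb hc h1 h2 => ?_
  have h0 : ∀ t h, 0 ≤ (![a, b, c] : Fin 3 → VV11 → ℝ) t h := by
    intro t h
    fin_cases t
    · exact (ha h).1
    · exact (hb h).1
    · exact (hc h).1
  have h1' : ∀ t h, (![a, b, c] : Fin 3 → VV11 → ℝ) t h ≤ 1 := by
    intro t h
    fin_cases t
    · exact (ha h).2
    · exact (hb h).2
    · exact (hc h).2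
  have ea : A1 (![a, b, c] : Fin 3 → VV11 → ℝ) 0 = ∑ h, a h := rfl
  have h := tri_F h0 h1' (by rw [ea]; linarith) (by rw [ea]; linarith)
  have eb : A1 (![a, b, c] : Fin 3 → VV11 → ℝ) 1 = ∑ h, b h := rfl
  have ec : A1 (![a, b, c] : Fin 3 → VV11 → ℝ) 2 = ∑ h, c h := rfl
  have sq : ∀ f : VV11 → ℝ, ∑ h, f h - ∑ h, f h * f (h + 0) = ∑ h, (f h - f h ^ 2) := by
    intro f
    rw [← sum_sub_distrib]
    refine sum_congr rfl fun h _ => ?_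
    rw [add_zero]
    ring
  have ta : A1 (![a, b, c] : Fin 3 → VV11 → ℝ) 0 - A2 ![a, b, c] 0 (0, 0) =
      ∑ h, (a h - a h ^ 2) := sq a
  have tb : A1 (![a, b, c] : Fin 3 → VV11 → ℝ) 1 - A2 ![a, b, c] 1 (1, 0) =
      ∑ h, (b h - b h ^ 2) := sq b
  have tc : A1 (![a, b, c] : Fin 3 → VV11 → ℝ) 2 - A2 ![a, b, c] 2 (2, 0) =
      ∑ h, (c h - c h ^ 2) := sq c
  rw [ta, tb, tc, ea, eb, ec] at h
  have eu : ∑ x ∈ U11, (A2 (![a, b, c] : Fin 3 → VV11 → ℝ) 0 (1, x) + A2 ![a, b, c] 0 (2, x) +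
      A2 ![a, b, c] 1 (2, x)) =
      ∑ u ∈ univ.filter (fun u : ZMod 11 × ZMod 11 => u.1 ^ 2 + u.2 ^ 2 = 1),
        ((∑ h, a h * b (h + u)) + (∑ h, a h * c (h + u)) + ∑ h, b h * c (h + u)) := rfl
  rw [eu] at h
  linarith

theorem cert_eleven : ∃ lo hi s0 θ k0 κ Kc : ℝ, GapTwo 11 lo hi ∧ 1 / 6 ≤ -lo ∧ -lo ≤ hi ∧
    0 < θ ∧ (hi - lo) / 2 * (1 - θ) < (1 - (hi + lo) / 2) * θ ∧ s0 ≤ 1 - 3 * θ ∧
    4 * k0 - κ < 2 ∧ 0 ≤ Kc ∧ TriAt 11 s0 θ k0 κ Kc :=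
  ⟨-(2 / 5), 12 / 25, 11 / 200, 63 / 200, 4423 / 5000, 77 / 50, 6, gapTwo_eleven, by norm_num,
    by norm_num, by norm_num, by norm_num, by norm_num, by norm_num, by norm_num, triAt_eleven⟩

end Pool.Agent.MP_8b8716_co_QR
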