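import Mathlib
import Pool.Agent.Lib.MP_8b8716_co_QR.Defs
import Pool.Agent.Lib.MP_8b8716_co_QG.GRing

set_option autoImplicit false
set_option linter.unusedSectionVars false

/-!
# MP_8b8716_co, project QR, module RA: characters of a local ring
-/

noncomputable section

namespace Pool.Agent.MP_8b8716_co_QR

open NumberField
open Pool.Agent.MP_8b8716_co_QG
open Finset

namespace RA

open Pool.Agent.MP_8b8716_co_QG.GRing

/-- the estimate for a faithful character of a local ring which is not a field -/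
theorem faithful {q : ℕ} {A : Type} [CommRing A] [Fintype A] [DecidableEq A] (bar : A →+* A)
    (hbar : ∀ a, bar (bar a) = a) (hid : ∀ I : Ideal A, ∀ a ∈ I, bar a ∈ I) (M : Ideal A)
    (hM : M.IsMaximal) (hloc : ∀ M' : Ideal A, M'.IsMaximal → M' = M) (hne : ∃ a, bar a - a ∉ M)
    (hcard : Nat.card (A ⧸ M) = q ^ 2) (U : Finset A) (hU : ∀ u, u ∈ U ↔ u * bar u = 1)
    (χ : AddChar A ℂ) (hx : ∃ x ∈ M, x ≠ 0) (hf : ∀ a : A, a ≠ 0 → ∃ x, χ (a * x) ≠ 1) :
    ((q : ℝ) + 1) * ‖∑ u ∈ U, χ u‖ ≤ 2 * U.card := by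
  classical
  have hmax : ∀ M' : Ideal A, M'.IsMaximal →
      (∃ a, bar a - a ∉ M') ∧ ∃ q' ∈ ({q} : Set ℕ), Nat.card (A ⧸ M') = q' ^ 2 := by
    intro M' hM'
    rw [hloc M' hM']
    exact ⟨hne, q, rfl, hcard⟩
  have hnt : Nontrivial A := by
    obtain ⟨x, -, hx0⟩ := hx
    exact ⟨⟨x, 0, hx0⟩⟩
  obtain ⟨s1, hs0, hs⟩ := exists_minimal (A := A)
  have hMa := ann_max hs0 hs
  have haM : ann s1 = M := hloc _ hMa
  obtain ⟨hne', -⟩ := hmax _ hMa
  obtain ⟨K, _, _, _, barK, π, hπ, hker, hc, hbK, hneK, q', hq', hcardK⟩ :=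
    exists_field bar hbar hid hmax (ann s1) hMa
  rw [Set.mem_singleton_iff] at hq'
  subst hq'
  let V : Finset K := Finset.univ.filter fun v => v * barK v = 1
  have hV : ∀ v, v ∈ V ↔ v * barK v = 1 := fun v => by simp [V]
  have hVc : V.card = q' + 1 := by
    have hfx := card_eq_fx barK hbK hneK
    have hqn : Fintype.card (fx barK) = q' := by
      have h1 : Fintype.card (fx barK) ^ 2 = q' ^ 2 := by rw [← hfx, hcardK]
      exact Nat.pow_left_injective (n := 2) two_ne_zero h1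
    rw [card_U barK hbK hneK V hV, hqn]
  have hker' : ∀ a, π a = 0 ↔ a * s1 = 0 := fun a => (hker a).trans (mem_ann _ _)
  -- the ideal generated by `s1` is stable
  have hst : ∃ c, bar s1 = c * s1 := by
    have := hid (Ideal.span {s1}) s1 (Ideal.mem_span_singleton_self s1)
    rw [Ideal.mem_span_singleton'] at this
    obtain ⟨c, hc⟩ := this
    exact ⟨c, hc.symm⟩
  obtain ⟨c0, hc0⟩ := hst
  -- the square of the minimal ideal vanishes
  have hsq : s1 * s1 = 0 := by
    rw [← mem_ann, haM]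
    by_contra hs1
    obtain ⟨x, hxM, hx0⟩ := hx
    have hunit : IsUnit s1 := by
      by_contra hnu
      obtain ⟨M', hM', hsM'⟩ := exists_max_ideal_of_mem_nonunits (a := s1) hnu
      rw [hloc M' hM'] at hsM'
      exact hs1 hsM'
    have hxs : x * s1 ≠ 0 := by
      intro h
      rw [mul_comm] at h
      exact hx0 ((hunit.mul_right_eq_zero).1 h)
    obtain ⟨c, hc⟩ := hs x hxs
    apply hs1
    rw [hc]
    exact M.mul_mem_left _ (M.mul_mem_right _ hxM)
  let T : Finset A := Finset.univ.filter fun t => (∃ c, t = c * s1) ∧ t + bar t = 0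
  have hT : ∀ t, t ∈ T ↔ (∃ c, t = c * s1) ∧ t + bar t = 0 := fun t => by simp [T]
  have hTT : ∀ t ∈ T, ∀ t' ∈ T, t * t' = 0 := by
    intro t ht t' ht'
    obtain ⟨⟨c, rfl⟩, -⟩ := (hT t).1 ht
    obtain ⟨⟨c', rfl⟩, -⟩ := (hT t').1 ht'
    linear_combination (c * c') * hsq
  have hex : ∃ s0 ∈ T, s0 ≠ 0 := by
    by_contra hno
    push Not at hno
    obtain ⟨a, ha⟩ := hne'
    have hmem : ∀ x : A, x * s1 - bar (x * s1) = 0 := by
      intro x
      apply hno
      rw [hT]
      refine ⟨⟨x - bar x * c0, ?_⟩, ?_⟩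
      · rw [map_mul, hc0]; ring
      · rw [map_sub, hbar]; ring
    have h1 := hmem 1
    have h3 := hmem a
    rw [one_mul] at h1
    rw [map_mul] at h3
    apply ha
    rw [mem_ann]
    linear_combination (-1 : A) * h3 + bar a * h1
  obtain ⟨s0, hs0T, hs00⟩ := hex
  obtain ⟨⟨c1, hc1⟩, hs0b⟩ := (hT s0).1 hs0T
  have hann : ∀ a, a * s1 = 0 ↔ a * s0 = 0 := by
    intro a
    constructor
    · intro h
      rw [hc1]
      linear_combination c1 * h
    · intro h
      rw [hc1] at hs00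
      obtain ⟨c, hc⟩ := hs c1 hs00
      rw [← hc1] at hc
      rw [hc]
      linear_combination c * h
  have hle := norm_sum_le_of_translate U T ?_ ?_ ?_ ?_ hTT χ
  · obtain ⟨κ, hκ1, -, hκ3⟩ := fib_sum bar hbar hid (fun M hM => (hmax M hM).1) barK π hπ hc U hU
      V hV
    have hd : ∀ a, π a = 0 → mulChar χ s0 a = 1 := by
      intro a ha
      rw [hker', hann] at ha
      rw [mulChar_apply, mul_comm, ha, AddChar.map_zero_eq_one]
    have hd1 : desc π hπ (mulChar χ s0) hd ≠ 1 := by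
      intro h
      obtain ⟨x, hx⟩ := hf s0 hs00
      apply hx
      have := desc_apply π hπ (mulChar χ s0) hd x
      rw [h, AddChar.one_apply, mulChar_apply] at this
      exact this.symm
    have hfew := few_units barK hbK hneK V hV 1 one_ne_zero _ hd1
    have hsub : (U.filter fun u => ∀ t ∈ T, χ (u * t) = 1) ⊆
        U.filter fun u => π u ∈ (V.filter fun v => ∀ a : K, barK a = a →
          desc π hπ (mulChar χ s0) hd (v * (a * 1)) = 1) := by
      intro u hu
      rw [Finset.mem_filter] at hu ⊢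
      refine ⟨hu.1, Finset.mem_filter.2 ⟨map_mem bar barK π hc U hU V hV hu.1, ?_⟩⟩
      intro a ha
      obtain ⟨b, rfl⟩ := hπ a
      rw [mul_one, ← map_mul, desc_apply, mulChar_apply]
      rw [hc] at ha
      have hb : (bar b - b) * s0 = 0 := by
        rw [← hann, ← hker', map_sub, ha, sub_self]
      have hbT : b * s0 ∈ T := by
        rw [hT]
        refine ⟨⟨b * c1, by rw [hc1]; ring⟩, ?_⟩
        rw [map_mul]
        linear_combination bar b * hs0b - hb
      have := hu.2 _ hbT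
      rwa [show s0 * (u * b) = u * (b * s0) by ring]
    have hcard2 := Finset.card_le_card hsub
    have h6 : (U.filter fun u => ∀ t ∈ T, χ (u * t) = 1).card ≤ κ * 2 :=
      hcard2.trans ((hκ3 _).trans (Nat.mul_le_mul_left _ hfew))
    have h7 : ‖∑ u ∈ U, χ u‖ ≤ κ * 2 := by
      refine hle.trans ?_
      exact_mod_cast h6
    have hq0 : (0 : ℝ) ≤ (q' : ℝ) + 1 := by positivity
    calc ((q' : ℝ) + 1) * ‖∑ u ∈ U, χ u‖ ≤ ((q' : ℝ) + 1) * (κ * 2) :=
          mul_le_mul_of_nonneg_left h7 hq0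
      _ = 2 * U.card := by rw [hκ1, hVc]; push_cast; ring
  · rw [hT]; exact ⟨⟨0, by ring⟩, by rw [map_zero, add_zero]⟩
  · intro a ha b hb
    rw [hT] at ha hb ⊢
    obtain ⟨⟨c, hc⟩, ha2⟩ := ha
    obtain ⟨⟨c', hc'⟩, hb2⟩ := hb
    refine ⟨⟨c + c', by rw [hc, hc']; ring⟩, ?_⟩
    rw [map_add]
    linear_combination ha2 + hb2
  · intro a ha
    rw [hT] at ha ⊢
    obtain ⟨⟨c, hc⟩, ha2⟩ := ha
    refine ⟨⟨-c, by rw [hc]; ring⟩, ?_⟩
    rw [map_neg]
    linear_combination -ha2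
  · intro t ht u hu
    rw [hU] at hu ⊢
    have h1 := hTT t ht t ht
    have h3 := ((hT t).1 ht).2
    rw [map_mul, map_add, map_one]
    have h4 : bar t = -t := by linear_combination h3
    rw [h4]
    linear_combination (1 - t * t) * hu - h1

end RA

open RA in
open Pool.Agent.MP_8b8716_co_QG.GRing in
theorem gap_local {q : ℕ} {C : Type} [CommRing C] [Fintype C] [DecidableEq C] (bar : C →+* C)
    (hbar : ∀ a, bar (bar a) = a) (hid : ∀ I : Ideal C, ∀ a ∈ I, bar a ∈ I) (M : Ideal C)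
    (hM : M.IsMaximal) (hloc : ∀ M' : Ideal C, M'.IsMaximal → M' = M) (hne : ∃ a, bar a - a ∉ M)
    (hcard : Nat.card (C ⧸ M) = q ^ 2) (U : Finset C) (hU : ∀ u, u ∈ U ↔ u * bar u = 1)
    (χ : AddChar C ℂ) (hχ : ∃ x ∈ M, χ x ≠ 1) :
    ((q : ℝ) + 1) * ‖∑ u ∈ U, χ u‖ ≤ 2 * U.card := by
  classical
  obtain ⟨x0, hx0M, hx01⟩ := hχ
  set I := triv χ with hIdef
  have : Finite (C ⧸ I) := inferInstance
  let _ : Fintype (C ⧸ I) := Fintype.ofFinite _
  let π : C →+* C ⧸ I := Ideal.Quotient.mk I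
  have hπ : Function.Surjective π := Ideal.Quotient.mk_surjective
  have hker : ∀ a, π a = 0 ↔ a ∈ I := fun a => Ideal.Quotient.eq_zero_iff_mem
  let barB : C ⧸ I →+* C ⧸ I := Ideal.quotientMap I bar (fun a ha => hid I a ha)
  have hc : ∀ a, barB (π a) = π (bar a) := fun a => rfl
  have hd : ∀ a, π a = 0 → χ a = 1 := by
    intro a ha
    have := (hker a).1 ha 1
    rwa [mul_one] at this
  let V : Finset (C ⧸ I) := Finset.univ.filter fun v => v * barB v = 1
  have hV : ∀ v, v ∈ V ↔ v * barB v = 1 := fun v => by simp [V]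
  have hItop : I ≠ ⊤ := by
    intro h
    have h1 : (1 : C) ∈ I := by rw [h]; trivial
    have := h1 x0
    rw [one_mul] at this
    exact hx01 this
  have hntB : Nontrivial (C ⧸ I) := Ideal.Quotient.nontrivial_iff.2 hItop
  have hB1 : ∀ x, barB (barB x) = x := by
    intro x
    obtain ⟨x, rfl⟩ := hπ x
    rw [hc, hc, hbar]
  have hB2 : ∀ J : Ideal (C ⧸ I), ∀ a ∈ J, barB a ∈ J := by
    intro J a ha
    obtain ⟨a, rfl⟩ := hπ a
    rw [hc]
    exact hid (J.comap π) a ha
  obtain ⟨N, hN⟩ := Ideal.exists_maximal (C ⧸ I)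
  have hNM : N.comap π = M := by
    have : (N.comap π).IsMaximal := Ideal.comap_isMaximal_of_surjective π hπ
    exact hloc _ this
  have hNloc : ∀ M' : Ideal (C ⧸ I), M'.IsMaximal → M' = N := by
    intro M' hM'
    have h1 : (M'.comap π).IsMaximal := Ideal.comap_isMaximal_of_surjective π hπ
    have h2 : M'.comap π = N.comap π := by rw [hNM]; exact hloc _ h1
    exact Ideal.comap_injective_of_surjective π hπ h2
  have hNne : ∃ a, barB a - a ∉ N := by
    obtain ⟨a, ha⟩ := hne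
    refine ⟨π a, ?_⟩
    rw [hc, ← map_sub]
    intro h
    apply ha
    rw [← hNM]
    exact h
  have hNcard : Nat.card ((C ⧸ I) ⧸ N) = q ^ 2 := by
    rw [← hcard]
    have hs : Function.Surjective ((Ideal.Quotient.mk N).comp π) :=
      Ideal.Quotient.mk_surjective.comp hπ
    have hk : RingHom.ker ((Ideal.Quotient.mk N).comp π) = M := by
      rw [← hNM]
      ext x
      rw [RingHom.mem_ker, RingHom.comp_apply, Ideal.Quotient.eq_zero_iff_mem,
        Ideal.mem_comap]
    rw [← hk]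
    exact (Nat.card_congr (RingHom.quotientKerEquivOfSurjective hs).toEquiv).symm
  have hx : ∃ x ∈ N, x ≠ 0 := by
    refine ⟨π x0, ?_, fun h => hx01 (hd x0 h)⟩
    have : x0 ∈ N.comap π := by rw [hNM]; exact hx0M
    exact this
  have hf : ∀ a : C ⧸ I, a ≠ 0 → ∃ x, desc π hπ χ hd (a * x) ≠ 1 := by
    intro a ha
    obtain ⟨a, rfl⟩ := hπ a
    have haI : a ∉ I := fun h => ha ((hker a).2 h)
    rw [hIdef, mem_triv] at haI
    push Not at haI
    obtain ⟨x, hx⟩ := haI
    refine ⟨π x, ?_⟩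
    rw [← map_mul, desc_apply]
    exact hx
  have hrec := RA.faithful barB hB1 hB2 N hN hNloc hNne hNcard V hV (desc π hπ χ hd) hx hf
  have hneAll : ∀ M' : Ideal C, M'.IsMaximal → ∃ a, bar a - a ∉ M' := by
    intro M' hM'
    rw [hloc M' hM']
    exact hne
  obtain ⟨κ, hκ1, hκ2, -⟩ := fib_sum bar hbar hid hneAll barB π hπ hc U hU V hV
  have h1 : ∑ u ∈ U, χ u = κ * ∑ v ∈ V, desc π hπ χ hd v := by
    rw [← hκ2 (fun v => desc π hπ χ hd v)]
    exact Finset.sum_congr rfl fun u _ => (desc_apply π hπ χ hd u).symm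
  rw [h1, norm_mul, Complex.norm_natCast, hκ1]
  push_cast
  have hκ0 : (0 : ℝ) ≤ κ := Nat.cast_nonneg κ
  calc ((q : ℝ) + 1) * ((κ : ℝ) * ‖∑ v ∈ V, desc π hπ χ hd v‖)
      = κ * (((q : ℝ) + 1) * ‖∑ v ∈ V, desc π hπ χ hd v‖) := by ring
    _ ≤ κ * (2 * V.card) := mul_le_mul_of_nonneg_left hrec hκ0
    _ = 2 * (κ * V.card) := by ring

end Pool.Agent.MP_8b8716_co_QR
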