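import Mathlib
import Pool.Agent.Lib.MP_8b8716_co_QF.GapA
import Pool.Agent.Lib.MP_8b8716_co_QG.GRing
import Pool.Agent.Lib.MP_8b8716_co_QR.Defs
import Pool.Agent.Lib.MP_8b8716_co_QR.RA

set_option autoImplicit false

/-!
# MP_8b8716_co, project QR, module RB: from the residue field to a local ring
-/

noncomputable section

namespace Pool.Agent.MP_8b8716_co_QR

open NumberField
open Pool.Agent.MP_8b8716_co_HN
open Pool.Agent.MP_8b8716_co_QG


namespace RB

open Finset
open Pool.Agent.MP_8b8716_co_QF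

section fibres

variable {C K : Type} [CommRing C] [Fintype C] [CommRing K] [Fintype K] [DecidableEq K]
  (π : C →+* K) (hπ : Function.Surjective π)

include hπ in
theorem fibre : ∃ m : ℕ, Fintype.card C = m * Fintype.card K ∧
    ∀ x, (univ.filter fun h : C => π h = x).card = m := by
  classical
  have h1 : ∀ x, (univ.filter fun h : C => π h = x).card =
      (univ.filter fun h : C => π h = 0).card := by
    intro x
    obtain ⟨b, rfl⟩ := hπ x
    refine Finset.card_bij' (fun h _ => h - b) (fun h _ => h + b) ?_ ?_ ?_ ?_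
    · intro h hh
      simp only [mem_filter, mem_univ, true_and] at hh ⊢
      rw [map_sub, hh, sub_self]
    · intro h hh
      simp only [mem_filter, mem_univ, true_and] at hh ⊢
      rw [map_add, hh, zero_add]
    · intro h _; exact sub_add_cancel h b
    · intro h _; exact add_sub_cancel_right h b
  refine ⟨_, ?_, h1⟩
  have h2 := Finset.card_eq_sum_card_fiberwise (f := π) (s := (univ : Finset C))
    (t := (univ : Finset K)) (fun _ _ => mem_univ _)
  rw [Finset.card_univ] at h2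
  rw [h2, Finset.sum_congr rfl (fun x _ => h1 x), Finset.sum_const, Finset.card_univ, smul_eq_mul,
    mul_comm]

theorem sum_mul_fib {R : Type} [CommRing R] (f : C → R) (H : K → R) :
    ∑ h, f h * H (π h) = ∑ x, (∑ h ∈ univ.filter (fun h : C => π h = x), f h) * H x := by
  rw [← Finset.sum_fiberwise_of_maps_to (g := π) (t := (univ : Finset K)) (fun _ _ => mem_univ _)]
  refine Finset.sum_congr rfl fun x _ => ?_
  rw [Finset.sum_mul]
  refine Finset.sum_congr rfl fun h hh => ?_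
  rw [(mem_filter.1 hh).2]

theorem sum_fib {R : Type} [CommRing R] {m : ℕ}
    (hm : ∀ x, (univ.filter fun h : C => π h = x).card = m) (H : K → R) :
    ∑ h, H (π h) = (m : R) * ∑ x, H x := by
  have h1 := sum_mul_fib π (fun _ => (1 : R)) H
  simp only [one_mul, Finset.sum_const, nsmul_eq_mul, mul_one] at h1
  rw [h1, Finset.mul_sum]
  refine Finset.sum_congr rfl fun x _ => ?_
  rw [hm x]

/-- the averages over the fibres -/
def avf (f : C → ℝ) (x : K) : ℝ :=
  (∑ h ∈ univ.filter (fun h : C => π h = x), f h) * Fintype.card K / Fintype.card C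

/-- the function which is constant on the fibres -/
def P (f : C → ℝ) (h : C) : ℝ := avf π f (π h)

variable {m : ℕ} (hN : Fintype.card C = m * Fintype.card K)
  (hm : ∀ x, (univ.filter fun h : C => π h = x).card = m)

include hN in
theorem m_avf (f : C → ℝ) (x : K) :
    (m : ℝ) * avf π f x = ∑ h ∈ univ.filter (fun h : C => π h = x), f h := by
  have hC : (Fintype.card C : ℝ) ≠ 0 := by
    have : Nonempty C := ⟨0⟩
    exact_mod_cast Fintype.card_pos.ne'
  have h1 : (Fintype.card C : ℝ) = m * Fintype.card K := by exact_mod_cast hN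
  unfold avf
  rw [mul_div_assoc', div_eq_iff hC, h1]
  ring

theorem fc_triv (hN : Fintype.card C = m * Fintype.card K)
    (hm : ∀ x, (univ.filter fun h : C => π h = x).card = m)
    (hπ : Function.Surjective π) (f : C → ℝ) (ψ : AddChar C ℂ)
    (hψ : ∀ a, π a = 0 → ψ a = 1) : fc (P π f) ψ = fc f ψ := by
  have h0 : ∀ h, ψ (-h) = GRing.desc π hπ ψ hψ (-(π h)) := by
    intro h
    rw [← map_neg, GRing.desc_apply]
  unfold fc
  simp only [h0]
  rw [sum_mul_fib π (fun h => ((f h : ℝ) : ℂ)) (fun x => GRing.desc π hπ ψ hψ (-x))]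
  have h1 : ∀ h, ((P π f h : ℝ) : ℂ) * GRing.desc π hπ ψ hψ (-(π h)) =
      (fun x => ((avf π f x : ℝ) : ℂ) * GRing.desc π hπ ψ hψ (-x)) (π h) := fun h => rfl
  rw [Finset.sum_congr rfl (fun h _ => h1 h),
    sum_fib π hm (fun x => ((avf π f x : ℝ) : ℂ) * GRing.desc π hπ ψ hψ (-x)), Finset.mul_sum]
  refine Finset.sum_congr rfl fun x _ => ?_
  rw [← mul_assoc]
  congr 1
  rw [← Complex.ofReal_sum, ← m_avf π hN f x]
  push_cast
  ring

theorem fc_nontriv (f : C → ℝ) (ψ : AddChar C ℂ) {t : C} (ht : π t = 0) (hψ : ψ t ≠ 1) :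
    fc (P π f) ψ = 0 := by
  have h1 : fc (P π f) ψ = ψ (-t) * fc (P π f) ψ := by
    unfold fc
    rw [Finset.mul_sum]
    refine Finset.sum_bij' (fun h _ => h - t) (fun h _ => h + t) (fun _ _ => mem_univ _)
      (fun _ _ => mem_univ _) (fun h _ => sub_add_cancel h t) (fun h _ => add_sub_cancel_right h t) ?_
    intro h _
    have h2 : P π f (h - t) = P π f h := by
      unfold P
      rw [map_sub, ht, sub_zero]
    rw [h2]
    have h3 : ψ (-h) = ψ (-t) * ψ (-(h - t)) := by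
      rw [← AddChar.map_add_eq_mul]
      congr 1
      ring
    rw [h3]
    ring
  have h2 : ψ (-t) ≠ 1 := by
    intro h
    apply hψ
    have h3 : ψ t * ψ (-t) = 1 := by
      rw [← AddChar.map_add_eq_mul, add_neg_cancel, AddChar.map_zero_eq_one]
    rwa [h, mul_one] at h3
  have h3 : (1 - ψ (-t)) * fc (P π f) ψ = 0 := by
    rw [sub_mul, one_mul, ← h1, sub_self]
  rcases mul_eq_zero.1 h3 with h | h
  · exact absurd (sub_eq_zero.1 h).symm h2
  · exact h

end fibres

/-- the main identity -/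
theorem fourier {C : Type} [CommRing C] [Fintype C] (U : Finset C) (f g : C → ℝ) :
    ∑ ψ : AddChar C ℂ, fc f ψ * (starRingEnd ℂ) (fc g ψ) * ∑ u ∈ U, ψ u =
      ((Fintype.card C * ∑ h, ∑ u ∈ U, f (h + u) * g h : ℝ) : ℂ) := by
  simp only [Finset.mul_sum]
  rw [Finset.sum_comm]
  simp only [fc_shift]
  rw [← Finset.mul_sum]
  push_cast
  rw [Finset.sum_comm]
  simp only [Finset.mul_sum]

theorem compare {C K : Type} [CommRing C] [Fintype C] [CommRing K] [Fintype K] [DecidableEq K]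
    (π : C →+* K) (hπ : Function.Surjective π) {m : ℕ}
    (hN : Fintype.card C = m * Fintype.card K)
    (hm : ∀ x, (univ.filter fun h : C => π h = x).card = m) (U : Finset C) (c : ℝ)
    (hgap : ∀ ψ : AddChar C ℂ, (∃ x, π x = 0 ∧ ψ x ≠ 1) → ‖∑ u ∈ U, ψ u‖ ≤ 2 * c)
    (f g : C → ℝ) :
    (∑ h, ∑ u ∈ U, P π f (h + u) * P π g h) -
      c * ((∑ h, f h ^ 2 - ∑ h, P π f h ^ 2) + (∑ h, g h ^ 2 - ∑ h, P π g h ^ 2)) ≤
      ∑ h, ∑ u ∈ U, f (h + u) * g h := by
  classical
  have hNpos : (0 : ℝ) < Fintype.card C := by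
    have : Nonempty C := ⟨0⟩
    exact_mod_cast Fintype.card_pos
  have h1 : ∀ ψ : AddChar C ℂ,
      ‖fc f ψ * (starRingEnd ℂ) (fc g ψ) * ∑ u ∈ U, ψ u -
        fc (P π f) ψ * (starRingEnd ℂ) (fc (P π g) ψ) * ∑ u ∈ U, ψ u‖ ≤
      c * ((‖fc f ψ‖ ^ 2 - ‖fc (P π f) ψ‖ ^ 2) + (‖fc g ψ‖ ^ 2 - ‖fc (P π g) ψ‖ ^ 2)) := by
    intro ψ
    by_cases hψ : ∀ a, π a = 0 → ψ a = 1
    · rw [fc_triv π hN hm hπ f ψ hψ, fc_triv π hN hm hπ g ψ hψ]
      simp
    · push Not at hψ
      obtain ⟨t, ht, hψt⟩ := hψ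
      rw [fc_nontriv π f ψ ht hψt, fc_nontriv π g ψ ht hψt]
      rw [zero_mul, zero_mul, sub_zero, norm_zero, norm_mul, norm_mul, RCLike.norm_conj]
      have h7 := hgap ψ ⟨t, ht, hψt⟩
      have h8 : ‖fc f ψ‖ * ‖fc g ψ‖ ≤ (‖fc f ψ‖ ^ 2 + ‖fc g ψ‖ ^ 2) / 2 := by
        nlinarith [sq_nonneg (‖fc f ψ‖ - ‖fc g ψ‖)]
      calc ‖fc f ψ‖ * ‖fc g ψ‖ * ‖∑ u ∈ U, ψ u‖
          ≤ ((‖fc f ψ‖ ^ 2 + ‖fc g ψ‖ ^ 2) / 2) * (2 * c) := by gcongr
        _ = _ := by ring
  have h2 : ‖∑ ψ : AddChar C ℂ, (fc f ψ * (starRingEnd ℂ) (fc g ψ) * ∑ u ∈ U, ψ u -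
        fc (P π f) ψ * (starRingEnd ℂ) (fc (P π g) ψ) * ∑ u ∈ U, ψ u)‖ ≤
      c * (Fintype.card C * ((∑ h, f h ^ 2 - ∑ h, P π f h ^ 2) +
        (∑ h, g h ^ 2 - ∑ h, P π g h ^ 2))) := by
    refine (norm_sum_le _ _).trans ((Finset.sum_le_sum fun ψ _ => h1 ψ).trans (le_of_eq ?_))
    rw [← Finset.mul_sum, Finset.sum_add_distrib, Finset.sum_sub_distrib, Finset.sum_sub_distrib,
      sum_norm_fc, sum_norm_fc, sum_norm_fc, sum_norm_fc]
    ring
  rw [Finset.sum_sub_distrib, fourier, fourier, ← Complex.ofReal_sub, Complex.norm_real,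
    Real.norm_eq_abs, abs_le] at h2
  have h3 := h2.1
  have h4 : (Fintype.card C : ℝ) * ((∑ h, ∑ u ∈ U, P π f (h + u) * P π g h) -
      c * ((∑ h, f h ^ 2 - ∑ h, P π f h ^ 2) + (∑ h, g h ^ 2 - ∑ h, P π g h ^ 2))) ≤
      Fintype.card C * ∑ h, ∑ u ∈ U, f (h + u) * g h := by
    linarith
  exact le_of_mul_le_mul_left h4 hNpos

end RB

open RB Finset in
theorem cross_local {q : ℕ} {C : Type} [CommRing C] [Fintype C] (bar : C →+* C)
    (hbar : ∀ a, bar (bar a) = a) (hid : ∀ I : Ideal C, ∀ a ∈ I, bar a ∈ I) (M : Ideal C)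
    (hM : M.IsMaximal) (hloc : ∀ M' : Ideal C, M'.IsMaximal → M' = M) (hne : ∃ a, bar a - a ∉ M)
    (hcard : Nat.card (C ⧸ M) = q ^ 2) :
    ∃ (K : Type) (_ : Field K) (_ : Fintype K) (barK : K →+* K) (av : (C → ℝ) → K → ℝ),
      (∀ a, barK (barK a) = a) ∧ (∃ a, barK a ≠ a) ∧ Fintype.card K = q ^ 2 ∧
      (∀ f, Unit01 f → Unit01 (av f)) ∧ (∀ f, mean (av f) = mean f) ∧
      ∀ f g, Unit01 f → Unit01 g → cross (UU barK) (av f) (av g) -
        1 / ((q : ℝ) + 1) * (VV (av f) + VV (av g)) ≤ cross (UU bar) f g := by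
  classical
  have hmax : ∀ M' : Ideal C, M'.IsMaximal →
      (∃ a, bar a - a ∉ M') ∧ ∃ q' ∈ ({q} : Set ℕ), Nat.card (C ⧸ M') = q' ^ 2 := by
    intro M' hM'
    obtain rfl := hloc M' hM'
    exact ⟨hne, q, rfl, hcard⟩
  obtain ⟨K, fK, ftK, dK, barK, π, hπ, hker, hc, hbK, hneK, q', hq', hcK⟩ :=
    GRing.exists_field (Q := {q}) bar hbar hid hmax M hM
  obtain rfl : q' = q := hq'
  obtain ⟨m, hN, hm⟩ := fibre π hπ
  have hNpos : (0 : ℝ) < Fintype.card C := by
    have : Nonempty C := ⟨0⟩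
    exact_mod_cast Fintype.card_pos
  have hKpos : (0 : ℝ) < Fintype.card K := by
    have : Nonempty K := ⟨0⟩
    exact_mod_cast Fintype.card_pos
  have hNr : (Fintype.card C : ℝ) = m * Fintype.card K := by exact_mod_cast hN
  have hmpos : (0 : ℝ) < m := by
    rcases Nat.eq_zero_or_pos m with h | h
    · rw [h] at hNr
      simp only [Nat.cast_zero, zero_mul] at hNr
      linarith
    · exact_mod_cast h
  have hUm : ∀ u, u ∈ UU bar ↔ u * bar u = 1 := fun u => by simp [UU]
  have hVm : ∀ v, v ∈ UU barK ↔ v * barK v = 1 := fun v => by simp [UU]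
  have hUpos : (0 : ℝ) < (UU bar).card := by
    have : (1 : C) ∈ UU bar := by rw [hUm, map_one, one_mul]
    exact_mod_cast Finset.card_pos.2 ⟨1, this⟩
  obtain ⟨κ, hκ1, hκ2, -⟩ := GRing.fib_sum bar hbar hid (fun M' hM' => (hmax M' hM').1) barK π hπ
    hc (UU bar) hUm (UU barK) hVm
  have hκr : ((UU bar).card : ℝ) = κ * (UU barK).card := by exact_mod_cast hκ1
  have hκ3 : ∀ F : K → ℝ, ∑ u ∈ UU bar, F (π u) = κ * ∑ v ∈ UU barK, F v := by
    intro F
    have := hκ2 (fun x => ((F x : ℝ) : ℂ))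
    exact_mod_cast this
  have hmean : ∀ f : C → ℝ, mean (avf π f) = mean f := by
    intro f
    unfold mean
    rw [div_eq_div_iff hKpos.ne' hNpos.ne']
    have h1 : (m : ℝ) * ∑ x, avf π f x = ∑ h, f h := by
      rw [Finset.mul_sum]
      have := sum_mul_fib π f (fun _ => (1 : ℝ))
      simp only [mul_one] at this
      rw [this]
      exact Finset.sum_congr rfl fun x _ => m_avf π hN f x
    rw [hNr, ← h1]
    ring
  have hsq : ∀ f : C → ℝ, ∑ h, P π f h ^ 2 = m * ∑ x, avf π f x ^ 2 := by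
    intro f
    exact sum_fib π hm (fun x => avf π f x ^ 2)
  have hVV : ∀ f : C → ℝ, Unit01 f →
      ∑ h, f h ^ 2 - ∑ h, P π f h ^ 2 ≤ Fintype.card C * VV (avf π f) := by
    intro f hf
    have h1 : ∑ h, f h ^ 2 ≤ ∑ h, f h :=
      Finset.sum_le_sum fun h _ => by nlinarith [hf h]
    have h2 : Fintype.card C * VV (avf π f) = ∑ h, f h - m * ∑ x, avf π f x ^ 2 := by
      unfold VV
      rw [hmean f]
      unfold mean
      rw [mul_sub, mul_div_cancel₀ _ hNpos.ne', hNr]
      field_simp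
    rw [h2, hsq f]
    linarith
  refine ⟨K, fK, ftK, barK, avf π, hbK, hneK, hcK, ?_, hmean, ?_⟩
  · intro f hf x
    have h1 := m_avf π hN f x
    constructor
    · have h2 : (0 : ℝ) ≤ m * avf π f x := by
        rw [h1]
        exact Finset.sum_nonneg fun h _ => (hf h).1
      exact nonneg_of_mul_nonneg_right h2 hmpos
    · have h2 : (m : ℝ) * avf π f x ≤ m * 1 := by
        rw [h1, mul_one, ← hm x]
        calc ∑ h ∈ univ.filter (fun h : C => π h = x), f h
            ≤ ∑ h ∈ univ.filter (fun h : C => π h = x), (1 : ℝ) :=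
              Finset.sum_le_sum fun h _ => (hf h).2
          _ = _ := by simp
      exact le_of_mul_le_mul_left h2 hmpos
  · intro f g hf hg
    have hgap : ∀ ψ : AddChar C ℂ, (∃ x, π x = 0 ∧ ψ x ≠ 1) →
        ‖∑ u ∈ UU bar, ψ u‖ ≤ 2 * ((UU bar).card / ((q' : ℝ) + 1)) := by
      rintro ψ ⟨x, hx, hψx⟩
      have h1 := gap_local bar hbar hid M hM hloc hne hcard (UU bar) hUm ψ
        ⟨x, (hker x).1 hx, hψx⟩
      rw [mul_div_assoc', le_div_iff₀ (by positivity)]
      linarith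
    have h1 := compare π hπ hN hm (UU bar) _ hgap f g
    have h2 : cross (UU barK) (avf π f) (avf π g) * (Fintype.card C * (UU bar).card) =
        ∑ h, ∑ u ∈ UU bar, P π f (h + u) * P π g h := by
      have h3 : ∀ h, ∑ u ∈ UU bar, P π f (h + u) * P π g h =
          (fun x => (κ * ∑ v ∈ UU barK, avf π f (x + v)) * avf π g x) (π h) := by
        intro h
        simp only [P, map_add]
        rw [← Finset.sum_mul]
        congr 1
        exact hκ3 (fun v => avf π f (π h + v))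
      rw [Finset.sum_congr rfl (fun h _ => h3 h),
        sum_fib π hm (fun x => (κ * ∑ v ∈ UU barK, avf π f (x + v)) * avf π g x)]
      unfold cross
      rw [hNr, hκr]
      have hV : ((UU barK).card : ℝ) ≠ 0 := by
        intro h
        rw [hκr, h, mul_zero] at hUpos
        exact lt_irrefl _ hUpos
      rw [div_mul_eq_mul_div, div_eq_iff (mul_ne_zero hKpos.ne' hV)]
      have h5 : ∑ h, ∑ u ∈ UU barK, avf π f (h + u) * avf π g h =
          ∑ x, (∑ v ∈ UU barK, avf π f (x + v)) * avf π g x :=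
        Finset.sum_congr rfl fun x _ => by rw [Finset.sum_mul]
      have h6 : ∑ x, (κ * ∑ v ∈ UU barK, avf π f (x + v)) * avf π g x =
          κ * ∑ x, (∑ v ∈ UU barK, avf π f (x + v)) * avf π g x := by
        rw [Finset.mul_sum]
        exact Finset.sum_congr rfl fun x _ => by ring
      rw [h5, h6]
      ring
    have h3 := hVV f hf
    have h4 := hVV g hg
    have h5 : cross (UU bar) f g * (Fintype.card C * (UU bar).card) =
        ∑ h, ∑ u ∈ UU bar, f (h + u) * g h := by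
      unfold cross
      rw [div_mul_cancel₀ _ (mul_ne_zero hNpos.ne' hUpos.ne')]
    have h6 : (cross (UU barK) (avf π f) (avf π g) -
        1 / ((q' : ℝ) + 1) * (VV (avf π f) + VV (avf π g))) * (Fintype.card C * (UU bar).card) ≤
        cross (UU bar) f g * (Fintype.card C * (UU bar).card) := by
      rw [h5, sub_mul, h2]
      refine le_trans ?_ h1
      have hq0 : (0 : ℝ) < (q' : ℝ) + 1 := by positivity
      have h7 : (UU bar).card / ((q' : ℝ) + 1) * ((∑ h, f h ^ 2 - ∑ h, P π f h ^ 2) +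
          (∑ h, g h ^ 2 - ∑ h, P π g h ^ 2)) ≤ (UU bar).card / ((q' : ℝ) + 1) *
          (Fintype.card C * VV (avf π f) + Fintype.card C * VV (avf π g)) := by
        gcongr
      have h8 : (UU bar).card / ((q' : ℝ) + 1) *
          (Fintype.card C * VV (avf π f) + Fintype.card C * VV (avf π g)) =
          1 / ((q' : ℝ) + 1) * (VV (avf π f) + VV (avf π g)) *
            (Fintype.card C * (UU bar).card) := by ring
      linarith
    exact le_of_mul_le_mul_right h6 (mul_pos hNpos hUpos)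

end Pool.Agent.MP_8b8716_co_QR
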