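import Mathlib
import Pool.Agent.Lib.MP_8b8716_co_QR.Defs
import Pool.Agent.Lib.MP_8b8716_co_QR.RB

set_option autoImplicit false

/-! # MP_8b8716_co, project QR, module RB2: the soft inequalities for a local ring -/

noncomputable section

namespace Pool.Agent.MP_8b8716_co_QR

open NumberField
open Pool.Agent.MP_8b8716_co_HN
open Pool.Agent.MP_8b8716_co_QG

namespace RB2

theorem mean_smul {A : Type} [Fintype A] (t : ℝ) (f : A → ℝ) :
    mean (fun h => t * f h) = t * mean f := by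
  unfold mean
  rw [← Finset.mul_sum]
  ring

theorem cross_smul {A : Type} [Fintype A] [Add A] (U : Finset A) (s t : ℝ) (f g : A → ℝ) :
    cross U (fun h => s * f h) (fun h => t * g h) = s * t * cross U f g := by
  unfold cross
  rw [← mul_div_assoc]
  congr 1
  rw [Finset.mul_sum]
  refine Finset.sum_congr rfl fun h _ => ?_
  rw [Finset.mul_sum]
  refine Finset.sum_congr rfl fun u _ => ?_
  ring

theorem cross_nonneg {A : Type} [Fintype A] [Add A] (U : Finset A) (f g : A → ℝ)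
    (hf : Unit01 f) (hg : Unit01 g) : 0 ≤ cross U f g := by
  unfold cross
  apply div_nonneg
  · exact Finset.sum_nonneg fun h _ => Finset.sum_nonneg fun u _ =>
      mul_nonneg (hf _).1 (hg _).1
  · positivity

theorem scale {A : Type} [Fintype A] {θ : ℝ} (hθ : 0 < θ) (f : A → ℝ) (hf : Unit01 f)
    (hm : θ ≤ mean f) : ∃ t : ℝ, 0 ≤ t ∧ t ≤ 1 ∧ Unit01 (fun h => t * f h) ∧
      mean (fun h => t * f h) = θ := by
  have h0 : 0 < mean f := lt_of_lt_of_le hθ hm
  have h1 : 0 ≤ θ / mean f := by positivity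
  have h2 : θ / mean f ≤ 1 := (div_le_one h0).2 hm
  refine ⟨θ / mean f, h1, h2, ?_, ?_⟩
  · intro h
    refine ⟨mul_nonneg h1 (hf h).1, ?_⟩
    calc θ / mean f * f h ≤ 1 * 1 := mul_le_mul h2 (hf h).2 (hf h).1 (by norm_num)
      _ = 1 := one_mul 1
  · rw [mean_smul, div_mul_cancel₀ _ h0.ne']

end RB2

theorem soft_local {k q : ℕ} (hk : 0 < k) {δ : ℝ} (hs : SoftAt k q δ) {C : Type} [CommRing C]
    [Fintype C] (bar : C →+* C) (hbar : ∀ a, bar (bar a) = a)
    (hid : ∀ I : Ideal C, ∀ a ∈ I, bar a ∈ I) (M : Ideal C) (hM : M.IsMaximal)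
    (hloc : ∀ M' : Ideal C, M'.IsMaximal → M' = M) (hne : ∃ a, bar a - a ∉ M)
    (hcard : Nat.card (C ⧸ M) = q ^ 2) : CrossT (1 / k) bar δ := by
  intro f g hf hg hmf hmg
  obtain ⟨K, iF, iT, barK, av, hb1, hb2, hcK, hav1, hav2, hcr⟩ :=
    cross_local bar hbar hid M hM hloc hne hcard
  have hk' : (0 : ℝ) < 1 / (k : ℝ) := by
    have : (0 : ℝ) < k := by exact_mod_cast hk
    positivity
  obtain ⟨s, hs0, hs1, hfs, hms⟩ := RB2.scale hk' f hf hmf
  obtain ⟨t, ht0, ht1, hgt, hmt⟩ := RB2.scale hk' g hg hmg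
  have h1 := hs K barK hb1 hb2 hcK (av fun h => s * f h) (av fun h => t * g h)
    (hav1 _ hfs) (hav1 _ hgt) (by rw [hav2, hms]) (by rw [hav2, hmt])
  have h2 := hcr _ _ hfs hgt
  have h3 := RB2.cross_smul (UU bar) s t f g
  have h4 := RB2.cross_nonneg (UU bar) f g hf hg
  have h5 : s * t * cross (UU bar) f g ≤ cross (UU bar) f g := by
    have : s * t ≤ 1 := by nlinarith
    nlinarith
  linarith

theorem tri_local {q : ℕ} {s0 θ k0 κ Kc : ℝ} (hK : 0 ≤ Kc) (hs : TriAt q s0 θ k0 κ Kc) {C : Type}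
    [CommRing C] [Fintype C] (bar : C →+* C) (hbar : ∀ a, bar (bar a) = a)
    (hid : ∀ I : Ideal C, ∀ a ∈ I, bar a ∈ I) (M : Ideal C) (hM : M.IsMaximal)
    (hloc : ∀ M' : Ideal C, M'.IsMaximal → M' = M) (hne : ∃ a, bar a - a ∉ M)
    (hcard : Nat.card (C ⧸ M) = q ^ 2) : TriC s0 θ k0 κ Kc bar := by
  intro a b c ha hb hc hma hma2
  obtain ⟨K, iF, iT, barK, av, hb1, hb2, hcK, hav1, hav2, hcr⟩ :=
    cross_local bar hbar hid M hM hloc hne hcard
  have h1 := hs K barK hb1 hb2 hcK (av a) (av b) (av c) (hav1 _ ha) (hav1 _ hb) (hav1 _ hc)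
    (by rw [hav2]; exact hma) (by rw [hav2]; exact hma2)
  rw [hav2, hav2, hav2] at h1
  have h2 := hcr a b ha hb
  have h3 := hcr a c ha hc
  have h4 := hcr b c hb hc
  have h5 : cross (UU barK) (av a) (av b) + cross (UU barK) (av a) (av c) +
      cross (UU barK) (av b) (av c) - 2 / ((q : ℝ) + 1) * (VV (av a) + VV (av b) + VV (av c)) ≤
      cross (UU bar) a b + cross (UU bar) a c + cross (UU bar) b c := by
    have h6 : 2 / ((q : ℝ) + 1) * (VV (av a) + VV (av b) + VV (av c)) =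
        1 / ((q : ℝ) + 1) * (VV (av a) + VV (av b)) + 1 / ((q : ℝ) + 1) * (VV (av a) + VV (av c)) +
          1 / ((q : ℝ) + 1) * (VV (av b) + VV (av c)) := by ring
    linarith
  have h7 := mul_le_mul_of_nonneg_left h5 hK
  linarith

end Pool.Agent.MP_8b8716_co_QR
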