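import Mathlib
import Pool.Agent.Lib.MP_8b8716_co_QR.Defs
import Pool.Agent.Lib.MP_8b8716_co_QP.Defs

/-! QR module RBad: finitely many maximal ideals with few residues. -/

set_option autoImplicit false

noncomputable section

namespace Pool.Agent.MP_8b8716_co_QR

open NumberField
open Pool.Agent.MP_8b8716_co_HN
open Pool.Agent.MP_8b8716_co_QG
open Pool.Agent.MP_8b8716_co_QP

theorem finite_card (N : ℕ) {E : Subfield ℂ} [NumberField E] :
    {P : Ideal (𝓞 E) | P.IsMaximal ∧ Nat.card (𝓞 E ⧸ P) ≤ N}.Finite := by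
  refine (Ideal.finite_setOfPred_absNorm_le (S := 𝓞 E) N).subset ?_
  rintro P ⟨_, hP⟩
  exact hP

end Pool.Agent.MP_8b8716_co_QR
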