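import Mathlib
import Pool.Agent.Lib.MP_8b8716_co_QG.GMix
import Pool.Agent.Lib.MP_8b8716_co_QP.Defs
import Pool.Agent.Lib.MP_8b8716_co_QR.Defs

set_option autoImplicit false

/-!
# MP_8b8716_co, project QR, module RC: rounding of pairs
-/

noncomputable section

namespace Pool.Agent.MP_8b8716_co_QR

open NumberField
open Pool.Agent.MP_8b8716_co_HN
open Pool.Agent.MP_8b8716_co_QG
open Pool.Agent.MP_8b8716_co_QP

namespace RC

/-- the lower bound for the quadratic form -/
theorem FF_lower {lam s a b : ℝ} (hl : 0 ≤ lam) (h : lam * (1 - s) < s) (ha : s ≤ a)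
    (hb : s ≤ b) :
    s * (s - lam * (1 - s)) ≤ FF lam a b := by
  have e : FF lam a b = s * (s - lam * (1 - s)) + (a - s) * (b - lam / 2 * (1 - a - s)) +
      (b - s) * (s - lam / 2 * (1 - b - s)) := by
    unfold FF
    ring
  have h1 : 0 ≤ b - lam / 2 * (1 - a - s) := by
    have : lam / 2 * (1 - a - s) ≤ lam * (1 - s) := by nlinarith
    linarith
  have h2 : 0 ≤ s - lam / 2 * (1 - b - s) := by
    have : lam / 2 * (1 - b - s) ≤ lam * (1 - s) := by nlinarith
    linarith
  rw [e]
  nlinarith [mul_nonneg (sub_nonneg.2 ha) h1, mul_nonneg (sub_nonneg.2 hb) h2]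

theorem mem_UU {A : Type} [CommRing A] [Fintype A] (bar : A →+* A) (u : A) :
    u ∈ UU bar ↔ u * bar u = 1 := by
  simp [UU]

theorem one_mem_UU {A : Type} [CommRing A] [Fintype A] (bar : A →+* A) : (1 : A) ∈ UU bar := by
  rw [mem_UU, map_one, one_mul]

theorem UU_nonempty {A : Type} [CommRing A] [Fintype A] (bar : A →+* A) : (UU bar).Nonempty :=
  ⟨1, one_mem_UU bar⟩

theorem UU_card_pos {A : Type} [CommRing A] [Fintype A] (bar : A →+* A) :
    (0 : ℝ) < ((UU bar).card : ℝ) := by
  exact_mod_cast (UU_nonempty bar).card_pos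

theorem card_pos' (A : Type) [CommRing A] [Fintype A] : (0 : ℝ) < (Fintype.card A : ℝ) := by
  have : Nonempty A := ⟨0⟩
  exact_mod_cast Fintype.card_pos

theorem cross_nonneg {A : Type} [CommRing A] [Fintype A] (U : Finset A) {f g : A → ℝ}
    (hf : ∀ h, 0 ≤ f h) (hg : ∀ h, 0 ≤ g h) : 0 ≤ cross U f g := by
  unfold cross
  exact div_nonneg (Finset.sum_nonneg fun h _ => Finset.sum_nonneg fun u _ =>
    mul_nonneg (hf _) (hg _)) (by positivity)

theorem UU_prod {B C : Type} [CommRing B] [Fintype B] [CommRing C] [Fintype C]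
    (barB : B →+* B) (barC : C →+* C) : UU (barB.prodMap barC) = UU barB ×ˢ UU barC := by
  ext ⟨b, c⟩
  rw [Finset.mem_product, mem_UU, mem_UU, mem_UU]
  have h : (b, c) * (barB.prodMap barC) (b, c) = (b * barB b, c * barC c) := rfl
  rw [h]
  exact Prod.mk_eq_one

theorem mean_subsingleton {A : Type} [CommRing A] [Fintype A] [Subsingleton A] (f : A → ℝ) :
    mean f = f 0 := by
  unfold mean
  have h1 : Fintype.card A = 1 :=
    le_antisymm (Fintype.card_le_one_iff_subsingleton.2 inferInstance)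
      (Fintype.card_pos_iff.2 ⟨0⟩)
  rw [Fintype.sum_subsingleton f 0, h1, Nat.cast_one, div_one]

theorem cross_subsingleton {A : Type} [CommRing A] [Fintype A] [Subsingleton A] (bar : A →+* A)
    (f g : A → ℝ) : cross (UU bar) f g = f 0 * g 0 := by
  have h2 : UU bar = {0} := by
    ext u
    rw [mem_UU, Finset.mem_singleton]
    exact ⟨fun _ => Subsingleton.elim _ _, fun _ => Subsingleton.elim _ _⟩
  unfold cross
  have h1 : Fintype.card A = 1 :=
    le_antisymm (Fintype.card_le_one_iff_subsingleton.2 inferInstance)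
      (Fintype.card_pos_iff.2 ⟨0⟩)
  rw [h2, h1, Fintype.sum_subsingleton _ 0, Finset.sum_singleton, Finset.card_singleton,
    Nat.cast_one, mul_one, div_one, add_zero]

/-- one of `k` numbers with sum one is at least `1 / k` -/
theorem exists_large {k : ℕ} (hk : 0 < k) (a : Fin k → ℝ) (h : ∑ i, a i = 1) :
    ∃ i, 1 / (k : ℝ) ≤ a i := by
  by_contra hcon
  push Not at hcon
  have h1 : ∑ i, a i < ∑ _i : Fin k, 1 / (k : ℝ) :=
    Finset.sum_lt_sum_of_nonempty ⟨⟨0, hk⟩, Finset.mem_univ _⟩ fun i _ => hcon i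
  have hkR : (0 : ℝ) < k := by exact_mod_cast hk
  rw [h, Finset.sum_const, Finset.card_univ, Fintype.card_fin, nsmul_eq_mul,
    mul_one_div_cancel hkR.ne'] at h1
  exact lt_irrefl _ h1

theorem mean_sum_one {k : ℕ} {A : Type} [CommRing A] [Fintype A] (G : Fin k → A → ℝ)
    (h : ∀ a, ∑ i, G i a = 1) : ∑ i, mean (G i) = 1 := by
  unfold mean
  rw [← Finset.sum_div, Finset.sum_comm]
  simp only [h]
  rw [Finset.sum_const, Finset.card_univ, nsmul_eq_mul, mul_one]
  exact div_self (card_pos' A).ne'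

theorem Smp_unit {k : ℕ} {A : Type} {G : Fin k → A → ℝ} (hG : Smp k G) (i : Fin k) :
    Unit01 (G i) := by
  intro h
  refine ⟨hG.1 i h, ?_⟩
  rw [← hG.2 h]
  exact Finset.single_le_sum (f := fun i => G i h) (fun i _ => hG.1 i h) (Finset.mem_univ i)

/-- the product with the reduction to the first factor -/
theorem le_cross_prod {B C : Type} [CommRing B] [Fintype B] [CommRing C] [Fintype C]
    (barB : B →+* B) (barC : C →+* C) (f g : B → ℝ) (F G : B × C → ℝ) (δ : ℝ)
    (hFG : cross (UU (barB.prodMap barC)) F G = (∑ b, ∑ u ∈ UU barB, cross (UU barC)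
      (fun c => F (b + u, c)) (fun c => G (b, c))) / (Fintype.card B * (UU barB).card))
    (h : ∀ b, ∀ u ∈ UU barB, δ * (f (b + u) * g b) ≤
      cross (UU barC) (fun c => F (b + u, c)) (fun c => G (b, c))) :
    δ * cross (UU barB) f g ≤ cross (UU (barB.prodMap barC)) F G := by
  rw [hFG]
  unfold cross
  rw [← mul_div_assoc]
  refine div_le_div_of_nonneg_right ?_ (by positivity)
  rw [Finset.mul_sum]
  refine Finset.sum_le_sum fun b _ => ?_
  rw [Finset.mul_sum]
  refine Finset.sum_le_sum fun u hu => ?_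
  exact h b u hu

theorem UU_equiv {A A' : Type} [CommRing A] [Fintype A] [CommRing A'] [Fintype A']
    {bar : A →+* A} {bar' : A' →+* A'} (e : A ≃+* A') (he : ∀ a, e (bar a) = bar' (e a)) :
    UU bar' = (UU bar).map e.toEquiv.toEmbedding := by
  ext u
  rw [mem_UU, Finset.mem_map]
  constructor
  · intro h
    refine ⟨e.symm u, ?_, ?_⟩
    · rw [mem_UU]
      apply e.injective
      rw [map_mul, he, RingEquiv.apply_symm_apply, h, map_one]
    · simp
  · rintro ⟨a, ha, rfl⟩
    rw [mem_UU] at ha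
    have : e a * bar' (e a) = 1 := by
      rw [← he, ← map_mul, ha, map_one]
    simpa using this

theorem cross_equiv {A A' : Type} [CommRing A] [Fintype A] [CommRing A'] [Fintype A']
    {bar : A →+* A} {bar' : A' →+* A'} (e : A ≃+* A') (he : ∀ a, e (bar a) = bar' (e a))
    (f g : A → ℝ) :
    cross (UU bar') (fun a => f (e.symm a)) (fun a => g (e.symm a)) = cross (UU bar) f g := by
  unfold cross
  rw [UU_equiv e he, Finset.card_map, ← Fintype.card_congr e.toEquiv,
    ← Equiv.sum_comp e.toEquiv]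
  congr 1
  refine Finset.sum_congr rfl fun h _ => ?_
  rw [Finset.sum_map]
  refine Finset.sum_congr rfl fun u _ => ?_
  have h1 : e.symm (e.toEquiv h + e.toEquiv.toEmbedding u) = h + u := by
    apply e.injective
    simp
  have h2 : e.symm (e.toEquiv h) = h := by
    apply e.injective
    simp
  change f (e.symm (e.toEquiv h + e.toEquiv.toEmbedding u)) * g (e.symm (e.toEquiv h)) =
    f (h + u) * g h
  rw [h1, h2]

end RC

open RC

theorem crossT_of_gap {k : ℕ} (hk : 0 < k) {A : Type} [CommRing A] [Fintype A] [DecidableEq A]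
    (bar : A →+* A) {lam : ℝ} (h0 : 0 ≤ lam) (hkl : ((k : ℝ) - 1) * lam < 1)
    (hgap : ∀ χ : AddChar A ℂ, χ ≠ 1 → ‖∑ u ∈ UU bar, χ u‖ ≤ lam * (UU bar).card) :
    CrossT (1 / k) bar (1 / k * (1 / k - lam * (1 - 1 / k))) := by
  intro f g hf hg hmf hmg
  have h1 := mixing h0 (UU bar) (UU_nonempty bar) hgap f g hf hg
  have hkR : (0 : ℝ) < k := by exact_mod_cast hk
  refine le_trans (RC.FF_lower h0 ?_ hmf hmg) h1
  have h2 : lam * (1 - 1 / k) = ((k : ℝ) - 1) * lam * (1 / k) := by
    field_simp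
  rw [h2]
  have h3 : 0 < (1 : ℝ) / k := by positivity
  nlinarith

theorem crossT_subsingleton {θ : ℝ} (hθ : 0 ≤ θ) {A : Type} [CommRing A] [Fintype A]
    [Subsingleton A] (bar : A →+* A) : CrossT θ bar (θ ^ 2) := by
  intro f g _ _ hmf hmg
  rw [mean_subsingleton] at hmf hmg
  rw [cross_subsingleton]
  nlinarith

theorem cross_prod {B C : Type} [CommRing B] [Fintype B] [CommRing C] [Fintype C]
    (barB : B →+* B) (barC : C →+* C) (f g : B × C → ℝ) :
    cross (UU (barB.prodMap barC)) f g = (∑ b, ∑ u ∈ UU barB, cross (UU barC)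
      (fun c => f (b + u, c)) (fun c => g (b, c))) / (Fintype.card B * (UU barB).card) := by
  unfold cross
  rw [UU_prod, Finset.card_product, Fintype.card_prod, Fintype.sum_prod_type]
  have h1 : ∀ b : B, ∑ u ∈ UU barB, (∑ c : C, ∑ v ∈ UU barC, f (b + u, c + v) * g (b, c)) /
      ((Fintype.card C : ℝ) * (UU barC).card) =
      (∑ c : C, ∑ w ∈ UU barB ×ˢ UU barC, f ((b, c) + w) * g (b, c)) /
        ((Fintype.card C : ℝ) * (UU barC).card) := by
    intro b
    rw [← Finset.sum_div, Finset.sum_comm]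
    congr 1
    refine Finset.sum_congr rfl fun c _ => ?_
    rw [Finset.sum_product]
    rfl
  simp only [h1]
  rw [← Finset.sum_div, div_div]
  congr 1
  push_cast
  ring

theorem pair_step {k : ℕ} (hk : 0 < k) {B C : Type} [CommRing B] [Fintype B] [CommRing C]
    [Fintype C] {barB : B →+* B} {barC : C →+* C} {δ ε : ℝ} (hδ : 0 < δ) (hε : 0 ≤ ε)
    (h2 : CrossT (1 / k) barC δ) {X : Set ℂ} (h1 : FamOn k (barB.prodMap barC) X ε) :
    FamOn k barB X (ε / δ) := by
  obtain ⟨G, hG, hGX⟩ := h1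
  have hex : ∀ (x : ℂ) (b : B), ∃ i, 1 / (k : ℝ) ≤ mean (fun c => G x i (b, c)) := by
    intro x b
    refine exists_large hk _ ?_
    exact mean_sum_one (fun i c => G x i (b, c)) fun c => (hG x).2 (b, c)
  choose r hr using hex
  refine ⟨fun x i b => if r x b = i then 1 else 0, ?_, ?_⟩
  · intro x
    constructor
    · intro i b
      beta_reduce
      split_ifs
      · exact zero_le_one
      · exact le_rfl
    · intro b
      simp
  · intro x hx y hy hxy i
    rw [le_div_iff₀ hδ, mul_comm]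
    refine le_trans (le_cross_prod barB barC _ _ (G x i) (G y i) δ
      (cross_prod barB barC (G x i) (G y i)) ?_) (hGX x hx y hy hxy i)
    intro b u hu
    have hux : Unit01 (fun c => G x i (b + u, c)) := fun c => Smp_unit (hG x) i (b + u, c)
    have huy : Unit01 (fun c => G y i (b, c)) := fun c => Smp_unit (hG y) i (b, c)
    have h0 : 0 ≤ cross (UU barC) (fun c => G x i (b + u, c)) (fun c => G y i (b, c)) :=
      cross_nonneg _ (fun c => (hux c).1) (fun c => (huy c).1)
    beta_reduce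
    by_cases e1 : r x (b + u) = i
    · by_cases e2 : r y b = i
      · rw [if_pos e1, if_pos e2, mul_one, mul_one]
        refine h2 _ _ hux huy ?_ ?_
        · have := hr x (b + u)
          rwa [e1] at this
        · have := hr y b
          rwa [e2] at this
      · rw [if_neg e2, mul_zero, mul_zero]
        exact h0
    · rw [if_neg e1, zero_mul, mul_zero]
      exact h0

theorem fam_equiv {k : ℕ} {A A' : Type} [CommRing A] [Fintype A] [CommRing A'] [Fintype A']
    {bar : A →+* A} {bar' : A' →+* A'} {ε : ℝ} (e : A ≃+* A')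
    (he : ∀ a, e (bar a) = bar' (e a)) {X : Set ℂ} (h : FamOn k bar X ε) :
    FamOn k bar' X ε := by
  obtain ⟨G, hG, hGX⟩ := h
  refine ⟨fun x i a => G x i (e.symm a), ?_, ?_⟩
  · intro x
    exact ⟨fun i a => (hG x).1 i _, fun a => (hG x).2 _⟩
  · intro x hx y hy hxy i
    rw [cross_equiv e he (G x i) (G y i)]
    exact hGX x hx y hy hxy i

theorem fam_end {k : ℕ} (hk : 0 < k) {A : Type} [CommRing A] [Fintype A] [Subsingleton A]
    {bar : A →+* A} {ε : ℝ} (hε : ε < 1 / (k : ℝ) ^ 2) {X : Set ℂ} (h : FamOn k bar X ε) :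
    ∃ col : ℂ → Fin k, ∀ x ∈ X, ∀ y ∈ X, ‖x - y‖ = 1 → col x ≠ col y := by
  obtain ⟨G, hG, hGX⟩ := h
  have hex : ∀ x : ℂ, ∃ i, 1 / (k : ℝ) ≤ G x i 0 := fun x =>
    exists_large hk _ ((hG x).2 0)
  choose col hcol using hex
  refine ⟨col, ?_⟩
  intro x hx y hy hxy heq
  have h1 := hGX x hx y hy hxy (col x)
  rw [cross_subsingleton] at h1
  have h2 := hcol x
  have h3 := hcol y
  rw [← heq] at h3
  have hkR : (0 : ℝ) < k := by exact_mod_cast hk
  have h4 : (0 : ℝ) ≤ 1 / k := by positivity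
  have h5 : 1 / (k : ℝ) ^ 2 = 1 / k * (1 / k) := by
    rw [pow_two, one_div_mul_one_div]
  have h6 := mul_le_mul h2 h3 h4 (h4.trans h2)
  linarith

end Pool.Agent.MP_8b8716_co_QR
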