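import Mathlib
import Pool.Agent.Lib.MP_8b8716_co_QP.Defs
import Pool.Agent.Lib.MP_8b8716_co_QP.PJ
import Pool.Agent.Lib.MP_8b8716_co_QP.PAQ
import Pool.Agent.Lib.MP_8b8716_co_QG.GAM
import Pool.Agent.Lib.MP_8b8716_co_QR.Defs

set_option autoImplicit false

/-!
# MP_8b8716_co, project QR, module RD: decomposition of the finite rings
-/

noncomputable section

namespace Pool.Agent.MP_8b8716_co_QR

open NumberField IsDedekindDomain
open Pool.Agent.MP_8b8716_co_HN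
open Pool.Agent.MP_8b8716_co_QG
open Pool.Agent.MP_8b8716_co_QP

section
variable {E : Subfield ℂ} [NumberField E] [Cj E] {S : Set (Ideal (𝓞 E))} {m : ℕ}

theorem AQ_comap (hm : 0 < m) (M : Ideal (AQ E S m)) (hM : M.IsMaximal) :
    Stab E (M.comap ((clQ E S m).comp (iR E))) ∧ M.comap ((clQ E S m).comp (iR E)) ∉ S := by
  change Stab E (M.comap (PAQ.ff E S m)) ∧ M.comap (PAQ.ff E S m) ∉ S
  set P : Ideal (𝓞 E) := M.comap (PAQ.ff E S m) with hP
  have hPm : P.IsMaximal := Ideal.comap_isMaximal_of_surjective _ (PAQ.ff_surj hm)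
  have hSt : Stab E P := stab_of_le hm P hPm fun a ha => by
    rw [hP, Ideal.mem_comap, PAQ.ff_eq_fac, GAM.ff_eq_zero ha, map_zero]
    exact M.zero_mem
  have hmP : (m : 𝓞 E) ∈ P := by
    rw [hP, Ideal.mem_comap, PAQ.ff_eq_fac, GAM.ff_m, map_zero]
    exact M.zero_mem
  refine ⟨hSt, ?_⟩
  intro hPS
  obtain ⟨e1, e2, he, h1, h2⟩ := exists_split (E := E) (S := S) hm
  have he2 : e2 ∈ P := by
    rw [hP, Ideal.mem_comap, PAQ.ff_apply, (PAQ.clQ_eq_zero _).2 h2]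
    exact M.zero_mem
  obtain ⟨s, hs, a, h3⟩ := h1 P hPS hSt
  have h4 : s * e1 = m * a := by
    apply io_injective
    rw [map_mul, map_mul, map_natCast]
    exact h3
  have h5 : s * e1 ∈ P := by
    rw [h4]
    exact Ideal.mul_mem_right _ _ hmP
  have he1 : e1 ∈ P := (hPm.isPrime.mem_or_mem h5).resolve_left hs
  apply hPm.ne_top
  rw [Ideal.eq_top_iff_one, ← he]
  exact P.add_mem he1 he2

namespace RD

omit [NumberField E] in
theorem JJ_anti {T T' : Set (Ideal (𝓞 E))} (h : T ⊆ T') : JJ E T' m ≤ JJ E T m :=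
  fun _ hr P hP hst => hr P (h hP) hst

omit [NumberField E] in
theorem JJ_inf {W : Set (Ideal (𝓞 E))} (hW : Disjoint W S) :
    JJ E Sᶜ m = JJ E (S ∪ W)ᶜ m ⊓ JJ E Wᶜᶜ m := by
  apply le_antisymm
  · refine le_inf (JJ_anti ?_) (JJ_anti ?_)
    · intro P hP hPS
      exact hP (Or.inl hPS)
    · rw [compl_compl]
      intro P hP hPS
      exact Set.disjoint_left.1 hW hP hPS
  · intro r hr P hP hst
    by_cases h : P ∈ W
    · exact hr.2 P (by rwa [compl_compl]) hst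
    · exact hr.1 P (fun h1 => h1.elim hP h) hst

theorem JJ_coprime (hm : 0 < m) {W : Set (Ideal (𝓞 E))} :
    IsCoprime (JJ E (S ∪ W)ᶜ m) (JJ E Wᶜᶜ m) := by
  obtain ⟨e1, e2, he, h1, h2⟩ := exists_split (E := E) (S := W) hm
  rw [Ideal.isCoprime_iff_exists]
  refine ⟨iR E e2, JJ_anti ?_ h2, iR E e1, ?_, ?_⟩
  · intro P hP hPW
    exact hP (Or.inr hPW)
  · rw [compl_compl]
    exact h1
  · rw [← map_add, add_comm, he, map_one]

end RD

theorem AQ_split (hm : 0 < m) {W : Set (Ideal (𝓞 E))} (hW : Disjoint W S) :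
    ∃ e : AQ E S m ≃+* AQ E (S ∪ W) m × AQ E Wᶜ m, ∀ a, e (barQ E S m a) =
      ((barQ E (S ∪ W) m).prodMap (barQ E Wᶜ m)) (e a) := by
  obtain ⟨e, he⟩ : ∃ e : AQ E S m ≃+* AQ E (S ∪ W) m × AQ E Wᶜ m,
      ∀ r : RR E, e (clQ E S m r) = (clQ E (S ∪ W) m r, clQ E Wᶜ m r) :=
    ⟨(Ideal.quotEquivOfEq (RD.JJ_inf (m := m) hW)).trans
      (Ideal.quotientInfEquivQuotientProd _ _ (RD.JJ_coprime hm)), fun r => rfl⟩
  refine ⟨e, fun a => ?_⟩
  obtain ⟨r, rfl⟩ : ∃ r, clQ E S m r = a := Ideal.Quotient.mk_surjective a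
  rw [barQ_cl, he, he]
  exact Prod.ext (barQ_cl r).symm (barQ_cl r).symm

theorem AQ_local (hm : 0 < m) (P : Ideal (𝓞 E)) (M M' : Ideal (AQ E {P}ᶜ m)) (hM : M.IsMaximal)
    (hM' : M'.IsMaximal) : M' = M := by
  have h1 := (AQ_comap hm M hM).2
  have h2 := (AQ_comap hm M' hM').2
  have e1 : M.comap ((clQ E {P}ᶜ m).comp (iR E)) = P := not_not.1 h1
  have e2 : M'.comap ((clQ E {P}ᶜ m).comp (iR E)) = P := not_not.1 h2
  exact Ideal.comap_injective_of_surjective _ (PAQ.ff_surj hm) (e2.trans e1.symm)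

theorem AQ_trivial (hm : 0 < m) (h : ∀ P, Stab E P → P ∈ S) : Subsingleton (AQ E S m) := by
  by_contra hn
  rw [not_subsingleton_iff_nontrivial] at hn
  obtain ⟨M, hM⟩ := Ideal.exists_maximal (AQ E S m)
  have h1 := AQ_comap hm M hM
  exact h1.2 (h _ h1.1)

end

end Pool.Agent.MP_8b8716_co_QR
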