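import Mathlib
import Pool.Agent.Lib.MP_8b8716_co_QP.PCol
import Pool.Agent.Lib.MP_8b8716_co_QR.Defs

set_option autoImplicit false

/-!
# MP_8b8716_co, project QR, module RFam: the family of functions
-/

noncomputable section

namespace Pool.Agent.MP_8b8716_co_QR

open Complex MeasureTheory Filter Topology Set
open NumberField
open Pool.Agent.MP_8b8716_co_HN
open Pool.Agent.MP_8b8716_co_QG
open Pool.Agent.MP_8b8716_co_QP
open Pool.Agent.MP_8b8716_co_QG.GKey (mp_shift zz_sub zz_tendsto)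
open Pool.Agent.MP_8b8716_co_QP.PCol (mul_mem_JJ pair_bound approx_near)

namespace RFam

/-- rational points of the unit circle are dense -/
theorem exists_unit_near {w : ℂ} (hw : ‖w‖ = 1) {δ : ℝ} (hδ : 0 < δ) :
    ∃ c : ℂ, c ∈ KG ∧ ‖c‖ = 1 ∧ ‖c - w‖ < δ := by
  by_cases h : w = -1
  · exact ⟨-1, neg_mem (one_mem KG), by simp, by rw [h]; simpa using hδ⟩
  set b : ℝ × ℝ → ℂ := fun p => 1 + (p.1 : ℂ) + (p.2 : ℂ) * I with hb
  have hbc : Continuous b := by
    rw [hb]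
    fun_prop
  have hbw : b (w.re, w.im) = 1 + w := by
    rw [hb]
    simp only
    rw [add_assoc, Complex.re_add_im]
  have hb0 : b (w.re, w.im) ≠ 0 := by
    rw [hbw]
    intro h1
    exact h (by linear_combination h1)
  have hs0 : (starRingEnd ℂ) (b (w.re, w.im)) ≠ 0 := by
    rw [Ne, map_eq_zero]
    exact hb0
  have hcont : ContinuousAt (fun p : ℝ × ℝ => b p / (starRingEnd ℂ) (b p)) (w.re, w.im) :=
    ContinuousAt.div hbc.continuousAt
      (Complex.continuous_conj.comp hbc).continuousAt hs0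
  have hval : b (w.re, w.im) / (starRingEnd ℂ) (b (w.re, w.im)) = w := by
    rw [div_eq_iff hs0, hbw, map_add, map_one, mul_add, mul_one, Complex.mul_conj,
      Complex.normSq_eq_norm_sq, hw]
    push_cast
    ring
  have h1 : ∀ᶠ p in 𝓝 ((w.re, w.im) : ℝ × ℝ),
      ‖b p / (starRingEnd ℂ) (b p) - w‖ < δ ∧ b p ≠ 0 := by
    refine Filter.Eventually.and ?_ (hbc.continuousAt.eventually_ne hb0)
    have h2 := hcont.tendsto
    rw [hval] at h2
    have h3 := (h2.sub_const w).norm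
    rw [sub_self, norm_zero] at h3
    exact h3.eventually (gt_mem_nhds hδ)
  have hdense : DenseRange (Prod.map (fun q : ℚ => (q : ℝ)) fun q : ℚ => (q : ℝ)) :=
    Rat.denseRange_cast.prodMap Rat.denseRange_cast
  obtain ⟨p, hp⟩ := hdense.mem_nhds h1
  obtain ⟨hp1, hp2⟩ := hp
  set z : ℂ := b (Prod.map (fun q : ℚ => (q : ℝ)) (fun q : ℚ => (q : ℝ)) p) with hz
  have hzK : z ∈ KG := ⟨1 + p.1, p.2, by
    rw [hz, hb]
    simp only [Prod.map_fst, Prod.map_snd]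
    push_cast
    ring⟩
  have hzK' : (starRingEnd ℂ) z ∈ KG := ⟨1 + p.1, -p.2, by
    rw [hz, hb]
    simp only [Prod.map_fst, Prod.map_snd, map_add, map_mul, map_one, Complex.conj_ofReal,
      Complex.conj_I]
    push_cast
    ring⟩
  refine ⟨z / (starRingEnd ℂ) z, div_mem hzK hzK', ?_, hp1⟩
  rw [norm_div, Complex.norm_conj, div_self (norm_ne_zero_iff.2 hp2)]

/-- the numbers `m (a + b i) / 5 ^ N` are dense -/
theorem exists_near {m : ℕ} (hm : 0 < m) (x : ℂ) {δ : ℝ} (hδ : 0 < δ) :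
    ∃ a b : ℤ, ∃ N : ℕ, ‖(m : ℂ) * ((a : ℂ) + b * I) / 5 ^ N - x‖ < δ := by
  have hmR : (0 : ℝ) < m := by exact_mod_cast hm
  obtain ⟨N, hN⟩ : ∃ N : ℕ, (2 * m) * (1 / 5 : ℝ) ^ N < δ := by
    have h1 : Tendsto (fun N : ℕ => (2 * m) * (1 / 5 : ℝ) ^ N) atTop (𝓝 (2 * m * 0)) :=
      (tendsto_pow_atTop_nhds_zero_of_lt_one (by norm_num) (by norm_num)).const_mul _
    rw [mul_zero] at h1
    exact (h1.eventually (gt_mem_nhds hδ)).exists
  set s : ℝ := m / 5 ^ N with hs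
  have hs0 : 0 < s := by positivity
  have hs2 : 2 * s < δ := by
    rw [hs]
    rw [one_div, inv_pow] at hN
    rw [mul_div_assoc']
    exact hN
  refine ⟨⌊x.re / s⌋, ⌊x.im / s⌋, N, ?_⟩
  have e1 : (m : ℂ) * ((⌊x.re / s⌋ : ℂ) + ⌊x.im / s⌋ * I) / 5 ^ N - x =
      ((s * ⌊x.re / s⌋ - x.re : ℝ) : ℂ) + ((s * ⌊x.im / s⌋ - x.im : ℝ) : ℂ) * I := by
    have hx := Complex.re_add_im x
    rw [hs]
    push_cast
    linear_combination hx
  rw [e1]
  have e2 : ∀ y : ℝ, |s * ⌊y / s⌋ - y| ≤ s := by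
    intro y
    have h1 := Int.floor_le (y / s)
    have h2 := Int.lt_floor_add_one (y / s)
    have h3 : s * (y / s) = y := by field_simp
    have h4 : s * ⌊y / s⌋ ≤ s * (y / s) := by gcongr
    have h5 : s * (y / s) < s * (⌊y / s⌋ + 1) := by gcongr
    rw [abs_le]
    constructor
    · linarith
    · linarith
  calc _ ≤ ‖((s * ⌊x.re / s⌋ - x.re : ℝ) : ℂ)‖ + ‖((s * ⌊x.im / s⌋ - x.im : ℝ) : ℂ) * I‖ :=
        norm_add_le _ _
    _ ≤ s + s := by
        rw [norm_mul, Complex.norm_I, mul_one, Complex.norm_real, Complex.norm_real]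
        exact add_le_add (e2 _) (e2 _)
    _ < δ := by linarith

end RFam

section

variable {E : Subfield ℂ} [NumberField E] [Cj E] {S : Set (Ideal (𝓞 E))} {m : ℕ}

open RFam in
theorem fam (hE : Euc E) {Q : Set ℕ} (hB : BBS E ∅ Q) {k : ℕ}
    {Om : Set (E → Circle)} {μ : Measure (E → Fin k)}
    {σ : Fin k → Measure (E → Circle)} (hS : Spec E Om k μ σ) {X : Set ℂ} (hX : X.Finite) {ε : ℝ}
    (hε : 0 < ε) : ∃ m : ℕ, 0 < m ∧ ∀ _ : Fintype (AQ E ∅ m), FamOn k (barQ E ∅ m) X ε := by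
  classical
  have hI := hE.i_mem
  have hctb := hE.ctb
  have hprob := hS.col.prob
  have hmp := mp_shift hS.col
  have hXf : Fintype X := hX.fintype
  -- `k` is positive
  have hk0 : 0 < k := by
    rcases Nat.eq_zero_or_pos k with rfl | h
    · exfalso
      have h1 : IsEmpty (E → Fin 0) := ⟨fun f => (f 0).elim0⟩
      have h2 : μ Set.univ = 1 := hprob.measure_univ
      rw [Set.univ_eq_empty_iff.2 h1, measure_empty] at h2
      exact zero_ne_one h2
    · exact h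
  set N : ℝ := ((Fintype.card (X × X × Fin k) : ℕ) : ℝ) with hN
  have hN0 : 0 ≤ N := by positivity
  set ε1 : ℝ := ε / (2 * (N + 1)) with hε1
  have hε0 : 0 < ε1 := by positivity
  have hNε : N * (2 * ε1) < ε := by
    rw [hε1, mul_div_assoc', mul_div_assoc', div_lt_iff₀ (by positivity)]
    nlinarith
  -- the modulus `m`
  obtain ⟨m, hm, htail⟩ := psi_tail hS.nice hε0
  refine ⟨m, hm, fun hFin => ?_⟩
  choose Gf hGf using fun i => exists_lim hI hS hm i
  have hG' : ∀ i ω, 0 ≤ Gf i ω ∧ Gf i ω ≤ 1 := fun i ω => ⟨(hGf i).nonneg ω, (hGf i).le_one ω⟩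
  have hsum := lim_sum hS.col hGf
  choose δf hδf hcont using fun i => psi_cont (hS.nice i) (m := m) hε0
  obtain ⟨δ, hδ, hδle⟩ : ∃ δ : ℝ, 0 < δ ∧ ∀ i, δ ≤ δf i := by
    have hne : (Finset.univ : Finset (Fin k)).Nonempty := ⟨⟨0, hk0⟩, Finset.mem_univ _⟩
    exact ⟨Finset.univ.inf' hne δf, (Finset.lt_inf'_iff hne).2 fun i _ => hδf i, fun i =>
      Finset.inf'_le _ (Finset.mem_univ i)⟩
  -- the points near the points of the plane
  obtain ⟨C, hC, hCn⟩ := nrm_le_of_KG hI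
  have hz : ∀ x : ℂ, ∃ z : E, (z : ℂ) ∈ KG ∧ (∃ v ∈ RR E, z = m * v) ∧
      ‖(z : ℂ) - x‖ < δ / (12 * C) := by
    intro x
    obtain ⟨a, b, N, h1⟩ := exists_near hm x (δ := δ / (12 * C)) (by positivity)
    have h5 : (5⁻¹ : E) ∈ RR E := five_inv_mem_RR hI
    have hIR : (⟨I, hI⟩ : E) ∈ RR E := norm_one_mem_RR (by simp)
    have h5c : ((5 : E) : ℂ) = 5 := rfl
    have e1 : (((m * (((a : E) + b * ⟨I, hI⟩) * 5⁻¹ ^ N) : E)) : ℂ) =
        (m : ℂ) * ((a : ℂ) + b * I) / 5 ^ N := by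
      push_cast
      rw [h5c, inv_pow]
      field_simp
    refine ⟨m * (((a : E) + b * ⟨I, hI⟩) * 5⁻¹ ^ N), ⟨m * a / 5 ^ N, m * b / 5 ^ N, ?_⟩,
      ⟨_, (RR E).mul_mem ((RR E).add_mem (intCast_mem (RR E) a)
        ((RR E).mul_mem (intCast_mem (RR E) b) hIR)) ((RR E).pow_mem h5 N), rfl⟩, ?_⟩
    · rw [e1]
      push_cast
      field_simp
    · rw [e1]
      exact h1
  choose z hzK hzm hzn using hz
  -- the finite ring
  choose lf hlf hlJ using fun h : AQ E ∅ m => AQ_lift hm h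
  obtain ⟨e, he, he'⟩ := exists_pow_five (E := E) hI hm
  obtain ⟨K, hK⟩ : ∃ K : ℕ, ∀ h : AQ E ∅ m, nrm E (io E (lf h) / 5 ^ (e * K)) < δ / 8 := by
    have h1 : ∀ᶠ K : ℕ in atTop, ∀ h : AQ E ∅ m, nrm E (io E (lf h) / 5 ^ (e * K)) < δ / 8 := by
      rw [eventually_all]
      intro h
      exact (zz_tendsto e he (io E (lf h))).eventually (gt_mem_nhds (by positivity))
    exact h1.exists
  set zz : AQ E ∅ m → E := fun h => io E (lf h) / 5 ^ (e * K) with hzz
  have hzzR : ∀ h, ∃ hR : zz h ∈ RR E, clQ E ∅ m ⟨zz h, hR⟩ = h := by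
    intro h
    obtain ⟨v, hv, hv'⟩ := zz_sub hI he' K (lf h)
    have e1 : zz h = io E (lf h) + m * v := by
      rw [hzz]
      linear_combination hv'
    have hmv : (m : E) * v ∈ RR E := (RR E).mul_mem (natCast_mem (RR E) m) hv
    have hR : zz h ∈ RR E := by
      rw [e1]
      exact (RR E).add_mem (iR E (lf h)).2 hmv
    have e2 : (⟨zz h, hR⟩ : RR E) = iR E (lf h) + ⟨m * v, hmv⟩ := Subtype.ext e1
    refine ⟨hR, ?_⟩
    rw [e2, map_add, hlf]
    have e3 : clQ E ∅ m ⟨m * v, hmv⟩ = 0 :=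
      Ideal.Quotient.eq_zero_iff_mem.2 (mul_mem_JJ ⟨v, hv, rfl⟩ _)
    rw [e3, add_zero]
  choose hzR hzcl using hzzR
  have hzxR : ∀ x, ∃ hR : z x ∈ RR E, clQ E ∅ m ⟨z x, hR⟩ = 0 := by
    intro x
    obtain ⟨v, hv, h⟩ := hzm x
    have hR : z x ∈ RR E := by
      rw [h]
      exact (RR E).mul_mem (natCast_mem (RR E) m) hv
    exact ⟨hR, Ideal.Quotient.eq_zero_iff_mem.2 (mul_mem_JJ ⟨v, hv, h⟩ _)⟩
  choose hzxR hzx0 using hzxR
  have hU' : ∀ u, u ∈ UU (barQ E ∅ m) ↔ u * barQ E ∅ m u = 1 := fun u => by simp [UU]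
  -- the functions
  set Gg : (E → Fin k) → ℂ → Fin k → AQ E ∅ m → ℝ := fun ω x i h =>
    Gf i (shift (zz h + z x) ω) with hGg
  have hGm : ∀ x i h, Measurable fun ω => Gg ω x i h := fun x i h =>
    (hGf i).meas.comp (hmp _).measurable
  have hGb : ∀ ω x i h, 0 ≤ Gg ω x i h ∧ Gg ω x i h ≤ 1 := fun ω x i h => hG' i _
  -- the estimate for one pair
  have hpair : ∀ x y : ℂ, ‖x - y‖ = 1 → ∀ i, ∀ h : AQ E ∅ m, ∀ u ∈ UU (barQ E ∅ m),
      ∫ ω, Gg ω x i (h + u) * Gg ω y i h ∂μ ≤ 2 * ε1 := by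
    intro x y hxy i h u hu
    obtain ⟨c, hcK, hc, hcn⟩ := exists_unit_near hxy (δ := δ / (12 * C)) (by positivity)
    have hcE : c ∈ E := hE.KG_le hcK
    have hcR : (⟨c, hcE⟩ : E) ∈ RR E := norm_one_mem_RR hc
    obtain ⟨c', hc', hcn', hc'R, hc'u, -⟩ := approx_near hI hB hm (c := ⟨c, hcE⟩) hc hcR u
      ((hU' u).1 hu) (δ := δ / 4) (by positivity)
    have hzc : nrm E (z x - z y - ⟨c, hcE⟩) < δ / 4 := by
      have h1 := hCn (z x - z y - ⟨c, hcE⟩) (by
        push_cast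
        exact sub_mem (sub_mem (hzK x) (hzK y)) hcK)
      have h2 : ‖((z x - z y - ⟨c, hcE⟩ : E) : ℂ)‖ < 3 * (δ / (12 * C)) := by
        push_cast
        have e1 : (z x : ℂ) - z y - c = ((z x : ℂ) - x) - ((z y : ℂ) - y) - (c - (x - y)) := by ring
        rw [e1]
        have a1 := norm_sub_le ((z x : ℂ) - x - ((z y : ℂ) - y)) (c - (x - y))
        have a2 := norm_sub_le ((z x : ℂ) - x) ((z y : ℂ) - y)
        linarith [hzn x, hzn y]
      have h3 : C * ‖((z x - z y - ⟨c, hcE⟩ : E) : ℂ)‖ < C * (3 * (δ / (12 * C))) := by gcongr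
      have h4 : C * (3 * (δ / (12 * C))) = δ / 4 := by
        field_simp
        norm_num
      linarith
    set R : RR E := ⟨zz (h + u), hzR _⟩ - ⟨zz h, hzR _⟩ + ⟨z x, hzxR x⟩ - ⟨z y, hzxR y⟩ -
      ⟨c', hc'R⟩ with hR
    have hR1 : R ∈ JJ E ∅ m := by
      intro P hP
      exact absurd hP (Set.notMem_empty P)
    have hR2 : R ∈ JJ E ∅ᶜ m := by
      apply Ideal.Quotient.eq_zero_iff_mem.1
      change clQ E ∅ m R = 0
      rw [hR, map_sub, map_sub, map_add, map_sub, hzcl, hzcl, hzx0, hzx0, hc'u]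
      ring
    obtain ⟨v, hv, hRv⟩ := of_mem_JJ hm hR1 hR2
    have hRe : (R : E) = zz (h + u) - zz h + z x - z y - c' := rfl
    refine pair_bound hI hS hm (hGf i) (htail i) (hcont i) hc' hv (x1 := zz (h + u) + z x)
      (x2 := zz h + z y) ?_ ?_
    · rw [← hRv, hRe]
      ring
    · rw [← hRv, hRe]
      have e1 : zz (h + u) - zz h + z x - z y - c' =
          zz (h + u) + (-zz h + ((z x - z y - ⟨c, hcE⟩) + -(c' - ⟨c, hcE⟩))) := by ring
      rw [e1]
      have h1 := nrm_add_le (zz (h + u)) (-zz h + ((z x - z y - ⟨c, hcE⟩) + -(c' - ⟨c, hcE⟩)))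
      have h2 := nrm_add_le (-zz h) ((z x - z y - ⟨c, hcE⟩) + -(c' - ⟨c, hcE⟩))
      have h3 := nrm_add_le (z x - z y - ⟨c, hcE⟩) (-(c' - ⟨c, hcE⟩))
      rw [nrm_neg] at h2 h3
      have h4 : nrm E (zz (h + u)) < δ / 8 := hK _
      have h5 : nrm E (zz h) < δ / 8 := hK _
      have h6 := hδle i
      linarith
  have hgi : ∀ x y i, ∀ h u : AQ E ∅ m, Integrable (fun ω => Gg ω x i (h + u) * Gg ω y i h) μ := by
    intro x y i h u
    refine Integrable.of_bound (C := 1) ?_ (Eventually.of_forall fun ω => ?_)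
    · exact ((hGm x i _).mul (hGm y i h)).aestronglyMeasurable
    · have a1 := hGb ω x i (h + u)
      have a2 := hGb ω y i h
      rw [Real.norm_of_nonneg (mul_nonneg a1.1 a2.1)]
      exact mul_le_one₀ a1.2 a2.1 a2.2
  have hci : ∀ x y i, Integrable (fun ω => cross (UU (barQ E ∅ m)) (Gg ω x i) (Gg ω y i)) μ := by
    intro x y i
    unfold cross
    exact (integrable_finsetSum _ fun h _ => integrable_finsetSum _ fun u _ =>
      hgi x y i h u).div_const _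
  have hc0 : ∀ ω x y i, 0 ≤ cross (UU (barQ E ∅ m)) (Gg ω x i) (Gg ω y i) := by
    intro ω x y i
    unfold cross
    refine div_nonneg (Finset.sum_nonneg fun h _ => Finset.sum_nonneg fun u _ => ?_)
      (by positivity)
    exact mul_nonneg (hGb _ _ _ _).1 (hGb _ _ _ _).1
  have hedge : ∀ x y : ℂ, ‖x - y‖ = 1 → ∀ i,
      ∫ ω, cross (UU (barQ E ∅ m)) (Gg ω x i) (Gg ω y i) ∂μ ≤ 2 * ε1 := by
    intro x y hxy i
    have e1 : ∫ ω, cross (UU (barQ E ∅ m)) (Gg ω x i) (Gg ω y i) ∂μ =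
        (∑ h : AQ E ∅ m, ∑ u ∈ UU (barQ E ∅ m), ∫ ω, Gg ω x i (h + u) * Gg ω y i h ∂μ) /
          (Fintype.card (AQ E ∅ m) * (UU (barQ E ∅ m)).card) := by
      unfold cross
      rw [integral_div]
      congr 1
      rw [integral_finsetSum _ fun h _ => integrable_finsetSum _ fun u _ => hgi x y i h u]
      refine Finset.sum_congr rfl fun h _ => ?_
      rw [integral_finsetSum _ fun u _ => hgi x y i h u]
    rw [e1]
    refine div_le_of_le_mul₀ (by positivity) (by positivity) ?_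
    calc _ ≤ ∑ _h : AQ E ∅ m, ∑ _u ∈ UU (barQ E ∅ m), 2 * ε1 :=
          Finset.sum_le_sum fun h _ => Finset.sum_le_sum fun u hu => hpair x y hxy i h u hu
      _ = 2 * ε1 * (Fintype.card (AQ E ∅ m) * (UU (barQ E ∅ m)).card) := by
        rw [Finset.sum_const, Finset.sum_const, Finset.card_univ]
        simp only [nsmul_eq_mul]
        ring
  -- the choice of `ω`
  set Φ : (E → Fin k) → ℝ := fun ω => ∑ p : X × X × Fin k,
    if ‖(p.1 : ℂ) - p.2.1‖ = 1 then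
      cross (UU (barQ E ∅ m)) (Gg ω p.1 p.2.2) (Gg ω p.2.1 p.2.2) else 0 with hΦ
  have hΦi : ∀ p : X × X × Fin k, Integrable (fun ω => if ‖(p.1 : ℂ) - p.2.1‖ = 1 then
      cross (UU (barQ E ∅ m)) (Gg ω p.1 p.2.2) (Gg ω p.2.1 p.2.2) else 0) μ := by
    intro p
    by_cases h : ‖(p.1 : ℂ) - p.2.1‖ = 1
    · simp only [if_pos h]
      exact hci _ _ _
    · simp only [if_neg h]
      exact integrable_zero _ _ _
  have hΦint : ∫ ω, Φ ω ∂μ < ε := by
    have h1 : ∫ ω, Φ ω ∂μ ≤ ∑ _p : X × X × Fin k, 2 * ε1 := by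
      rw [hΦ, integral_finsetSum _ fun p _ => hΦi p]
      refine Finset.sum_le_sum fun p _ => ?_
      by_cases h : ‖(p.1 : ℂ) - p.2.1‖ = 1
      · simp only [if_pos h]
        exact hedge _ _ h _
      · simp only [if_neg h, integral_zero]
        positivity
    rw [Finset.sum_const, Finset.card_univ, nsmul_eq_mul] at h1
    exact lt_of_le_of_lt h1 hNε
  have hsum1 : ∀ᵐ ω ∂μ, ∀ w : E, ∑ i, Gf i (shift w ω) = 1 := by
    rw [ae_all_iff]
    intro w
    exact (hmp w).quasiMeasurePreserving.ae hsum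
  obtain ⟨ω, hω1, hω2⟩ : ∃ ω, (∀ w : E, ∑ i, Gf i (shift w ω) = 1) ∧ Φ ω < ε := by
    by_contra hcon
    push Not at hcon
    have h1 : ∀ᵐ ω ∂μ, ε ≤ Φ ω := by
      filter_upwards [hsum1] with ω hω
      exact hcon ω hω
    have h2 : ∫ _ω, ε ∂μ ≤ ∫ ω, Φ ω ∂μ :=
      integral_mono_ae (integrable_const _) (integrable_finsetSum _ fun p _ => hΦi p) h1
    rw [integral_const] at h2
    simp at h2
    linarith
  refine ⟨Gg ω, fun x => ⟨fun i h => (hGb ω x i h).1, fun h => hω1 _⟩, fun x hx y hy hxy i => ?_⟩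
  have h4 : (if ‖x - y‖ = 1 then cross (UU (barQ E ∅ m)) (Gg ω x i) (Gg ω y i) else 0) ≤ Φ ω :=
    Finset.single_le_sum (f := fun p : X × X × Fin k =>
      if ‖(p.1 : ℂ) - p.2.1‖ = 1 then
        cross (UU (barQ E ∅ m)) (Gg ω p.1 p.2.2) (Gg ω p.2.1 p.2.2) else 0)
      (fun p _ => by
        split_ifs
        · exact hc0 _ _ _ _
        · exact le_rfl) (Finset.mem_univ (⟨x, hx⟩, ⟨y, hy⟩, i))
  rw [if_pos hxy] at h4
  linarith

end

end Pool.Agent.MP_8b8716_co_QR
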