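import Mathlib
import Pool.Agent.Lib.MP_8b8716_co_QF.GapA
import Pool.Agent.Lib.MP_8b8716_co_QR.Defs
import Pool.Agent.Lib.MP_8b8716_co_QR.RA

set_option autoImplicit false

/-!
# MP_8b8716_co, project QR, module RG: the two sided bound for a local ring
-/

noncomputable section

namespace Pool.Agent.MP_8b8716_co_QR

open NumberField
open Pool.Agent.MP_8b8716_co_QG

namespace RG

open Pool.Agent.MP_8b8716_co_QF

/-- the mixing inequality with a two sided bound for the character sums -/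
theorem mixing_two {A : Type*} [AddCommGroup A] [Fintype A] (U : Finset A) (w r : ℝ)
    (hw : 0 ≤ w) (h0 : 0 ≤ r)
    (hgap : ∀ ψ : AddChar A ℂ, ψ ≠ 0 → ‖∑ u ∈ U, ψ u - ((w * U.card : ℝ) : ℂ)‖ ≤ r * U.card)
    (f g : A → ℝ) (hf : ∀ x, 0 ≤ f x ∧ f x ≤ 1) (hg : ∀ x, 0 ≤ g x ∧ g x ≤ 1) (a b : ℝ)
    (ha : a = (∑ x, f x) / Fintype.card A) (hb : b = (∑ x, g x) / Fintype.card A) :
    (Fintype.card A * U.card) * ((1 - w) * (a * b) - r / 2 * (a * (1 - a) + b * (1 - b))) ≤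
      ∑ h, ∑ u ∈ U, f (h + u) * g h := by
  classical
  set N : ℝ := (Fintype.card A : ℝ) with hN
  have hNpos : 0 < N := by
    rw [hN]
    exact_mod_cast Fintype.card_pos
  have hfa : ∑ x, f x = N * a := by rw [ha]; field_simp
  have hgb : ∑ x, g x = N * b := by rw [hb]; field_simp
  have hfg : 0 ≤ ∑ y, f y * g y :=
    Finset.sum_nonneg fun y _ => mul_nonneg (hf y).1 (hg y).1
  -- the main identity
  have h1 : ∑ ψ : AddChar A ℂ, fc f ψ * (starRingEnd ℂ) (fc g ψ) *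
      (∑ u ∈ U, ψ u - ((w * U.card : ℝ) : ℂ)) =
      ((N * (∑ h, ∑ u ∈ U, f (h + u) * g h) - w * U.card * (N * ∑ y, f y * g y) : ℝ) : ℂ) := by
    have h2 : ∑ ψ : AddChar A ℂ, fc f ψ * (starRingEnd ℂ) (fc g ψ) * ∑ u ∈ U, ψ u =
        ((N * ∑ h, ∑ u ∈ U, f (h + u) * g h : ℝ) : ℂ) := by
      simp only [Finset.mul_sum]
      rw [Finset.sum_comm]
      simp only [fc_shift]
      rw [← Finset.mul_sum]
      push_cast
      rw [Finset.sum_comm, hN]
      push_cast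
      simp only [Finset.mul_sum]
    have h3 : ∑ ψ : AddChar A ℂ, fc f ψ * (starRingEnd ℂ) (fc g ψ) =
        ((N * ∑ y, f y * g y : ℝ) : ℂ) := by
      have h4 := fc_shift f g 0
      simp only [AddChar.map_zero_eq_one, mul_one, add_zero] at h4
      rw [h4, hN]
      push_cast
      rfl
    simp only [mul_sub]
    rw [Finset.sum_sub_distrib, h2, ← Finset.sum_mul, h3]
    push_cast
    ring
  rw [← Finset.add_sum_erase _ _ (Finset.mem_univ (0 : AddChar A ℂ))] at h1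
  have h2 : fc f 0 * (starRingEnd ℂ) (fc g 0) *
      (∑ u ∈ U, (0 : AddChar A ℂ) u - ((w * U.card : ℝ) : ℂ)) =
      ((N * N * U.card * ((1 - w) * (a * b)) : ℝ) : ℂ) := by
    rw [fc_zero, fc_zero, Complex.conj_ofReal, hfa, hgb]
    simp only [AddChar.zero_apply, Finset.sum_const, nsmul_eq_mul, mul_one]
    push_cast
    ring
  rw [h2] at h1
  have h3 : ‖∑ ψ ∈ (Finset.univ : Finset (AddChar A ℂ)).erase 0,
      fc f ψ * (starRingEnd ℂ) (fc g ψ) * (∑ u ∈ U, ψ u - ((w * U.card : ℝ) : ℂ))‖ ≤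
      N * N * U.card * (r / 2 * (a * (1 - a) + b * (1 - b))) := by
    have h4 : ∀ k : A → ℝ, (∀ x, 0 ≤ k x ∧ k x ≤ 1) → ∀ c : ℝ, ∑ x, k x = N * c →
        ∑ ψ ∈ (Finset.univ : Finset (AddChar A ℂ)).erase 0, ‖fc k ψ‖ ^ 2 ≤
          N * N * (c * (1 - c)) := by
      intro k hk c hc
      have h5 := sum_norm_fc k
      rw [← Finset.add_sum_erase _ _ (Finset.mem_univ (0 : AddChar A ℂ)), fc_zero, hc,
        Complex.norm_real, Real.norm_eq_abs, sq_abs] at h5
      have h6 : ∑ y, k y ^ 2 ≤ N * c := by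
        rw [← hc]
        refine Finset.sum_le_sum fun x _ => ?_
        nlinarith [hk x]
      have h7 : N * ∑ y, k y ^ 2 ≤ N * (N * c) := mul_le_mul_of_nonneg_left h6 hNpos.le
      rw [← hN] at h5
      nlinarith
    have h5 := h4 f hf a hfa
    have h6 := h4 g hg b hgb
    calc ‖∑ ψ ∈ (Finset.univ : Finset (AddChar A ℂ)).erase 0,
        fc f ψ * (starRingEnd ℂ) (fc g ψ) * (∑ u ∈ U, ψ u - ((w * U.card : ℝ) : ℂ))‖
        ≤ ∑ ψ ∈ (Finset.univ : Finset (AddChar A ℂ)).erase 0,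
          ‖fc f ψ * (starRingEnd ℂ) (fc g ψ) * (∑ u ∈ U, ψ u - ((w * U.card : ℝ) : ℂ))‖ :=
        norm_sum_le _ _
      _ ≤ ∑ ψ ∈ (Finset.univ : Finset (AddChar A ℂ)).erase 0,
          (r * U.card) / 2 * (‖fc f ψ‖ ^ 2 + ‖fc g ψ‖ ^ 2) := by
        refine Finset.sum_le_sum fun ψ hψ => ?_
        rw [norm_mul, norm_mul, RCLike.norm_conj]
        have h7 := hgap ψ (Finset.ne_of_mem_erase hψ)
        have h8 : ‖fc f ψ‖ * ‖fc g ψ‖ ≤ (‖fc f ψ‖ ^ 2 + ‖fc g ψ‖ ^ 2) / 2 := by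
          nlinarith [sq_nonneg (‖fc f ψ‖ - ‖fc g ψ‖)]
        calc ‖fc f ψ‖ * ‖fc g ψ‖ * ‖∑ u ∈ U, ψ u - ((w * U.card : ℝ) : ℂ)‖
            ≤ ((‖fc f ψ‖ ^ 2 + ‖fc g ψ‖ ^ 2) / 2) * (r * U.card) := by
              gcongr
          _ = _ := by ring
      _ = (r * U.card) / 2 * (∑ ψ ∈ (Finset.univ : Finset (AddChar A ℂ)).erase 0,
            ‖fc f ψ‖ ^ 2 + ∑ ψ ∈ (Finset.univ : Finset (AddChar A ℂ)).erase 0, ‖fc g ψ‖ ^ 2) := by
        rw [← Finset.mul_sum, Finset.sum_add_distrib]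
      _ ≤ (r * U.card) / 2 * (N * N * (a * (1 - a)) + N * N * (b * (1 - b))) :=
        mul_le_mul_of_nonneg_left (add_le_add h5 h6)
          (div_nonneg (mul_nonneg h0 (Nat.cast_nonneg _)) (by norm_num))
      _ = _ := by ring
  have h4 : ∑ ψ ∈ (Finset.univ : Finset (AddChar A ℂ)).erase 0,
      fc f ψ * (starRingEnd ℂ) (fc g ψ) * (∑ u ∈ U, ψ u - ((w * U.card : ℝ) : ℂ)) =
      ((N * (∑ h, ∑ u ∈ U, f (h + u) * g h) - w * U.card * (N * ∑ y, f y * g y) -
        N * N * U.card * ((1 - w) * (a * b)) : ℝ) : ℂ) := by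
    rw [Complex.ofReal_sub, ← h1]
    ring
  rw [h4, Complex.norm_real, Real.norm_eq_abs, abs_le] at h3
  have h5 := h3.1
  have h7 : 0 ≤ w * U.card * (N * ∑ y, f y * g y) :=
    mul_nonneg (mul_nonneg hw (Nat.cast_nonneg _)) (mul_nonneg hNpos.le hfg)
  have h6 : N * (N * U.card * ((1 - w) * (a * b) - r / 2 * (a * (1 - a) + b * (1 - b)))) ≤
      N * ∑ h, ∑ u ∈ U, f (h + u) * g h := by
    nlinarith
  exact le_of_mul_le_mul_left h6 hNpos

/-- the character sums over the elements of norm one are real -/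
theorem im_eq_zero {C : Type} [CommRing C] [Fintype C] (bar : C →+* C) (χ : AddChar C ℂ) :
    (∑ u ∈ UU bar, χ u).im = 0 := by
  have h : ∑ u ∈ UU bar, χ u = ∑ u ∈ UU bar, (starRingEnd ℂ) (χ u) := by
    refine Finset.sum_bij (fun u _ => -u) ?_ ?_ ?_ ?_
    · intro u hu
      simp only [UU, Finset.mem_filter, Finset.mem_univ, true_and] at hu ⊢
      rw [map_neg, neg_mul_neg, hu]
    · intro u _ v _ h
      exact neg_inj.1 h
    · intro u hu
      refine ⟨-u, ?_, neg_neg u⟩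
      simp only [UU, Finset.mem_filter, Finset.mem_univ, true_and] at hu ⊢
      rw [map_neg, neg_mul_neg, hu]
    · intro u _
      rw [AddChar.map_neg_eq_conj, Complex.conj_conj]
  rw [← map_sum (starRingEnd ℂ)] at h
  exact Complex.conj_eq_iff_im.1 h.symm

/-- the two sided bound for the characters -/
theorem two_sided {q : ℕ} {lo hi : ℝ} (hg : GapTwo q lo hi) (hlo : 2 / ((q : ℝ) + 1) ≤ -lo)
    (hhi : -lo ≤ hi) {C : Type} [CommRing C]
    [Fintype C] (bar : C →+* C) (hbar : ∀ a, bar (bar a) = a)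
    (hid : ∀ I : Ideal C, ∀ a ∈ I, bar a ∈ I) (M : Ideal C) (hM : M.IsMaximal)
    (hloc : ∀ M' : Ideal C, M'.IsMaximal → M' = M) (hne : ∃ a, bar a - a ∉ M)
    (hcard : Nat.card (C ⧸ M) = q ^ 2) (χ : AddChar C ℂ) (hχ : χ ≠ 1) :
    lo * (UU bar).card ≤ (∑ u ∈ UU bar, χ u).re ∧
      (∑ u ∈ UU bar, χ u).re ≤ hi * (UU bar).card := by
  classical
  have hUm : ∀ u, u ∈ UU bar ↔ u * bar u = 1 := fun u => by simp [UU]
  have hc0 : (0 : ℝ) ≤ (UU bar).card := Nat.cast_nonneg _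
  by_cases hx : ∃ x ∈ M, χ x ≠ 1
  · have h1 := gap_local bar hbar hid M hM hloc hne hcard (UU bar) hUm χ hx
    have hq : (0 : ℝ) < (q : ℝ) + 1 := by positivity
    have h2 : ‖∑ u ∈ UU bar, χ u‖ ≤ -lo * (UU bar).card := by
      have h3 : ‖∑ u ∈ UU bar, χ u‖ ≤ 2 / ((q : ℝ) + 1) * (UU bar).card := by
        rw [div_mul_eq_mul_div, le_div_iff₀ hq]
        linarith
      exact h3.trans (mul_le_mul_of_nonneg_right hlo hc0)
    have h3 := abs_le.1 (Complex.abs_re_le_norm (∑ u ∈ UU bar, χ u))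
    constructor
    · linarith [h3.1]
    · have h4 : -lo * (UU bar).card ≤ hi * (UU bar).card := mul_le_mul_of_nonneg_right hhi hc0
      linarith [h3.2]
  · push Not at hx
    have hmax : ∀ M' : Ideal C, M'.IsMaximal →
        (∃ a, bar a - a ∉ M') ∧ ∃ q' ∈ ({q} : Set ℕ), Nat.card (C ⧸ M') = q' ^ 2 := by
      intro M' hM'
      obtain rfl := hloc M' hM'
      exact ⟨hne, q, rfl, hcard⟩
    obtain ⟨K, fK, ftK, dK, barK, π, hπ, hker, hc, hbK, hneK, q', hq', hcK⟩ :=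
      GRing.exists_field (Q := {q}) bar hbar hid hmax M hM
    obtain rfl : q' = q := hq'
    have hVm : ∀ v, v ∈ UU barK ↔ v * barK v = 1 := fun v => by simp [UU]
    obtain ⟨κ, hκ1, hκ2, -⟩ := GRing.fib_sum bar hbar hid (fun M' hM' => (hmax M' hM').1) barK π hπ
      hc (UU bar) hUm (UU barK) hVm
    have hd : ∀ a, π a = 0 → χ a = 1 := fun a ha => hx a ((hker a).1 ha)
    have hd1 : GRing.desc π hπ χ hd ≠ 1 := by
      intro h
      apply hχ
      apply DFunLike.ext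
      intro x
      have := GRing.desc_apply π hπ χ hd x
      rw [h, AddChar.one_apply] at this
      rw [← this, AddChar.one_apply]
    obtain ⟨h1, h2⟩ := hg K barK hbK hneK hcK _ hd1
    have h3 : ∑ u ∈ UU bar, χ u = κ * ∑ v ∈ UU barK, GRing.desc π hπ χ hd v := by
      rw [← hκ2]
      exact Finset.sum_congr rfl fun u _ => (GRing.desc_apply π hπ χ hd u).symm
    have h4 : (∑ u ∈ UU bar, χ u).re = κ * (∑ v ∈ UU barK, GRing.desc π hπ χ hd v).re := by
      rw [h3, ← Complex.ofReal_natCast, Complex.re_ofReal_mul]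
    have hκr : ((UU bar).card : ℝ) = κ * (UU barK).card := by exact_mod_cast hκ1
    have hκ0 : (0 : ℝ) ≤ κ := Nat.cast_nonneg _
    rw [h4, hκr]
    constructor
    · have := mul_le_mul_of_nonneg_left h1 hκ0
      linarith
    · have := mul_le_mul_of_nonneg_left h2 hκ0
      linarith

end RG

open RG in
theorem gap2_local {q : ℕ} {lo hi θ : ℝ} (hg : GapTwo q lo hi) (hlo : 2 / ((q : ℝ) + 1) ≤ -lo)
    (hhi : -lo ≤ hi) (hθ : 0 < θ) (hθ1 : (hi - lo) / 2 * (1 - θ) ≤ (1 - (hi + lo) / 2) * θ)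
    {C : Type} [CommRing C]
    [Fintype C] (bar : C →+* C) (hbar : ∀ a, bar (bar a) = a)
    (hid : ∀ I : Ideal C, ∀ a ∈ I, bar a ∈ I) (M : Ideal C) (hM : M.IsMaximal)
    (hloc : ∀ M' : Ideal C, M'.IsMaximal → M' = M) (hne : ∃ a, bar a - a ∉ M)
    (hcard : Nat.card (C ⧸ M) = q ^ 2) :
    CrossT θ bar (θ * ((1 - (hi + lo) / 2) * θ - (hi - lo) / 2 * (1 - θ))) := by
  classical
  intro f g hf hg' hfθ hgθ
  have hlo0 : 0 < -lo := lt_of_lt_of_le (by positivity) hlo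
  set w := (hi + lo) / 2 with hw
  set r := (hi - lo) / 2 with hr
  have hw0 : 0 ≤ w := by rw [hw]; linarith
  have hr0 : 0 ≤ r := by rw [hr]; linarith
  have hUpos : (0 : ℝ) < (UU bar).card := by
    have : (1 : C) ∈ UU bar := by simp [UU]
    exact_mod_cast Finset.card_pos.2 ⟨1, this⟩
  have hNpos : (0 : ℝ) < Fintype.card C := by
    have : Nonempty C := ⟨0⟩
    exact_mod_cast Fintype.card_pos
  have hgap : ∀ ψ : AddChar C ℂ, ψ ≠ 0 →
      ‖∑ u ∈ UU bar, ψ u - ((w * (UU bar).card : ℝ) : ℂ)‖ ≤ r * (UU bar).card := by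
    intro ψ hψ
    obtain ⟨h1, h2⟩ := two_sided hg hlo hhi bar hbar hid M hM hloc hne hcard ψ
      (fun h => hψ (h.trans AddChar.one_eq_zero))
    have h3 : ∑ u ∈ UU bar, ψ u = (((∑ u ∈ UU bar, ψ u).re : ℝ) : ℂ) := by
      apply Complex.ext
      · rw [Complex.ofReal_re]
      · rw [Complex.ofReal_im, im_eq_zero]
    rw [h3, ← Complex.ofReal_sub, Complex.norm_real, Real.norm_eq_abs, abs_le, hw, hr]
    constructor <;> linarith
  have hmix := mixing_two (UU bar) w r hw0 hr0 hgap f g hf hg' (mean f) (mean g) rfl rfl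
  have hcross : (1 - w) * (mean f * mean g) - r / 2 * (mean f * (1 - mean f) +
      mean g * (1 - mean g)) ≤ cross (UU bar) f g := by
    unfold cross
    rw [le_div_iff₀ (mul_pos hNpos hUpos)]
    linarith
  have hm1 : ∀ k : C → ℝ, Unit01 k → mean k ≤ 1 := by
    intro k hk
    unfold mean
    rw [div_le_one hNpos]
    calc ∑ h, k h ≤ ∑ _h : C, (1 : ℝ) := Finset.sum_le_sum fun h _ => (hk h).2
      _ = _ := by simp
  have hs1 := hm1 f hf
  have ht1 := hm1 g hg'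
  set s := mean f
  set t := mean g
  have hθ2 : θ ≤ 1 := hfθ.trans hs1
  have h1w : 0 ≤ 1 - w := by
    have h1 : 0 ≤ r * (1 - θ) := mul_nonneg hr0 (by linarith)
    by_contra hneg
    push Not at hneg
    have h2 : (1 - w) * θ < 0 := mul_neg_of_neg_of_pos hneg hθ
    linarith
  have hA : r / 2 * (1 - s - θ) ≤ (1 - w) * t := by
    have h1 : r / 2 * (1 - s - θ) ≤ r / 2 * (2 * (1 - θ)) :=
      mul_le_mul_of_nonneg_left (by linarith) (by linarith)
    have h2 : (1 - w) * θ ≤ (1 - w) * t := mul_le_mul_of_nonneg_left hgθ h1w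
    linarith
  have hB : r / 2 * (1 - t - θ) ≤ (1 - w) * θ := by
    have h1 : r / 2 * (1 - t - θ) ≤ r / 2 * (2 * (1 - θ)) :=
      mul_le_mul_of_nonneg_left (by linarith) (by linarith)
    linarith
  have hA' := mul_nonneg (sub_nonneg.2 hfθ) (sub_nonneg.2 hA)
  have hB' := mul_nonneg (sub_nonneg.2 hgθ) (sub_nonneg.2 hB)
  refine le_trans ?_ hcross
  nlinarith

end Pool.Agent.MP_8b8716_co_QR
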