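import Mathlib
import Pool.Agent.Lib.MP_8b8716_co_QR.Defs

set_option autoImplicit false

/-!
# MP_8b8716_co, project QR, module RT: rounding with triangles
-/

noncomputable section

namespace Pool.Agent.MP_8b8716_co_QR

open NumberField
open Pool.Agent.MP_8b8716_co_HN
open Pool.Agent.MP_8b8716_co_QG

namespace RT

variable {B C : Type} [CommRing B] [Fintype B] [CommRing C] [Fintype C]

open Classical in
private theorem mem_UU {bar : B →+* B} {u : B} : u ∈ UU bar ↔ u * bar u = 1 := by
  unfold UU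
  rw [Finset.mem_filter]
  exact ⟨fun h => h.2, fun h => ⟨Finset.mem_univ _, h⟩⟩

private theorem one_mem (bar : B →+* B) : (1 : B) ∈ UU bar := by
  rw [mem_UU, map_one, mul_one]

private theorem card_pos' (bar : B →+* B) : (0 : ℝ) < (UU bar).card := by
  have := Finset.card_pos.2 ⟨1, one_mem bar⟩
  exact_mod_cast this

private theorem cardB_pos : (0 : ℝ) < Fintype.card B := by
  have := Fintype.card_pos (α := B)
  exact_mod_cast this

private theorem UU_prod (barB : B →+* B) (barC : C →+* C) :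
    UU (barB.prodMap barC) = UU barB ×ˢ UU barC := by
  ext ⟨u, v⟩
  rw [Finset.mem_product, mem_UU, mem_UU, mem_UU]
  simp [Prod.ext_iff]

private theorem cross_prod' (barB : B →+* B) (barC : C →+* C) (f g : B × C → ℝ) :
    cross (UU (barB.prodMap barC)) f g * (Fintype.card B * (UU barB).card) =
      ∑ b, ∑ u ∈ UU barB, cross (UU barC)
      (fun c => f (b + u, c)) (fun c => g (b, c)) := by
  have h1 := card_pos' barB
  have h2 := card_pos' barC
  have h3 := cardB_pos (B := B)
  have h4 := cardB_pos (B := C)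
  unfold cross
  rw [UU_prod, Finset.card_product, Fintype.card_prod, Fintype.sum_prod_type]
  push_cast
  have h5 : ∀ b : B, ∑ c : C, ∑ u ∈ UU barB ×ˢ UU barC, f ((b, c) + u) * g (b, c) =
      ∑ u ∈ UU barB, ∑ c : C, ∑ v ∈ UU barC, f (b + u, c + v) * g (b, c) := by
    intro b
    rw [Finset.sum_comm, Finset.sum_product]
    refine Finset.sum_congr rfl fun u _ => ?_
    rw [Finset.sum_comm]
    rfl
  rw [Finset.sum_congr rfl fun b _ => h5 b]
  simp_rw [← Finset.sum_div]
  field_simp

private theorem sub_sum {bar : B →+* B} (w v : B) (hw : w * bar w = 1) (F : B → B → ℝ) :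
    ∑ b, ∑ u ∈ UU bar, F (b + v * u + w * u) (b + v * u) = ∑ b, ∑ u ∈ UU bar, F (b + u) b := by
  rw [Finset.sum_comm, Finset.sum_comm (s := Finset.univ) (t := UU bar)]
  have h1 : ∀ u ∈ UU bar, ∑ b, F (b + v * u + w * u) (b + v * u) = ∑ b, F (b + w * u) b := by
    intro u _
    exact Fintype.sum_equiv (Equiv.addRight (v * u)) _ _ fun b => rfl
  rw [Finset.sum_congr rfl h1]
  have hinj : ∀ a, bar w * (w * a) = a := by
    intro a
    rw [← mul_assoc, mul_comm (bar w), hw, one_mul]
  have hinj2 : ∀ a, w * (bar w * a) = a := by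
    intro a
    rw [← mul_assoc, hw, one_mul]
  refine Finset.sum_nbij (fun u => w * u) ?_ ?_ ?_ ?_
  · intro u hu
    rw [mem_UU] at hu ⊢
    rw [map_mul]
    calc w * u * (bar w * bar u) = (w * bar w) * (u * bar u) := by ring
      _ = 1 := by rw [hw, hu, one_mul]
  · intro u _ u' _ h
    have h' : bar w * (w * u) = bar w * (w * u') := congrArg _ h
    rwa [hinj, hinj] at h'
  · intro u hu
    refine ⟨bar w * u, ?_, hinj2 u⟩
    have hu' : u ∈ UU bar := hu
    rw [mem_UU] at hu'
    have hww : bar w * bar (bar w) = 1 := by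
      rw [← map_mul, hw, map_one]
    show bar w * u ∈ UU bar
    rw [mem_UU, map_mul]
    calc bar w * u * (bar (bar w) * bar u) = (bar w * bar (bar w)) * (u * bar u) := by ring
      _ = 1 := by rw [hww, hu', one_mul]
  · intro u _
    rfl

private theorem cross_nonneg' {U : Finset C} {f g : C → ℝ} (hf : ∀ c, 0 ≤ f c)
    (hg : ∀ c, 0 ≤ g c) : 0 ≤ cross U f g := by
  unfold cross
  refine div_nonneg (Finset.sum_nonneg fun h _ => Finset.sum_nonneg fun u _ =>
    mul_nonneg (hf _) (hg _)) (by positivity)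

private theorem unit_of_smp {k : ℕ} {A : Type} {G : Fin k → A → ℝ} (h : Smp k G) (i : Fin k) :
    Unit01 (G i) := by
  intro a
  refine ⟨h.1 i a, ?_⟩
  rw [← h.2 a]
  exact Finset.single_le_sum (f := fun i => G i a) (fun j _ => h.1 j a) (Finset.mem_univ i)

private theorem sum_mean {k : ℕ} {G : Fin k → C → ℝ} (h : Smp k G) :
    ∑ i, mean (G i) = 1 := by
  unfold mean
  rw [← Finset.sum_div, Finset.sum_comm, Finset.sum_congr rfl fun c _ => h.2 c]
  have := cardB_pos (B := C)
  simp

open Classical in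
private theorem tri_main {barB : B →+* B} {barC : C →+* C} {s0 θ k0 κ Kc ε : ℝ}
    (h3 : s0 ≤ 1 - 3 * θ) (hK : 0 ≤ Kc) (hT : TriC s0 θ k0 κ Kc barC)
    {ζ : B} (hζ : ζ * barB ζ = 1) (hζ2 : ζ ^ 2 - ζ + 1 = 0)
    (g0 g1 g2 : Fin 4 → B × C → ℝ) (s1 : Smp 4 g0) (s2 : Smp 4 g1) (s3 : Smp 4 g2)
    (c1 : ∀ i, cross (UU (barB.prodMap barC)) (g0 i) (g1 i) ≤ ε)
    (c2 : ∀ i, cross (UU (barB.prodMap barC)) (g0 i) (g2 i) ≤ ε)
    (c3 : ∀ i, cross (UU (barB.prodMap barC)) (g1 i) (g2 i) ≤ ε) :
    ((Finset.univ.filter fun b : B => ∀ i, mean (fun c => g0 i (b, c)) < θ).card : ℝ) *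
      (2 - (4 * k0 - κ)) ≤ 12 * Kc * ε * Fintype.card B := by
  set W := Finset.univ.filter fun b : B => ∀ i, mean (fun c => g0 i (b, c)) < θ with hW
  have hU := card_pos' barB
  have hBp := cardB_pos (B := B)
  have hbz : barB ζ = 1 - ζ := by
    have h5 : ζ * (1 - ζ) = 1 := by linear_combination -hζ2
    calc barB ζ = (ζ * (1 - ζ)) * barB ζ := by rw [h5, one_mul]
      _ = (ζ * barB ζ) * (1 - ζ) := by ring
      _ = 1 - ζ := by rw [hζ, one_mul]
  have hw1 : (-1 : B) * barB (-1) = 1 := by
    rw [map_neg, map_one]; ring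
  have hw2 : (-ζ) * barB (-ζ) = 1 := by
    rw [map_neg, neg_mul_neg, hζ]
  have hw3 : (1 - ζ) * barB (1 - ζ) = 1 := by
    rw [map_sub, map_one, hbz]
    linear_combination -hζ2
  -- the three crosses
  have e1 : ∀ i, ∑ b, ∑ u ∈ UU barB, cross (UU barC) (fun c => g0 i (b, c))
      (fun c => g1 i (b + u, c)) =
      cross (UU (barB.prodMap barC)) (g0 i) (g1 i) * (Fintype.card B * (UU barB).card) := by
    intro i
    rw [cross_prod', ← sub_sum (-1) 1 hw1 fun p q => cross (UU barC) (fun c => g0 i (p, c))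
      (fun c => g1 i (q, c))]
    refine Finset.sum_congr rfl fun b _ => Finset.sum_congr rfl fun u _ => ?_
    have h6 : b + 1 * u + -1 * u = b := by ring
    have h7 : b + 1 * u = b + u := by ring
    rw [h6, h7]
  have e2 : ∀ i, ∑ b, ∑ u ∈ UU barB, cross (UU barC) (fun c => g0 i (b, c))
      (fun c => g2 i (b + ζ * u, c)) =
      cross (UU (barB.prodMap barC)) (g0 i) (g2 i) * (Fintype.card B * (UU barB).card) := by
    intro i
    rw [cross_prod', ← sub_sum (-ζ) ζ hw2 fun p q => cross (UU barC) (fun c => g0 i (p, c))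
      (fun c => g2 i (q, c))]
    refine Finset.sum_congr rfl fun b _ => Finset.sum_congr rfl fun u _ => ?_
    have h6 : b + ζ * u + -ζ * u = b := by ring
    rw [h6]
  have e3 : ∀ i, ∑ b, ∑ u ∈ UU barB, cross (UU barC) (fun c => g1 i (b + u, c))
      (fun c => g2 i (b + ζ * u, c)) =
      cross (UU (barB.prodMap barC)) (g1 i) (g2 i) * (Fintype.card B * (UU barB).card) := by
    intro i
    rw [cross_prod', ← sub_sum (1 - ζ) ζ hw3 fun p q => cross (UU barC) (fun c => g1 i (p, c))
      (fun c => g2 i (q, c))]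
    refine Finset.sum_congr rfl fun b _ => Finset.sum_congr rfl fun u _ => ?_
    have h6 : b + ζ * u + (1 - ζ) * u = b + u := by ring
    rw [h6]
  have n1 : ∀ i p q, 0 ≤ cross (UU barC) (fun c => g0 i (p, c)) (fun c => g1 i (q, c)) :=
    fun i p q => cross_nonneg' (fun c => s1.1 i _) fun c => s2.1 i _
  have n2 : ∀ i p q, 0 ≤ cross (UU barC) (fun c => g0 i (p, c)) (fun c => g2 i (q, c)) :=
    fun i p q => cross_nonneg' (fun c => s1.1 i _) fun c => s3.1 i _
  have n3 : ∀ i p q, 0 ≤ cross (UU barC) (fun c => g1 i (p, c)) (fun c => g2 i (q, c)) :=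
    fun i p q => cross_nonneg' (fun c => s2.1 i _) fun c => s3.1 i _
  -- slices
  have sl : ∀ {g : Fin 4 → B × C → ℝ}, Smp 4 g → ∀ b, Smp 4 fun i c => g i (b, c) :=
    fun h b => ⟨fun i c => h.1 i _, fun c => h.2 _⟩
  -- the pointwise inequality
  have key : ∀ b u, (if b ∈ W then (2 - (4 * k0 - κ)) else 0) ≤ Kc * ∑ i,
      (cross (UU barC) (fun c => g0 i (b, c)) (fun c => g1 i (b + u, c)) +
       cross (UU barC) (fun c => g0 i (b, c)) (fun c => g2 i (b + ζ * u, c)) +
       cross (UU barC) (fun c => g1 i (b + u, c)) (fun c => g2 i (b + ζ * u, c))) := by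
    intro b u
    split_ifs with hb
    · rw [hW, Finset.mem_filter] at hb
      have hb' := hb.2
      have m0 := sum_mean (sl s1 b)
      have m1 := sum_mean (sl s2 (b + u))
      have m2 := sum_mean (sl s3 (b + ζ * u))
      have hi : ∀ i, mean (fun c => g1 i (b + u, c)) + mean (fun c => g2 i (b + ζ * u, c)) ≤
          k0 - κ * mean (fun c => g0 i (b, c)) + Kc *
          (cross (UU barC) (fun c => g0 i (b, c)) (fun c => g1 i (b + u, c)) +
           cross (UU barC) (fun c => g0 i (b, c)) (fun c => g2 i (b + ζ * u, c)) +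
           cross (UU barC) (fun c => g1 i (b + u, c)) (fun c => g2 i (b + ζ * u, c))) := by
        intro i
        refine hT _ _ _ (unit_of_smp (sl s1 b) i) (unit_of_smp (sl s2 (b + u)) i)
          (unit_of_smp (sl s3 (b + ζ * u)) i) ?_ (hb' i).le
        refine h3.trans ?_
        rw [Fin.sum_univ_four] at m0
        have b0 := hb' 0
        have b1 := hb' 1
        have b2 := hb' 2
        have b3 := hb' 3
        fin_cases i
        · show 1 - 3 * θ ≤ mean (fun c => g0 0 (b, c)); linarith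
        · show 1 - 3 * θ ≤ mean (fun c => g0 1 (b, c)); linarith
        · show 1 - 3 * θ ≤ mean (fun c => g0 2 (b, c)); linarith
        · show 1 - 3 * θ ≤ mean (fun c => g0 3 (b, c)); linarith
      have hs := Finset.sum_le_sum fun (i : Fin 4) (_ : i ∈ Finset.univ) => hi i
      rw [Finset.sum_add_distrib, m1, m2, Finset.sum_add_distrib, Finset.sum_sub_distrib,
        ← Finset.mul_sum, ← Finset.mul_sum, m0] at hs
      have hc : ∑ _i : Fin 4, k0 = 4 * k0 := by simp
      rw [hc] at hs
      linarith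
    · exact mul_nonneg hK (Finset.sum_nonneg fun i _ =>
        add_nonneg (add_nonneg (n1 _ _ _) (n2 _ _ _)) (n3 _ _ _))
  -- summation
  have hsum := Finset.sum_le_sum fun (b : B) (_ : b ∈ Finset.univ) =>
    Finset.sum_le_sum fun (u : B) (_ : u ∈ UU barB) => key b u
  have hL : ∑ b : B, ∑ u ∈ UU barB, (if b ∈ W then (2 - (4 * k0 - κ)) else 0) =
      (W.card : ℝ) * (2 - (4 * k0 - κ)) * (UU barB).card := by
    simp_rw [Finset.sum_const, nsmul_eq_mul, ← Finset.mul_sum]
    rw [Finset.sum_ite_mem, Finset.univ_inter, Finset.sum_const, nsmul_eq_mul]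
    ring
  have hR : ∑ b : B, ∑ u ∈ UU barB, Kc * ∑ i : Fin 4,
      (cross (UU barC) (fun c => g0 i (b, c)) (fun c => g1 i (b + u, c)) +
       cross (UU barC) (fun c => g0 i (b, c)) (fun c => g2 i (b + ζ * u, c)) +
       cross (UU barC) (fun c => g1 i (b + u, c)) (fun c => g2 i (b + ζ * u, c))) =
      Kc * (∑ i : Fin 4, (cross (UU (barB.prodMap barC)) (g0 i) (g1 i) +
        cross (UU (barB.prodMap barC)) (g0 i) (g2 i) +
        cross (UU (barB.prodMap barC)) (g1 i) (g2 i))) *
        (Fintype.card B * (UU barB).card) := by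
    simp_rw [← Finset.mul_sum]
    rw [mul_assoc]
    congr 1
    rw [Finset.sum_mul]
    have h8 : ∀ b : B, ∑ u ∈ UU barB, ∑ i : Fin 4,
      (cross (UU barC) (fun c => g0 i (b, c)) (fun c => g1 i (b + u, c)) +
       cross (UU barC) (fun c => g0 i (b, c)) (fun c => g2 i (b + ζ * u, c)) +
       cross (UU barC) (fun c => g1 i (b + u, c)) (fun c => g2 i (b + ζ * u, c))) =
      ∑ i : Fin 4, ∑ u ∈ UU barB,
      (cross (UU barC) (fun c => g0 i (b, c)) (fun c => g1 i (b + u, c)) +
       cross (UU barC) (fun c => g0 i (b, c)) (fun c => g2 i (b + ζ * u, c)) +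
       cross (UU barC) (fun c => g1 i (b + u, c)) (fun c => g2 i (b + ζ * u, c))) :=
      fun b => Finset.sum_comm
    rw [Finset.sum_congr rfl fun b _ => h8 b, Finset.sum_comm]
    refine Finset.sum_congr rfl fun i _ => ?_
    simp_rw [Finset.sum_add_distrib]
    rw [e1, e2, e3]
    ring
  rw [hL, hR] at hsum
  have h9 : ∑ i : Fin 4, (cross (UU (barB.prodMap barC)) (g0 i) (g1 i) +
        cross (UU (barB.prodMap barC)) (g0 i) (g2 i) +
        cross (UU (barB.prodMap barC)) (g1 i) (g2 i)) ≤ 12 * ε := by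
    have : ∑ i : Fin 4, (cross (UU (barB.prodMap barC)) (g0 i) (g1 i) +
        cross (UU (barB.prodMap barC)) (g0 i) (g2 i) +
        cross (UU (barB.prodMap barC)) (g1 i) (g2 i)) ≤ ∑ _i : Fin 4, (ε + ε + ε) :=
      Finset.sum_le_sum fun i _ => add_le_add (add_le_add (c1 i) (c2 i)) (c3 i)
    refine this.trans (le_of_eq ?_)
    rw [Finset.sum_const, Finset.card_univ, Fintype.card_fin, nsmul_eq_mul]
    push_cast
    ring
  have h10 : (W.card : ℝ) * (2 - (4 * k0 - κ)) * (UU barB).card ≤
      (12 * Kc * ε * Fintype.card B) * (UU barB).card := by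
    refine hsum.trans ?_
    have h11 := mul_le_mul_of_nonneg_left h9 hK
    have h12 := mul_le_mul_of_nonneg_right h11 (mul_pos hBp hU).le
    refine h12.trans (le_of_eq ?_)
    ring
  exact le_of_mul_le_mul_right h10 hU

end RT

open Classical in
theorem tri_step {B C : Type} [CommRing B] [Fintype B] [CommRing C] [Fintype C]
    {barB : B →+* B} {barC : C →+* C} {s0 θ k0 κ Kc δ ε : ℝ} (h3 : s0 ≤ 1 - 3 * θ)
    (hk0 : 4 * k0 - κ < 2) (hK : 0 ≤ Kc) (hT : TriC s0 θ k0 κ Kc barC) (hδ : 0 < δ) (hε : 0 ≤ ε)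
    (hθ : 0 < θ) (hP : CrossT θ barC δ) (hB : ∃ ζ : B, ζ * barB ζ = 1 ∧ ζ ^ 2 - ζ + 1 = 0)
    {X : Set ℂ} (h1 : FamOn 4 (barB.prodMap barC) (Xp X) ε) :
    FamOn 4 barB X (ε / δ + 24 * Kc / (2 - (4 * k0 - κ)) * ε) := by
  obtain ⟨ζ, hζ, hζ2⟩ := hB
  obtain ⟨G, hG, hGc⟩ := h1
  have hU := RT.card_pos' barB
  have hBp := RT.cardB_pos (B := B)
  have hD : 0 < 2 - (4 * k0 - κ) := by linarith
  -- the colour
  let idx : ℂ → B → Fin 4 := fun x b =>
    if h : ∃ i, θ ≤ mean (fun c => G x i (b, c)) then h.choose else 0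
  have hidx : ∀ x b, (∃ i, θ ≤ mean (fun c => G x i (b, c))) →
      θ ≤ mean (fun c => G x (idx x b) (b, c)) := by
    intro x b h
    show θ ≤ mean (fun c => G x (if h : ∃ i, θ ≤ mean (fun c => G x i (b, c)) then h.choose
      else 0) (b, c))
    rw [dif_pos h]
    exact h.choose_spec
  let Wk : ℂ → Finset B := fun x =>
    Finset.univ.filter fun b : B => ∀ i, mean (fun c => G x i (b, c)) < θ
  have hXs : ∀ x ∈ X, x ∈ Xp X := fun x hx => ⟨x, hx, Or.inl rfl⟩
  have hexp : ‖Complex.exp (Real.pi / 3 * Complex.I)‖ = 1 := by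
    have : (Real.pi / 3 * Complex.I : ℂ) = ((Real.pi / 3 : ℝ) : ℂ) * Complex.I := by
      push_cast; ring
    rw [this, Complex.norm_exp_ofReal_mul_I]
  have hexp2 : ‖1 - Complex.exp (Real.pi / 3 * Complex.I)‖ = 1 := by
    have h0 : (Real.pi / 3 * Complex.I : ℂ) = ((Real.pi / 3 : ℝ) : ℂ) * Complex.I := by
      push_cast; ring
    have h5 : (1 : ℂ) - Complex.exp (Real.pi / 3 * Complex.I) =
        Complex.exp (((-(Real.pi / 3) : ℝ) : ℂ) * Complex.I) := by
      rw [h0, Complex.exp_mul_I, Complex.exp_mul_I, ← Complex.ofReal_cos, ← Complex.ofReal_sin,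
        ← Complex.ofReal_cos, ← Complex.ofReal_sin, Real.cos_neg, Real.sin_neg,
        Real.cos_pi_div_three]
      push_cast
      ring
    rw [h5, Complex.norm_exp_ofReal_mul_I]
  have hWk : ∀ x ∈ X, ((Wk x).card : ℝ) ≤ 12 * Kc * ε / (2 - (4 * k0 - κ)) * Fintype.card B := by
    intro x hx
    have hx1 : x + 1 ∈ Xp X := ⟨x, hx, Or.inr (Or.inl rfl)⟩
    have hx2 : x + Complex.exp (Real.pi / 3 * Complex.I) ∈ Xp X := ⟨x, hx, Or.inr (Or.inr rfl)⟩
    have d1 : ‖x - (x + 1)‖ = 1 := by
      rw [sub_add_cancel_left, norm_neg, norm_one]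
    have d2 : ‖x - (x + Complex.exp (Real.pi / 3 * Complex.I))‖ = 1 := by
      rw [sub_add_cancel_left, norm_neg, hexp]
    have d3 : ‖x + 1 - (x + Complex.exp (Real.pi / 3 * Complex.I))‖ = 1 := by
      rw [add_sub_add_left_eq_sub, hexp2]
    have h := RT.tri_main h3 hK hT hζ hζ2 (G x) (G (x + 1))
      (G (x + Complex.exp (Real.pi / 3 * Complex.I))) (hG _) (hG _) (hG _)
      (hGc _ (hXs x hx) _ hx1 d1) (hGc _ (hXs x hx) _ hx2 d2) (hGc _ hx1 _ hx2 d3)
    rw [div_mul_eq_mul_div, le_div_iff₀ hD]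
    exact h
  refine ⟨fun x i b => if i = idx x b then 1 else 0, ?_, ?_⟩
  · intro x
    refine ⟨fun i b => ?_, fun b => ?_⟩
    · show (0 : ℝ) ≤ if i = idx x b then 1 else 0
      split_ifs <;> norm_num
    · show ∑ i, (if i = idx x b then (1 : ℝ) else 0) = 1
      rw [Finset.sum_ite_eq']
      simp
  · intro x hx y hy hxy i
    have hcr := hGc x (hXs x hx) y (hXs y hy) hxy i
    have hpt : ∀ b, ∀ u ∈ UU barB, (if i = idx x (b + u) then (1 : ℝ) else 0) *
        (if i = idx y b then (1 : ℝ) else 0) ≤ (if b + u ∈ Wk x then 1 else 0) +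
        (if b ∈ Wk y then 1 else 0) + 1 / δ * cross (UU barC) (fun c => G x i (b + u, c))
        (fun c => G y i (b, c)) := by
      intro b u _
      have hn : 0 ≤ 1 / δ * cross (UU barC) (fun c => G x i (b + u, c))
        (fun c => G y i (b, c)) := mul_nonneg (by positivity)
          (RT.cross_nonneg' (fun c => (hG x).1 i _) fun c => (hG y).1 i _)
      by_cases ha : b + u ∈ Wk x
      · rw [if_pos ha]
        split_ifs <;> linarith
      by_cases hb : b ∈ Wk y
      · rw [if_neg ha, if_pos hb]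
        split_ifs <;> linarith
      rw [if_neg ha, if_neg hb]
      by_cases hc : i = idx x (b + u)
      · by_cases hd : i = idx y b
        · rw [if_pos hc, if_pos hd]
          have ha' : ∃ i, θ ≤ mean (fun c => G x i (b + u, c)) := by
            by_contra hcon
            push Not at hcon
            exact ha (Finset.mem_filter.2 ⟨Finset.mem_univ _, hcon⟩)
          have hb' : ∃ i, θ ≤ mean (fun c => G y i (b, c)) := by
            by_contra hcon
            push Not at hcon
            exact hb (Finset.mem_filter.2 ⟨Finset.mem_univ _, hcon⟩)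
          have hc' := hidx x (b + u) ha'
          have hd' := hidx y b hb'
          rw [← hc] at hc'
          rw [← hd] at hd'
          have hcro := hP (fun c => G x i (b + u, c)) (fun c => G y i (b, c))
            (fun c => RT.unit_of_smp (hG x) i _) (fun c => RT.unit_of_smp (hG y) i _) hc' hd'
          have : (1 : ℝ) ≤ 1 / δ * cross (UU barC) (fun c => G x i (b + u, c))
            (fun c => G y i (b, c)) := by
            rw [one_div, ← inv_mul_cancel₀ hδ.ne']
            exact mul_le_mul_of_nonneg_left hcro (inv_pos.2 hδ).le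
          linarith
        · rw [if_neg hd]
          linarith
      · rw [if_neg hc]
        linarith
    have hsum := Finset.sum_le_sum fun (b : B) (_ : b ∈ Finset.univ) =>
      Finset.sum_le_sum fun (u : B) (hu : u ∈ UU barB) => hpt b u hu
    have e1 : ∑ b : B, ∑ u ∈ UU barB, (if b + u ∈ Wk x then (1 : ℝ) else 0) =
        (UU barB).card * (Wk x).card := by
      rw [Finset.sum_comm]
      have : ∀ u ∈ UU barB, ∑ b : B, (if b + u ∈ Wk x then (1 : ℝ) else 0) = (Wk x).card := by
        intro u _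
        rw [Fintype.sum_equiv (Equiv.addRight u) (fun b => if b + u ∈ Wk x then (1 : ℝ) else 0)
          (fun b => if b ∈ Wk x then (1 : ℝ) else 0) fun b => rfl, Finset.sum_ite_mem,
          Finset.univ_inter]
        simp
      rw [Finset.sum_congr rfl this, Finset.sum_const, nsmul_eq_mul]
    have e2 : ∑ b : B, ∑ u ∈ UU barB, (if b ∈ Wk y then (1 : ℝ) else 0) =
        (UU barB).card * (Wk y).card := by
      simp_rw [Finset.sum_const, nsmul_eq_mul, ← Finset.mul_sum]
      rw [Finset.sum_ite_mem, Finset.univ_inter]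
      simp
    have e3 : ∑ b : B, ∑ u ∈ UU barB, 1 / δ * cross (UU barC) (fun c => G x i (b + u, c))
        (fun c => G y i (b, c)) = 1 / δ * (cross (UU (barB.prodMap barC)) (G x i) (G y i) *
        (Fintype.card B * (UU barB).card)) := by
      simp_rw [← Finset.mul_sum]
      rw [RT.cross_prod']
    simp_rw [Finset.sum_add_distrib] at hsum
    rw [e1, e2, e3] at hsum
    show (∑ h, ∑ u ∈ UU barB, (if i = idx x (h + u) then (1 : ℝ) else 0) *
      (if i = idx y h then (1 : ℝ) else 0)) / (Fintype.card B * (UU barB).card) ≤ _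
    rw [div_le_iff₀ (mul_pos hBp hU)]
    refine hsum.trans ?_
    have hx' := mul_le_mul_of_nonneg_left (hWk x hx) hU.le
    have hy' := mul_le_mul_of_nonneg_left (hWk y hy) hU.le
    have hz : 1 / δ * (cross (UU (barB.prodMap barC)) (G x i) (G y i) *
        (Fintype.card B * (UU barB).card)) ≤ 1 / δ * (ε * (Fintype.card B * (UU barB).card)) :=
      mul_le_mul_of_nonneg_left (mul_le_mul_of_nonneg_right hcr (mul_pos hBp hU).le)
        (by positivity)
    have hfin : (UU barB).card * (12 * Kc * ε / (2 - (4 * k0 - κ)) * Fintype.card B) +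
        (UU barB).card * (12 * Kc * ε / (2 - (4 * k0 - κ)) * Fintype.card B) +
        1 / δ * (ε * (Fintype.card B * (UU barB).card)) =
        (ε / δ + 24 * Kc / (2 - (4 * k0 - κ)) * ε) * (Fintype.card B * (UU barB).card) := by
      field_simp
      ring
    linarith

end Pool.Agent.MP_8b8716_co_QR
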