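import Mathlib
import Pool.Agent.Lib.MP_8b8716_co_QG.GFld
import Pool.Agent.Lib.MP_8b8716_co_QG.GRing
import Pool.Agent.Lib.MP_8b8716_co_QP.PAQ
import Pool.Agent.Lib.MP_8b8716_co_QR.Defs

set_option autoImplicit false

/-!
# MP_8b8716_co, project QR, module RZ: sixth roots of unity
-/

noncomputable section

namespace Pool.Agent.MP_8b8716_co_QR

open NumberField
open Pool.Agent.MP_8b8716_co_HN
open Pool.Agent.MP_8b8716_co_QG
open Pool.Agent.MP_8b8716_co_QP

namespace RZ

section field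
variable {K : Type} [Field K] [Fintype K]

theorem eleven (hc : Fintype.card K = 11 ^ 2) : (11 : K) = 0 := by
  have h := Nat.cast_card_eq_zero K
  rw [hc] at h
  push_cast at h
  have h2 : (11 : K) ^ 2 = 0 := by rw [← h]; norm_num
  exact pow_eq_zero_iff (n := 2) (by norm_num) |>.1 h2

theorem three (hc : Fintype.card K = 11 ^ 2) : (3 : K) ≠ 0 := by
  intro h
  have h1 := eleven hc
  have h2 : (1 : K) = 0 := by linear_combination 4 * h - h1
  exact one_ne_zero h2

theorem two (hc : Fintype.card K = 11 ^ 2) : (2 : K) ≠ 0 := by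
  intro h
  have h1 := eleven hc
  have h2 : (1 : K) = 0 := by linear_combination h1 - 5 * h
  exact one_ne_zero h2

theorem exists_root (hc : Fintype.card K = 11 ^ 2) : ∃ x : K, x ^ 2 - x + 1 = 0 := by
  have h11 := eleven hc
  have h3 := three hc
  have h2 := two hc
  have hsq : IsSquare (-3 : K) := by
    rw [FiniteField.isSquare_iff]
    · rw [hc]
      have h5 : (-3 : K) ^ 5 = -1 := by
        have : (-3 : K) ^ 5 = -1 - 22 * 11 := by norm_num
        rw [this, h11]
        ring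
      have h60 : (11 ^ 2 / 2 : ℕ) = 5 * 12 := by norm_num
      rw [h60, pow_mul, h5]
      norm_num
    · intro hr
      have := ringChar.Nat.cast_ringChar (R := K)
      rw [hr] at this
      exact h2 (by exact_mod_cast this)
    · exact neg_ne_zero.2 h3
  obtain ⟨y, hy⟩ := hsq
  refine ⟨(1 + y) / 2, ?_⟩
  field_simp
  linear_combination -hy

theorem bar_ne (hc : Fintype.card K = 11 ^ 2) (bar : K →+* K) (hbar : ∀ a, bar (bar a) = a)
    (hne : ∃ a, bar a ≠ a) {x : K} (hx : x ^ 2 - x + 1 = 0) : bar x ≠ x := by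
  classical
  intro hb
  have h3 := three hc
  have hcard : Fintype.card (fx bar) = 11 := by
    have h := card_eq_fx bar hbar hne
    rw [hc] at h
    exact (Nat.pow_left_injective (n := 2) (by norm_num) h).symm
  have hp := FiniteField.pow_card (⟨x, hb⟩ : fx bar)
  rw [hcard] at hp
  have hp2 : x ^ 11 = x := congrArg Subtype.val hp
  have h4 : x ^ 3 = -1 := by linear_combination (x + 1) * hx
  have h5 : x ^ 2 = 1 := by
    have : x ^ 2 = x * x ^ 11 := by rw [hp2]; ring
    rw [this]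
    have : x * x ^ 11 = (x ^ 3) ^ 4 := by ring
    rw [this, h4]
    norm_num
  have h6 : x = 2 := by linear_combination h5 - hx
  rw [h6] at h5
  exact h3 (by linear_combination h5)

end field

theorem zeta_ring {A : Type} [CommRing A] [Fintype A] (bar : A →+* A)
    (hbar : ∀ a, bar (bar a) = a) (hid : ∀ I : Ideal A, ∀ a ∈ I, bar a ∈ I)
    (hmax : ∀ M : Ideal A, M.IsMaximal →
      (∃ a, bar a - a ∉ M) ∧ ∃ q ∈ ({11} : Set ℕ), Nat.card (A ⧸ M) = q ^ 2) :
    ∃ ζ : A, ζ * bar ζ = 1 ∧ ζ ^ 2 - ζ + 1 = 0 := by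
  classical
  have hK : ∀ M : Ideal A, M.IsMaximal → ∃ (K : Type) (_ : Field K) (_ : Fintype K)
      (barK : K →+* K) (π : A →+* K), Function.Surjective π ∧ (∀ a, π a = 0 ↔ a ∈ M) ∧
      (∀ a, barK (π a) = π (bar a)) ∧ (∀ x, barK (barK x) = x) ∧ (∃ x, barK x ≠ x) ∧
      Fintype.card K = 11 ^ 2 := by
    intro M hM
    obtain ⟨K, iK, fK, dK, barK, π, h1, h2, h3, h4, h5, q, hq, h6⟩ :=
      GRing.exists_field bar hbar hid hmax M hM
    rw [Set.mem_singleton_iff] at hq
    subst hq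
    exact ⟨K, iK, fK, barK, π, h1, h2, h3, h4, h5, h6⟩
  have hroot : ∀ M : MaximalSpectrum A, ∃ a : A, a ^ 2 - a + 1 ∈ M.asIdeal := by
    intro M
    obtain ⟨K, iK, fK, barK, π, h1, h2, h3, h4, h5, h6⟩ := hK M.asIdeal M.isMaximal
    obtain ⟨x, hx⟩ := exists_root h6
    obtain ⟨a, rfl⟩ := h1 x
    refine ⟨a, (h2 _).1 ?_⟩
    rw [map_add, map_sub, map_pow, map_one, hx]
  choose a ha using hroot
  have hfin : Finite (MaximalSpectrum A) := inferInstance
  obtain ⟨x, hx⟩ := Ideal.exists_forall_sub_mem_ideal (I := fun M : MaximalSpectrum A => M.asIdeal)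
    (fun M M' hne => by
      have := M.isMaximal
      have := M'.isMaximal
      exact Ideal.isCoprime_of_isMaximal fun h => hne (MaximalSpectrum.ext h)) a
  have hxM : ∀ M : Ideal A, M.IsMaximal → x ^ 2 - x + 1 ∈ M := by
    intro M hM
    have h1 : x - a ⟨M, hM⟩ ∈ M := hx ⟨M, hM⟩
    have h2 : a ⟨M, hM⟩ ^ 2 - a ⟨M, hM⟩ + 1 ∈ M := ha ⟨M, hM⟩
    have h3 : x ^ 2 - x + 1 = (x - a ⟨M, hM⟩) * (x + a ⟨M, hM⟩ - 1) +
        (a ⟨M, hM⟩ ^ 2 - a ⟨M, hM⟩ + 1) := by ring
    rw [h3]
    exact M.add_mem (M.mul_mem_right _ h1) h2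
  have hnil : IsNilpotent (x ^ 2 - x + 1) := by
    rw [← mem_nilradical, nilradical_eq_sInf, Ideal.mem_sInf]
    intro J hJ
    have hJ' : J.IsPrime := hJ
    exact hxM J (IsArtinianRing.isMaximal_of_isPrime J)
  have hunit : ∀ y : A, (∀ M : Ideal A, M.IsMaximal → y ∉ M) → IsUnit y := by
    intro y hy
    by_contra h
    obtain ⟨M, hM, hyM⟩ := exists_max_ideal_of_mem_nonunits h
    exact hy M hM hyM
  have hder : IsUnit (2 * x - 1) := by
    refine hunit _ fun M hM h => ?_
    obtain ⟨K, iK, fK, barK, π, h1, h2, h3, h4, h5, h6⟩ := hK M hM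
    apply three h6
    have e1 := (h2 _).2 h
    have e2 := (h2 _).2 (hxM M hM)
    simp only [map_sub, map_mul, map_add, map_pow, map_one, map_ofNat] at e1 e2
    linear_combination 4 * e2 - (2 * π x - 1) * e1
  obtain ⟨ζ, ⟨-, hζ⟩, -⟩ := Polynomial.existsUnique_nilpotent_sub_and_aeval_eq_zero
    (R := A) (S := A) (x := x) (P := Polynomial.X ^ 2 - Polynomial.X + 1) (by simpa using hnil)
    (by
      have : (Polynomial.aeval x) (Polynomial.derivative
          (Polynomial.X ^ 2 - Polynomial.X + 1 : Polynomial A)) = 2 * x - 1 := by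
        simp
        ring
      rw [this]
      exact hder)
  have hζ' : ζ ^ 2 - ζ + 1 = 0 := by simpa using hζ
  have hb : (bar ζ) ^ 2 - bar ζ + 1 = 0 := by
    have := congrArg bar hζ'
    simpa using this
  have hu : IsUnit (bar ζ - ζ) := by
    refine hunit _ fun M hM h => ?_
    obtain ⟨K, iK, fK, barK, π, h1, h2, h3, h4, h5, h6⟩ := hK M hM
    have e1 := (h2 _).2 h
    rw [map_sub, ← h3, sub_eq_zero] at e1
    refine bar_ne h6 barK h4 h5 (x := π ζ) ?_ e1
    have := congrArg π hζ'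
    simpa using this
  have hz : (bar ζ - (1 - ζ)) * (bar ζ - ζ) = 0 := by linear_combination hb - hζ'
  have hr : bar ζ - (1 - ζ) = 0 := (hu.mul_left_eq_zero).1 hz
  refine ⟨ζ, ?_, hζ'⟩
  linear_combination ζ * hr - hζ'

end RZ

section
variable {E : Subfield ℂ} [NumberField E] [Cj E] {S : Set (Ideal (𝓞 E))} {m : ℕ}

theorem exists_zeta (hm : 0 < m) (h : BBS E S {11}) :
    ∃ ζ : AQ E S m, ζ * barQ E S m ζ = 1 ∧ ζ ^ 2 - ζ + 1 = 0 := by
  have hfin : Finite (AQ E S m) := AQ_finite hm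
  have ft : Fintype (AQ E S m) := Fintype.ofFinite _
  exact RZ.zeta_ring (barQ E S m) barQ_barQ (AQ_hid hm) (AQ_max h hm)

end

end Pool.Agent.MP_8b8716_co_QR
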