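import Mathlib
import Pool.Agent.Lib.MP_8b8716_co_QR.Defs
import Pool.Agent.Lib.MP_8b8716_co_QG.GRing
import Pool.Agent.Lib.MP_8b8716_co_QP.PAQ
import Pool.Agent.Lib.MP_8b8716_co_QR.RB2
import Pool.Agent.Lib.MP_8b8716_co_QR.RG
import Pool.Agent.Lib.MP_8b8716_co_QR.RC
import Pool.Agent.Lib.MP_8b8716_co_QR.RT
import Pool.Agent.Lib.MP_8b8716_co_QR.RD
import Pool.Agent.Lib.MP_8b8716_co_QR.RZ
import Pool.Agent.Lib.MP_8b8716_co_QR.RBad

set_option autoImplicit false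

/-!
# MP_8b8716_co, project QR, module RInd: all roundings
-/

noncomputable section

namespace Pool.Agent.MP_8b8716_co_QR

open NumberField
open Pool.Agent.MP_8b8716_co_HN
open Pool.Agent.MP_8b8716_co_QG
open Pool.Agent.MP_8b8716_co_QP

namespace RInd

/-! ### Elementary facts -/

theorem crossT_mono {θ : ℝ} {A : Type} [CommRing A] [Fintype A] {bar : A →+* A} {δ δ' : ℝ}
    (h : δ' ≤ δ) (hC : CrossT θ bar δ) : CrossT θ bar δ' := by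
  intro f g hf hg h1 h2
  exact h.trans (hC f g hf hg h1 h2)

theorem famOn_mono {k : ℕ} {A : Type} [CommRing A] [Fintype A] {bar : A →+* A} {X Y : Set ℂ}
    {ε ε' : ℝ} (hXY : X ⊆ Y) (hε : ε ≤ ε') (h : FamOn k bar Y ε) : FamOn k bar X ε' := by
  obtain ⟨G, h1, h2⟩ := h
  exact ⟨G, h1, fun x hx y hy hxy i => (h2 x (hXY hx) y (hXY hy) hxy i).trans hε⟩

theorem subset_Xp (X : Set ℂ) : X ⊆ Xp X := fun x hx => ⟨x, hx, Or.inl rfl⟩

theorem finite_Xp {X : Set ℂ} (hX : X.Finite) : (Xp X).Finite := by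
  refine ((hX.union (hX.image fun x => x + 1)).union
    (hX.image fun x => x + Complex.exp (Real.pi / 3 * Complex.I))).subset ?_
  rintro z ⟨x, hx, h | h | h⟩
  · exact Or.inl (Or.inl (h ▸ hx))
  · exact Or.inl (Or.inr ⟨x, hx, h.symm⟩)
  · exact Or.inr ⟨x, hx, h.symm⟩

theorem finite_iter {X : Set ℂ} (hX : X.Finite) (n : ℕ) : (Xp^[n] X).Finite := by
  induction n generalizing X with
  | zero => exact hX
  | succ n ih =>
    rw [Function.iterate_succ_apply]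
    exact ih (finite_Xp hX)

section

variable (E : Subfield ℂ) [Cj E]

/-- the family exists for every instance of finiteness -/
def Fam (S : Set (Ideal (𝓞 E))) (X : Set ℂ) (m : ℕ) (ε : ℝ) : Prop :=
  ∀ _ : Fintype (AQ E S m), FamOn 4 (barQ E S m) X ε

end

section

variable {E : Subfield ℂ} [NumberField E] [Cj E]

theorem fam_mono {S : Set (Ideal (𝓞 E))} {X : Set ℂ} {m : ℕ} {ε ε' : ℝ} (h : ε ≤ ε')
    (hF : Fam E S X m ε) : Fam E S X m ε' :=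
  fun i => famOn_mono (le_refl X) h (hF i)

/-- removing the places in `W` by rounding pairs -/
theorem step_pair {S W : Set (Ideal (𝓞 E))} (hW : Disjoint W S) {m : ℕ} (hm : 0 < m) {δ : ℝ}
    (hδ : 0 < δ) (hC : ∀ _ : Fintype (AQ E Wᶜ m), CrossT (1 / (4 : ℕ)) (barQ E Wᶜ m) δ)
    {X : Set ℂ} {ε : ℝ} (hε : 0 ≤ ε) (h : Fam E S X m ε) : Fam E (S ∪ W) X m (ε / δ) := by
  intro i1
  have : Finite (AQ E S m) := AQ_finite hm
  have : Finite (AQ E Wᶜ m) := AQ_finite hm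
  have i2 : Fintype (AQ E S m) := Fintype.ofFinite _
  have i3 : Fintype (AQ E Wᶜ m) := Fintype.ofFinite _
  obtain ⟨e, he⟩ := AQ_split (E := E) (S := S) hm hW
  have h1 := fam_equiv e he (h i2)
  exact pair_step (by norm_num) hδ hε (hC i3) h1

/-- the local ring at a stable place -/
theorem local_or {P : Ideal (𝓞 E)} {q : ℕ} (hq : Nat.card (𝓞 E ⧸ P) = q ^ 2)
    (ha : ∃ a : 𝓞 E, cO E a - a ∉ P) {m : ℕ} (hm : 0 < m) :
    Subsingleton (AQ E {P}ᶜ m) ∨ ∃ M : Ideal (AQ E {P}ᶜ m), M.IsMaximal ∧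
      (∀ M' : Ideal (AQ E {P}ᶜ m), M'.IsMaximal → M' = M) ∧
      (∃ a, barQ E {P}ᶜ m a - a ∉ M) ∧ Nat.card (AQ E {P}ᶜ m ⧸ M) = q ^ 2 := by
  rcases subsingleton_or_nontrivial (AQ E {P}ᶜ m) with h | h
  · exact Or.inl h
  · right
    obtain ⟨M, hM⟩ := Ideal.exists_maximal (AQ E {P}ᶜ m)
    have hB : BBS E {P}ᶜ {q} := by
      intro P' _ hP'
      have h1 : P' = P := by simpa using hP'
      subst h1
      exact ⟨⟨q, rfl, hq⟩, ha⟩
    obtain ⟨h1, q', hq', h2⟩ := AQ_max hB hm M hM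
    have h3 : q' = q := hq'
    subst h3
    exact ⟨M, hM, fun M' hM' => AQ_local hm P M M' hM hM', h1, h2⟩

/-- kind (a) -/
theorem step_a {Q : Set ℕ} {lam : ℝ} (hg : GapAt Q lam) (hl : 3 * lam < 1)
    {W : Set (Ideal (𝓞 E))} (hB : BBS E Wᶜ Q) {S : Set (Ideal (𝓞 E))} (hW : Disjoint W S) :
    ∃ c : ℝ, 0 < c ∧ ∀ (m : ℕ), 0 < m → ∀ (X : Set ℂ) (ε : ℝ), 0 ≤ ε → Fam E S X m ε →
      Fam E (S ∪ W) X m (c * ε) := by
  have hδ : (0 : ℝ) < 1 / (4 : ℕ) * (1 / (4 : ℕ) - lam * (1 - 1 / (4 : ℕ))) := by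
    have : (0 : ℝ) < 1 / (4 : ℕ) - lam * (1 - 1 / (4 : ℕ)) := by
      push_cast; linarith
    positivity
  refine ⟨(1 / (4 : ℕ) * (1 / (4 : ℕ) - lam * (1 - 1 / (4 : ℕ))))⁻¹, inv_pos.2 hδ, ?_⟩
  intro m hm X ε hε h
  rw [mul_comm, ← div_eq_mul_inv]
  refine step_pair hW hm hδ ?_ hε h
  intro i
  classical
  refine crossT_of_gap (k := 4) (by norm_num) (barQ E Wᶜ m) hg.1 (by push_cast; linarith) ?_
  intro χ hχ
  exact gap_ring hg (barQ E Wᶜ m) barQ_barQ (AQ_hid hm) (AQ_max hB hm) _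
    (fun u => by simp [UU]) χ hχ

/-- kind (b) -/
theorem step_b {R : Set ℕ} {δ : ℝ} (hδ : 0 < δ) (hs : ∀ q ∈ R, SoftAt 4 q δ)
    {P : Ideal (𝓞 E)} {q : ℕ} (hqR : q ∈ R) (hq : Nat.card (𝓞 E ⧸ P) = q ^ 2)
    (ha : ∃ a : 𝓞 E, cO E a - a ∉ P) {S : Set (Ideal (𝓞 E))} (hP : P ∉ S) :
    ∀ (m : ℕ), 0 < m → ∀ (X : Set ℂ) (ε : ℝ), 0 ≤ ε → Fam E S X m ε →
      Fam E (S ∪ {P}) X m ((min δ ((1 / (4 : ℕ)) ^ 2))⁻¹ * ε) := by
  intro m hm X ε hε h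
  rw [mul_comm, ← div_eq_mul_inv]
  refine step_pair (Set.disjoint_singleton_left.2 hP) hm (lt_min hδ (by norm_num)) ?_ hε h
  intro i
  rcases local_or hq ha hm with h1 | ⟨M, hM, hloc, hne, hcard⟩
  · exact crossT_mono (min_le_right _ _) (crossT_subsingleton (by norm_num) _)
  · exact crossT_mono (min_le_left _ _) (soft_local (k := 4) (by norm_num) (hs q hqR) _ barQ_barQ
      (AQ_hid hm) M hM hloc hne hcard)

/-- kind (c) -/
theorem step_c {lo hi s0 θ k0 κ Kc : ℝ} (hg2 : GapTwo 11 lo hi)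
    (hlo : 1 / 6 ≤ -lo) (hhi : -lo ≤ hi) (hθ : 0 < θ)
    (hθ1 : (hi - lo) / 2 * (1 - θ) < (1 - (hi + lo) / 2) * θ) (h3 : s0 ≤ 1 - 3 * θ)
    (hk0 : 4 * k0 - κ < 2) (hK : 0 ≤ Kc) (ht : TriAt 11 s0 θ k0 κ Kc) :
    ∃ c : ℝ, 0 < c ∧ ∀ (P : Ideal (𝓞 E)), Nat.card (𝓞 E ⧸ P) = 11 ^ 2 →
      (∃ a : 𝓞 E, cO E a - a ∉ P) → ∀ S : Set (Ideal (𝓞 E)), P ∉ S → BBS E (S ∪ {P}) {11} →
      ∀ (m : ℕ), 0 < m → ∀ (X : Set ℂ) (ε : ℝ), 0 ≤ ε → Fam E S (Xp X) m ε →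
      Fam E (S ∪ {P}) X m (c * ε) := by
  set δ : ℝ := θ * ((1 - (hi + lo) / 2) * θ - (hi - lo) / 2 * (1 - θ)) with hδd
  have hδ : 0 < δ := mul_pos hθ (by linarith)
  have hk : 0 < 2 - (4 * k0 - κ) := by linarith
  set c : ℝ := 1 / δ + 24 * Kc / (2 - (4 * k0 - κ)) with hc
  have hc0 : 0 < c := by positivity
  refine ⟨max c 16, lt_of_lt_of_le hc0 (le_max_left _ _), ?_⟩
  intro P hq ha S hP hB m hm X ε hε h
  rcases local_or hq ha hm with h1 | ⟨M, hM, hloc, hne, hcard⟩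
  · have h2 : Fam E (S ∪ {P}) X m (ε / (1 / (4 : ℕ)) ^ 2) := by
      refine step_pair (Set.disjoint_singleton_left.2 hP) hm (by norm_num) ?_ hε ?_
      · intro i
        exact crossT_subsingleton (by norm_num) _
      · intro i
        exact famOn_mono (subset_Xp X) le_rfl (h i)
    refine fam_mono ?_ h2
    have : ε / (1 / ((4 : ℕ) : ℝ)) ^ 2 = 16 * ε := by push_cast; ring
    rw [this]
    exact mul_le_mul_of_nonneg_right (le_max_right _ _) hε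
  · intro i1
    have : Finite (AQ E S m) := AQ_finite hm
    have : Finite (AQ E {P}ᶜ m) := AQ_finite hm
    have i2 : Fintype (AQ E S m) := Fintype.ofFinite _
    have i3 : Fintype (AQ E {P}ᶜ m) := Fintype.ofFinite _
    obtain ⟨e, he⟩ := AQ_split (E := E) (S := S) hm (Set.disjoint_singleton_left.2 hP)
    have h1 := fam_equiv e he (h i2)
    have hT : TriC s0 θ k0 κ Kc (barQ E {P}ᶜ m) :=
      tri_local hK ht _ barQ_barQ (AQ_hid hm) M hM hloc hne hcard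
    have hC : CrossT θ (barQ E {P}ᶜ m) δ :=
      gap2_local hg2 (by norm_num at hlo ⊢; linarith) hhi hθ hθ1.le _ barQ_barQ (AQ_hid hm) M hM
        hloc hne hcard
    have h4 := tri_step h3 hk0 hK hT hδ hε hθ hC (exists_zeta hm hB) h1
    refine famOn_mono le_rfl ?_ h4
    have : ε / δ + 24 * Kc / (2 - (4 * k0 - κ)) * ε = c * ε := by rw [hc]; ring
    rw [this]
    exact mul_le_mul_of_nonneg_right (le_max_left _ _) hε

/-- all the places of kind (b) -/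
theorem all_b {R : Set ℕ} {δ : ℝ} (hδ : 0 < δ) (hs : ∀ q ∈ R, SoftAt 4 q δ)
    {S V : Set (Ideal (𝓞 E))} (hV : V.Finite)
    (hR : ∀ P ∈ V, (∃ q ∈ R, Nat.card (𝓞 E ⧸ P) = q ^ 2) ∧ ∃ a : 𝓞 E, cO E a - a ∉ P) :
    ∃ c : ℝ, 0 < c ∧ ∀ (m : ℕ), 0 < m → ∀ (X : Set ℂ) (ε : ℝ), 0 ≤ ε → Fam E S X m ε →
      Fam E (S ∪ V) X m (c * ε) := by
  induction V, hV using Set.Finite.induction_on with
  | empty =>
    refine ⟨1, one_pos, fun m _ X ε _ h => ?_⟩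
    rw [Set.union_empty, one_mul]
    exact h
  | @insert P V _ _ ih =>
    obtain ⟨c, hc, h⟩ := ih fun P' hP' => hR P' (Set.mem_insert_of_mem _ hP')
    by_cases hP : P ∈ S ∪ V
    · refine ⟨c, hc, ?_⟩
      have h1 : S ∪ insert P V = S ∪ V := by
        rw [Set.union_insert, Set.insert_eq_of_mem hP]
      rw [h1]
      exact h
    · obtain ⟨⟨q, hqR, hq⟩, ha⟩ := hR P (Set.mem_insert _ _)
      have h1 : S ∪ insert P V = (S ∪ V) ∪ {P} := by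
        rw [Set.union_insert, Set.union_singleton]
      rw [h1]
      refine ⟨(min δ ((1 / (4 : ℕ)) ^ 2))⁻¹ * c,
        mul_pos (inv_pos.2 (lt_min hδ (by norm_num))) hc, ?_⟩
      intro m hm X ε hε hF
      rw [mul_assoc]
      exact step_b hδ hs hqR hq ha hP m hm X _ (mul_nonneg hc.le hε) (h m hm X ε hε hF)

/-- all the places of kind (c) -/
theorem all_c {lo hi s0 θ k0 κ Kc : ℝ} (hg2 : GapTwo 11 lo hi)
    (hlo : 1 / 6 ≤ -lo) (hhi : -lo ≤ hi) (hθ : 0 < θ)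
    (hθ1 : (hi - lo) / 2 * (1 - θ) < (1 - (hi + lo) / 2) * θ) (h3 : s0 ≤ 1 - 3 * θ)
    (hk0 : 4 * k0 - κ < 2) (hK : 0 ≤ Kc) (ht : TriAt 11 s0 θ k0 κ Kc)
    {S V : Set (Ideal (𝓞 E))} (hV : V.Finite) (hst : ∀ P ∈ V, Stab E P) (hB : BBS E S {11}) :
    ∃ (n : ℕ) (c : ℝ), 0 < c ∧ ∀ (m : ℕ), 0 < m → ∀ (X : Set ℂ) (ε : ℝ), 0 ≤ ε →
      Fam E S (Xp^[n] X) m ε → Fam E (S ∪ V) X m (c * ε) := by
  obtain ⟨c0, hc0, hstep⟩ := step_c (E := E) hg2 hlo hhi hθ hθ1 h3 hk0 hK ht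
  induction V, hV using Set.Finite.induction_on with
  | empty =>
    refine ⟨0, 1, one_pos, fun m _ X ε _ h => ?_⟩
    rw [Set.union_empty, one_mul]
    exact h
  | @insert P V _ _ ih =>
    obtain ⟨n, c, hc, h⟩ := ih fun P' hP' => hst P' (Set.mem_insert_of_mem _ hP')
    by_cases hP : P ∈ S ∪ V
    · refine ⟨n, c, hc, ?_⟩
      have h1 : S ∪ insert P V = S ∪ V := by
        rw [Set.union_insert, Set.insert_eq_of_mem hP]
      rw [h1]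
      exact h
    · have hPS : P ∉ S := fun h' => hP (Or.inl h')
      obtain ⟨⟨q, hq', hq⟩, ha⟩ := hB P (hst P (Set.mem_insert _ _)) hPS
      have hq'' : q = 11 := hq'
      subst hq''
      have h1 : S ∪ insert P V = (S ∪ V) ∪ {P} := by
        rw [Set.union_insert, Set.union_singleton]
      rw [h1]
      refine ⟨n + 1, c0 * c, mul_pos hc0 hc, ?_⟩
      intro m hm X ε hε hF
      rw [mul_assoc]
      rw [Function.iterate_succ_apply] at hF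
      refine hstep P hq ha (S ∪ V) hP ?_ m hm X _ (mul_nonneg hc.le hε) (h m hm (Xp X) ε hε hF)
      intro P' hP' hn
      exact hB P' hP' fun h' => hn (Or.inl (Or.inl h'))

end

end RInd

section

variable {E : Subfield ℂ} [NumberField E] [Cj E] {S : Set (Ideal (𝓞 E))} {m : ℕ}

theorem rind {Q R : Set ℕ} {lam : ℝ} (hg : GapAt Q lam) (hl : 3 * lam < 1) {δ : ℝ} (hδ : 0 < δ)
    (hs : ∀ q ∈ R, SoftAt 4 q δ) {lo hi s0 θ k0 κ Kc : ℝ} (hg2 : GapTwo 11 lo hi)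
    (hlo : 1 / 6 ≤ -lo) (hhi : -lo ≤ hi) (hθ : 0 < θ)
    (hθ1 : (hi - lo) / 2 * (1 - θ) < (1 - (hi + lo) / 2) * θ) (h3 : s0 ≤ 1 - 3 * θ)
    (hk0 : 4 * k0 - κ < 2) (hK : 0 ≤ Kc) (ht : TriAt 11 s0 θ k0 κ Kc)
    (hB : BBS E ∅ (Q ∪ R ∪ {11})) (hR : R.Finite)
    (hfam : ∀ X : Set ℂ, X.Finite → ∀ ε > 0, ∃ m : ℕ, 0 < m ∧ ∀ _ : Fintype (AQ E ∅ m),
      FamOn 4 (barQ E ∅ m) X ε) (X : Set ℂ) (hX : X.Finite) :
    ∃ col : ℂ → Fin 4, ∀ x ∈ X, ∀ y ∈ X, ‖x - y‖ = 1 → col x ≠ col y := by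
  -- kind (a)
  set W : Set (Ideal (𝓞 E)) := {P | ∃ q ∈ Q, Nat.card (𝓞 E ⧸ P) = q ^ 2} with hW
  have hBW : BBS E Wᶜ Q := by
    intro P hP hPW
    have h1 : P ∈ W := by simpa using hPW
    exact ⟨h1, (hB P hP (Set.notMem_empty _)).2⟩
  obtain ⟨c1, hc1, H1⟩ := RInd.step_a hg hl hBW (Set.disjoint_empty W)
  set S0 : Set (Ideal (𝓞 E)) := ∅ ∪ W with hS0
  -- kind (b)
  obtain ⟨B, hBd⟩ : ∃ B : ℕ, ∀ q ∈ R, q ≤ B := by
    obtain ⟨B, hB'⟩ := hR.bddAbove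
    exact ⟨B, fun q hq => hB' hq⟩
  set Vb : Set (Ideal (𝓞 E)) := {P | Stab E P ∧ ∃ q ∈ R, Nat.card (𝓞 E ⧸ P) = q ^ 2} with hVb
  have hVbf : Vb.Finite := by
    refine (finite_card (B ^ 2) (E := E)).subset ?_
    rintro P ⟨h1, q, hq, h2⟩
    exact ⟨h1.1, h2 ▸ Nat.pow_le_pow_left (hBd q hq) 2⟩
  obtain ⟨c2, hc2, H2⟩ := RInd.all_b (E := E) hδ hs (S := S0) hVbf
    fun P hP => ⟨hP.2, (hB P hP.1 (Set.notMem_empty _)).2⟩
  set S1 : Set (Ideal (𝓞 E)) := S0 ∪ Vb with hS1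
  have hB1 : BBS E S1 {11} := by
    intro P hP hPS
    obtain ⟨⟨q, hq, h1⟩, h2⟩ := hB P hP (Set.notMem_empty _)
    refine ⟨⟨q, ?_, h1⟩, h2⟩
    rcases hq with (hq | hq) | hq
    · exact absurd (Or.inl (Or.inr ⟨q, hq, h1⟩)) hPS
    · exact absurd (Or.inr ⟨hP, q, hq, h1⟩) hPS
    · exact hq
  -- kind (c)
  set Vc : Set (Ideal (𝓞 E)) := {P | Stab E P ∧ Nat.card (𝓞 E ⧸ P) ≤ 121} with hVc
  have hVcf : Vc.Finite := (finite_card 121 (E := E)).subset fun P hP => ⟨hP.1.1, hP.2⟩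
  obtain ⟨n, c3, hc3, H3⟩ := RInd.all_c (E := E) hg2 hlo hhi hθ hθ1 h3 hk0 hK ht (S := S1) hVcf
    (fun P hP => hP.1) hB1
  -- the end
  have hend : ∀ P, Stab E P → P ∈ S1 ∪ Vc := by
    intro P hP
    by_cases h : P ∈ S1
    · exact Or.inl h
    · right
      obtain ⟨⟨q, hq, h1⟩, -⟩ := hB1 P hP h
      have hq' : q = 11 := hq
      subst hq'
      exact ⟨hP, by rw [h1]; norm_num⟩
  set ε : ℝ := 1 / (32 * (c3 * (c2 * c1))) with hε
  have hc : 0 < c3 * (c2 * c1) := by positivity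
  have hε0 : 0 < ε := by positivity
  obtain ⟨m, hm, hF⟩ := hfam (Xp^[n] X) (RInd.finite_iter hX n) ε hε0
  have F1 := H1 m hm _ ε hε0.le hF
  have F2 := H2 m hm _ _ (by positivity) F1
  have F3 := H3 m hm X _ (by positivity) F2
  have hsub : Subsingleton (AQ E (S1 ∪ Vc) m) := AQ_trivial hm hend
  have : Finite (AQ E (S1 ∪ Vc) m) := AQ_finite hm
  have i : Fintype (AQ E (S1 ∪ Vc) m) := Fintype.ofFinite _
  refine fam_end (k := 4) (by norm_num) ?_ (F3 i)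
  have h5 : c3 * (c2 * (c1 * ε)) = 1 / 32 := by
    rw [hε]
    field_simp
  rw [h5]
  norm_num

end

end Pool.Agent.MP_8b8716_co_QR
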