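import Mathlib
import Pool.Agent.Lib.MP_8b8716_co_QG.GRed
import Pool.Agent.Lib.MP_8b8716_co_QR.Defs

set_option autoImplicit false

/-!
# MP_8b8716_co, project QR, module RRed: from real fields to real number fields

The condition `Cond Q`, for a set `Q` of prime powers which is closed under powers and has a finite
complement, passes from a real field to some number field contained in it: the ultraproduct of bad
maximal ideals is a bad maximal ideal.
-/

noncomputable section

namespace Pool.Agent.MP_8b8716_co_QR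

open NumberField
open Pool.Agent.MP_8b8716_co_HN
open Pool.Agent.MP_8b8716_co_QG

namespace RRed

/-- a finite field which maps to a finite ring: the cardinalities are powers of each other -/
theorem card_pow {K A : Type} [Field K] [Finite K] [CommRing A] [Finite A] [Nontrivial A]
    (f : K →+* A) : ∃ j : ℕ, 0 < j ∧ Nat.card A = Nat.card K ^ j := by
  let _ : Algebra K A := f.toAlgebra
  have h1 : Nat.card A = Nat.card K ^ Module.finrank K A :=
    Module.natCard_eq_pow_finrank (K := K) (V := A)
  refine ⟨Module.finrank K A, ?_, h1⟩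
  have : Module.Finite K A := Module.Finite.of_finite
  exact Module.finrank_pos

end RRed

theorem exists_numberFieldQ {F : Subfield ℝ} {Q : Set ℕ} (hQ : ∀ q ∈ Q, ∀ j : ℕ, 0 < j → q ^ j ∈ Q)
    (hfin : Qᶜ.Finite) (h : Cond Q (integralClosure ℤ F)) :
    ∃ L : Subfield ℝ, L ≤ F ∧ ∃ _ : NumberField L, Cond Q (𝓞 L) := by
  classical
  by_contra hno
  obtain ⟨⟨a, b, hab⟩, hP⟩ := h
  obtain ⟨B, hB⟩ := hfin.bddAbove
  -- the bad maximal ideals
  have hbad : ∀ S : Finset (integralClosure ℤ F), ∃ P : Ideal (𝓞 (GRed.fld (insert a (insert b S)))),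
      P.IsMaximal ∧ Finite (𝓞 (GRed.fld (insert a (insert b S))) ⧸ P) ∧
      Nat.card (𝓞 (GRed.fld (insert a (insert b S))) ⧸ P) ∉ Q ∧
      ∀ c s : 𝓞 (GRed.fld (insert a (insert b S))), s ∉ P → ∀ d ∈ P, s * (c ^ 2 + 1) ≠ 4 * d := by
    intro S
    by_contra hS
    push Not at hS
    refine hno ⟨GRed.fld (insert a (insert b S)), GRed.fld_le _, GRed.nf _, ?_, ?_⟩
    · obtain ⟨a', ha'⟩ := GRed.exists_inc (GRed.fld_le (insert a (insert b S)))
        (GRed.mem_fld (Finset.mem_insert_self a _))
      obtain ⟨b', hb'⟩ := GRed.exists_inc (GRed.fld_le (insert a (insert b S)))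
        (GRed.mem_fld (Finset.mem_insert_of_mem (Finset.mem_insert_self b _)))
      refine ⟨a', b', GRed.inc_inj (GRed.fld_le _) ?_⟩
      rw [map_add, map_pow, map_one, map_mul, map_ofNat, ha', hb', hab]
    · intro P hPm hPf hPc
      obtain ⟨a', s, hs, b', hb', he⟩ := hS P hPm hPf hPc
      exact ⟨a', s, hs, b', hb', he⟩
  choose P hPm hPf hPc hPb using hbad
  have hPB : ∀ S, Nat.card (𝓞 (GRed.fld (insert a (insert b S))) ⧸ P S) ≤ B := fun S =>
    hB (hPc S)
  set i : ∀ S : Finset (integralClosure ℤ F),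
    𝓞 (GRed.fld (insert a (insert b S))) →+* integralClosure ℤ F :=
    fun S => GRed.inc (GRed.fld_le _) with hi
  have hinj : ∀ S, Function.Injective (i S) := fun S => GRed.inc_inj _
  have hex : ∀ S (x : integralClosure ℤ F), x ∈ S → ∃ y, i S y = x := fun S x hx =>
    GRed.exists_inc _ (GRed.mem_fld (Finset.mem_insert_of_mem (Finset.mem_insert_of_mem hx)))
  let U : Ultrafilter (Finset (integralClosure ℤ F)) := Ultrafilter.of Filter.atTop
  have hU : (U : Filter (Finset (integralClosure ℤ F))) ≤ Filter.atTop := Ultrafilter.of_le _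
  have hevx : ∀ x : integralClosure ℤ F, ∀ᶠ S in (U : Filter (Finset (integralClosure ℤ F))),
      ∃ y, i S y = x := by
    intro x
    have h1 : ∀ᶠ S in (Filter.atTop : Filter (Finset (integralClosure ℤ F))), x ∈ S := by
      filter_upwards [Filter.eventually_ge_atTop ({x} : Finset (integralClosure ℤ F))] with S hS
      exact hS (Finset.mem_singleton_self x)
    exact (h1.filter_mono hU).mono fun S hS => hex S x hS
  let p : Ideal (integralClosure ℤ F) :=
    { carrier := {x | ∀ᶠ S in (U : Filter (Finset (integralClosure ℤ F))), ∃ y ∈ P S, i S y = x}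
      add_mem' := by
        intro x y hx hy
        filter_upwards [hx, hy] with S h1 h2
        obtain ⟨u, hu, hu'⟩ := h1
        obtain ⟨v, hv, hv'⟩ := h2
        exact ⟨u + v, (P S).add_mem hu hv, by rw [map_add, hu', hv']⟩
      zero_mem' := Filter.Eventually.of_forall fun S => ⟨0, (P S).zero_mem, map_zero _⟩
      smul_mem' := by
        intro c x hx
        filter_upwards [hx, hevx c] with S h1 h2
        obtain ⟨u, hu, hu'⟩ := h1
        obtain ⟨v, hv⟩ := h2
        exact ⟨v * u, (P S).mul_mem_left v hu, by rw [map_mul, hu', hv, smul_eq_mul]⟩ }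
  have hp : ∀ x, x ∈ p ↔ ∀ᶠ S in (U : Filter (Finset (integralClosure ℤ F))),
      ∃ y ∈ P S, i S y = x := fun x => Iff.rfl
  have hprime : p.IsPrime := by
    refine ⟨?_, ?_⟩
    · intro htop
      have h1 : (1 : integralClosure ℤ F) ∈ p := by rw [htop]; trivial
      obtain ⟨S, y, hy, hy'⟩ := ((hp 1).1 h1).exists
      have h2 : y = 1 := hinj S (by rw [hy', map_one])
      exact (hPm S).ne_top ((Ideal.eq_top_iff_one _).2 (h2 ▸ hy))
    · intro x y hxy
      have h1 := (hp _).1 hxy
      have h2 : ∀ᶠ S in (U : Filter (Finset (integralClosure ℤ F))),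
          (∃ z ∈ P S, i S z = x) ∨ ∃ z ∈ P S, i S z = y := by
        filter_upwards [h1, hevx x, hevx y] with S h1 h2 h3
        obtain ⟨z, hz, hz'⟩ := h1
        obtain ⟨u, hu⟩ := h2
        obtain ⟨v, hv⟩ := h3
        have h4 : z = u * v := hinj S (by rw [hz', map_mul, hu, hv])
        rw [h4] at hz
        rcases (hPm S).isPrime.mem_or_mem hz with h5 | h5
        · exact Or.inl ⟨u, h5, hu⟩
        · exact Or.inr ⟨v, h5, hv⟩
      rcases Ultrafilter.eventually_or.1 h2 with h3 | h3
      · exact Or.inl h3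
      · exact Or.inr h3
  -- there are at most `B` residue classes
  have hpig : ∀ f : Fin (B + 1) → (integralClosure ℤ F) ⧸ p, ¬ Function.Injective f := by
    intro f hf
    have h1 : ∀ k, ∃ x : integralClosure ℤ F, Ideal.Quotient.mk p x = f k :=
      fun k => Ideal.Quotient.mk_surjective (f k)
    choose x hx using h1
    have h2 : ∀ᶠ S in (U : Filter (Finset (integralClosure ℤ F))), ∀ k, ∃ y, i S y = x k :=
      Filter.eventually_all.2 fun k => hevx (x k)
    have h3 : ∀ᶠ S in (U : Filter (Finset (integralClosure ℤ F))),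
        ∃ k ∈ (Set.univ : Set (Fin (B + 1) × Fin (B + 1))), k.1 ≠ k.2 ∧
          ∃ y ∈ P S, i S y = x k.1 - x k.2 := by
      filter_upwards [h2] with S hS
      choose y hy using hS
      have := hPf S
      have : Fintype (𝓞 (GRed.fld (insert a (insert b S))) ⧸ P S) := Fintype.ofFinite _
      have h4 : ¬ Function.Injective fun k => Ideal.Quotient.mk (P S) (y k) := by
        intro hinj'
        have h5 := Fintype.card_le_of_injective _ hinj'
        rw [Fintype.card_fin, ← Nat.card_eq_fintype_card] at h5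
        have h6 := hPB S
        omega
      rw [Function.Injective] at h4
      push Not at h4
      obtain ⟨k, l, hkl, hne⟩ := h4
      refine ⟨(k, l), Set.mem_univ _, hne, y k - y l, Ideal.Quotient.eq.1 hkl, ?_⟩
      rw [map_sub, hy, hy]
    rw [Ultrafilter.eventually_exists_mem_iff (Set.toFinite _)] at h3
    obtain ⟨k, _, h4⟩ := h3
    obtain ⟨S, hS⟩ := h4.exists
    have h5 : x k.1 - x k.2 ∈ p := (hp _).2 (h4.mono fun S hS => hS.2)
    apply hS.1
    apply hf
    rw [← hx, ← hx]
    exact Ideal.Quotient.eq.2 h5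
  have hfin' : Finite ((integralClosure ℤ F) ⧸ p) := by
    by_contra hinf
    have : Infinite ((integralClosure ℤ F) ⧸ p) := not_finite_iff_infinite.1 hinf
    refine hpig (fun k => Infinite.natEmbedding _ (k : ℕ)) ?_
    exact (Infinite.natEmbedding _).injective.comp Fin.val_injective
  have hmax : p.IsMaximal := by
    have := hprime
    exact Ideal.Quotient.maximal_of_isField _ (Finite.isField_of_domain _)
  -- the residue field of `p` embeds into the residue fields of almost all `P S`
  have hcard : Nat.card ((integralClosure ℤ F) ⧸ p) ∉ Q := by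
    intro hq
    have hout : ∀ k : (integralClosure ℤ F) ⧸ p, Ideal.Quotient.mk p k.out = k := fun k =>
      Quotient.out_eq' k
    have h0 : ∀ x y : integralClosure ℤ F, Ideal.Quotient.mk p x = Ideal.Quotient.mk p y →
        ∀ᶠ S in (U : Filter (Finset (integralClosure ℤ F))), ∃ z ∈ P S, i S z = x - y :=
      fun x y hxy => (hp _).1 (Ideal.Quotient.eq.1 hxy)
    have h1 : ∀ᶠ S in (U : Filter (Finset (integralClosure ℤ F))),
        ∀ k : (integralClosure ℤ F) ⧸ p, ∃ y, i S y = k.out :=
      Filter.eventually_all.2 fun k => hevx _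
    have h2 : ∀ᶠ S in (U : Filter (Finset (integralClosure ℤ F))),
        ∀ k : ((integralClosure ℤ F) ⧸ p) × ((integralClosure ℤ F) ⧸ p),
          ∃ z ∈ P S, i S z = (k.1 + k.2).out - (k.1.out + k.2.out) :=
      Filter.eventually_all.2 fun k => h0 _ _ (by rw [RingHom.map_add, hout, hout, hout])
    have h3 : ∀ᶠ S in (U : Filter (Finset (integralClosure ℤ F))),
        ∀ k : ((integralClosure ℤ F) ⧸ p) × ((integralClosure ℤ F) ⧸ p),
          ∃ z ∈ P S, i S z = (k.1 * k.2).out - (k.1.out * k.2.out) :=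
      Filter.eventually_all.2 fun k => h0 _ _ (by rw [RingHom.map_mul, hout, hout, hout])
    have h4 : ∀ᶠ S in (U : Filter (Finset (integralClosure ℤ F))),
        ∃ z ∈ P S, i S z = (1 : (integralClosure ℤ F) ⧸ p).out - 1 :=
      h0 _ _ (by rw [RingHom.map_one, hout])
    obtain ⟨S, g1, g2, g3, g4⟩ := (h1.and (h2.and (h3.and h4))).exists
    choose y hy using g1
    have hone : Ideal.Quotient.mk (P S) (y 1) = 1 := by
      obtain ⟨z, hz, hz'⟩ := g4
      rw [← map_one (Ideal.Quotient.mk (P S))]
      refine Ideal.Quotient.eq.2 ?_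
      have : z = y 1 - 1 := hinj S (by rw [hz', map_sub, hy, map_one])
      exact this ▸ hz
    have hmul : ∀ k l, Ideal.Quotient.mk (P S) (y (k * l)) =
        Ideal.Quotient.mk (P S) (y k) * Ideal.Quotient.mk (P S) (y l) := by
      intro k l
      obtain ⟨z, hz, hz'⟩ := g3 (k, l)
      rw [← map_mul]
      refine Ideal.Quotient.eq.2 ?_
      have : z = y (k * l) - y k * y l := hinj S (by rw [hz', map_sub, map_mul, hy, hy, hy])
      exact this ▸ hz
    have hadd : ∀ k l, Ideal.Quotient.mk (P S) (y (k + l)) =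
        Ideal.Quotient.mk (P S) (y k) + Ideal.Quotient.mk (P S) (y l) := by
      intro k l
      obtain ⟨z, hz, hz'⟩ := g2 (k, l)
      rw [← map_add]
      refine Ideal.Quotient.eq.2 ?_
      have : z = y (k + l) - (y k + y l) := hinj S (by rw [hz', map_sub, map_add, hy, hy, hy])
      exact this ▸ hz
    let f : (integralClosure ℤ F) ⧸ p →+* 𝓞 (GRed.fld (insert a (insert b S))) ⧸ P S :=
      RingHom.mk' ⟨⟨fun k => Ideal.Quotient.mk (P S) (y k), hone⟩, hmul⟩ hadd
    have := hPf S
    have := hPm S
    let _ : Field ((integralClosure ℤ F) ⧸ p) := Ideal.Quotient.field p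
    obtain ⟨j, hj, hj'⟩ := RRed.card_pow f
    exact hPc S (hj' ▸ hQ _ hq j hj)
  obtain ⟨a', s, hs, b', hb', he⟩ := hP p hmax hfin' hcard
  have hs' : ∀ᶠ S in (U : Filter (Finset (integralClosure ℤ F))), ¬ ∃ y ∈ P S, i S y = s :=
    Ultrafilter.eventually_not.2 fun h => hs ((hp s).2 h)
  obtain ⟨S, ⟨u, hu⟩, ⟨v, hv⟩, h3, ⟨w, hw, hw'⟩⟩ :=
    ((hevx a').and ((hevx s).and (hs'.and ((hp b').1 hb')))).exists
  refine hPb S u v (fun hv' => h3 ⟨v, hv', hv⟩) w hw (hinj S ?_)
  rw [map_mul, map_mul, map_add, map_pow, map_one, map_ofNat, hu, hv, hw', he]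

end Pool.Agent.MP_8b8716_co_QR
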