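import Mathlib
import Pool.Agent.Lib.MP_8b8716_co_FALC.Main
import Pool.Agent.Lib.MP_8b8716_co_QP.PMain
import Pool.Agent.Lib.MP_8b8716_co_QR.Defs
import Pool.Agent.Lib.MP_8b8716_co_QR.RFam
import Pool.Agent.Lib.MP_8b8716_co_QR.CertS
import Pool.Agent.Lib.MP_8b8716_co_QR.CertN
import Pool.Agent.Lib.MP_8b8716_co_QR.CertT
import Pool.Agent.Lib.MP_8b8716_co_QR.RInd
import Pool.Agent.Lib.MP_8b8716_co_QR.RRed

set_option autoImplicit false

/-!
# MP_8b8716_co, project QR, module RMain: the chromatic number is at least five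
-/

noncomputable section

namespace Pool.Agent.MP_8b8716_co_QR

open Complex MeasureTheory Filter Topology Set
open NumberField IsDedekindDomain
open Pool.Agent.MP_8b8716_co_HN
open Pool.Agent.MP_8b8716_co_QG
open Pool.Agent.MP_8b8716_co_QP
open Pool.Agent.MP8b8716 (unitDistanceGraph)

/-- the plane has no proper colouring with four colours -/
theorem plane_five : ¬ (unitDistanceGraph ⊤).Colorable 4 := by
  intro h
  have h1 : Real.sqrt (2351 : ℕ) ∈ (⊤ : Subfield ℝ) := trivial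
  have h2 : Cond {q | 33 < q} (integralClosure ℤ (⊤ : Subfield ℝ)) := by
    refine cond_of_sqrt h1 (by norm_num) ?_
    intro l hl h3 hl33
    have h11 : ∀ l ≤ 33, l % 4 = 3 → l.Prime → ∃ b < 33, l ∣ b ^ 2 + 2351 ∧ ¬ l ∣ b := by
      decide +kernel
    obtain ⟨b, -, hb⟩ := h11 l hl33 h3 hl
    exact ⟨b, hb⟩
  obtain ⟨κ, hm, hκ⟩ := gmain (k := 4) h2 h
  set e := Complex.orthonormalBasisOneI.repr
  refine Pool.Agent.MP8b8716F.falconer ⟨fun z => κ (e z), fun i => ?_, fun z w hzw =>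
    hκ _ _ ?_⟩
  · exact (hm i).preimage e.measurePreserving.quasiMeasurePreserving
  · rw [LinearIsometryEquiv.dist_map, dist_eq_norm]
    exact hzw

/-- a maximal ideal whose residue field has `4 n + 1` elements is split -/
theorem splitAt_of_card {O : Type*} [CommRing O] {p : Ideal O} (hp : p.IsMaximal)
    (hf : Finite (O ⧸ p)) (h : Nat.card (O ⧸ p) % 4 = 1) : SplitAt p := by
  letI : Field (O ⧸ p) := Ideal.Quotient.field p
  have hft : Fintype (O ⧸ p) := Fintype.ofFinite _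
  rw [Nat.card_eq_fintype_card] at h
  obtain ⟨x, hx⟩ := FiniteField.isSquare_neg_one_iff.2 (show Fintype.card (O ⧸ p) % 4 ≠ 3 by omega)
  obtain ⟨a, rfl⟩ := Ideal.Quotient.mk_surjective x
  have h2 : (2 : O) ∉ p := by
    intro h2
    have h3 : (2 : O ⧸ p) = 0 := by
      have h3 := Ideal.Quotient.eq_zero_iff_mem.2 h2
      rwa [map_ofNat] at h3
    have h4 : ringChar (O ⧸ p) = 2 := by
      have h5 : (ringChar (O ⧸ p)) ∣ 2 := ringChar.dvd (by exact_mod_cast h3)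
      rcases (Nat.dvd_prime Nat.prime_two).1 h5 with h6 | h6
      · exact absurd h6 (CharP.ringChar_ne_one)
      · exact h6
    have h5 := FiniteField.even_card_of_char_two h4
    omega
  refine ⟨a, 4, fun h4 => h2 ?_, a ^ 2 + 1, ?_, rfl⟩
  · have h5 : (2 : O) * 2 ∈ p := by norm_num; exact h4
    rcases hp.isPrime.mem_or_mem h5 with h6 | h6 <;> exact h6
  · apply Ideal.Quotient.eq_zero_iff_mem.1
    rw [map_add, map_pow, map_one, pow_two, ← hx]
    ring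

/-- the nonsplit residue fields which are allowed -/
def Q4 : Set ℕ := {q | 33 < q} ∪ {23, 31} ∪ {19, 27} ∪ {11}

theorem mem_Q4 {q : ℕ} : q ∈ Q4 ↔ 33 < q ∨ q = 23 ∨ q = 31 ∨ q = 19 ∨ q = 27 ∨ q = 11 := by
  simp only [Q4, Set.mem_union, Set.mem_setOf_eq, Set.mem_insert_iff, Set.mem_singleton_iff]
  tauto

theorem gap_four : ∃ lam : ℝ, 3 * lam < 1 ∧ GapAt ({q | 33 < q} ∪ {23, 31}) lam := by
  obtain ⟨l1, hg1, h1⟩ := exists_lam 4
  obtain ⟨l2, h2, hg2⟩ := gap_small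
  have h1' : 3 * l1 < 1 := by
    push_cast at h1
    linarith
  refine ⟨max l1 l2, ?_, ?_⟩
  · rcases max_cases l1 l2 with h | h <;> rw [h.1] <;> assumption
  · refine ⟨hg1.1.trans (le_max_left _ _), ?_⟩
    intro K _ _ _ bar hbar hne ⟨q, hq, hc⟩ U hU
    rcases hq with hq | hq
    · obtain ⟨h3, h4⟩ := hg1.2 K bar hbar hne ⟨q, hq, hc⟩ U hU
      refine ⟨h3.trans ?_, fun χ hχ => (h4 χ hχ).trans ?_⟩ <;>
      exact mul_le_mul_of_nonneg_right (le_max_left _ _) (Nat.cast_nonneg _)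
    · obtain ⟨h3, h4⟩ := hg2.2 K bar hbar hne ⟨q, hq, hc⟩ U hU
      refine ⟨h3.trans ?_, fun χ hχ => (h4 χ hχ).trans ?_⟩ <;>
      exact mul_le_mul_of_nonneg_right (le_max_right _ _) (Nat.cast_nonneg _)

theorem soft_R : ∃ δ : ℝ, 0 < δ ∧ ∀ q ∈ ({19, 27} : Set ℕ), SoftAt 4 q δ := by
  obtain ⟨d1, h1, h2⟩ := soft_nineteen
  obtain ⟨d2, h3, h4⟩ := soft_twentyseven
  have hmono : ∀ q : ℕ, ∀ d d' : ℝ, d' ≤ d → SoftAt 4 q d → SoftAt 4 q d' := by
    intro q d d' hd hs K _ _ bar hbar hne hc a b ha hb hma hmb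
    have h5 := hs K bar hbar hne hc a b ha hb hma hmb
    linarith
  refine ⟨min d1 d2, lt_min h1 h3, ?_⟩
  rintro q (rfl | rfl)
  · exact hmono _ _ _ (min_le_left _ _) h2
  · exact hmono _ _ _ (min_le_right _ _) h4

/-- **Theorem R.** -/
theorem rfive {F : Subfield ℝ} (h : Cond (Q4 ∪ {q | q % 4 = 1}) (integralClosure ℤ F)) :
    ¬ (unitDistanceGraph F).Colorable 4 := by
  rintro ⟨C⟩
  obtain ⟨L, hLF, hL, hC⟩ := exists_numberFieldQ (F := F) (Q := Q4 ∪ {q | q % 4 = 1}) (by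
      rintro q (hq | hq) j hj
      · left
        rw [mem_Q4] at hq ⊢
        obtain ⟨j, rfl⟩ := Nat.exists_eq_succ_of_ne_zero hj.ne'
        rcases Nat.eq_zero_or_pos j with rfl | hj'
        · simpa using hq
        · left
          have h1 : 11 ≤ q := by omega
          have h2 : q ^ 2 ≤ q ^ (j + 1) := Nat.pow_le_pow_right (by omega) (by omega)
          have h3 : 11 ^ 2 ≤ q ^ 2 := Nat.pow_le_pow_left h1 2
          show 33 < q ^ (j + 1)
          omega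
      · right
        have hq' : q % 4 = 1 := hq
        show q ^ j % 4 = 1
        simp [Nat.pow_mod, hq']) (by
      refine (Set.finite_Iic 33).subset fun q hq => ?_
      by_contra hcon
      exact hq (Or.inl (mem_Q4.2 (Or.inl (not_le.1 hcon))))) h
  obtain ⟨E, hN, hJ, hLE, hE, hB⟩ := exists_fieldP (L := L) ∅ (Q := Q4) (by
    intro p hp _
    have hp0 : p ≠ ⊥ := Ring.ne_bot_of_isMaximal_of_not_isField hp (RingOfIntegers.not_isField L)
    have hfin : Finite (𝓞 L ⧸ p) := Ring.HasFiniteQuotients.finiteQuotient hp0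
    by_cases h4 : Nat.card (𝓞 L ⧸ p) ∈ Q4
    · obtain ⟨a, b, hab⟩ := hC.1
      exact Or.inr ⟨⟨a, 1, b, fun h1 => hp.ne_top ((Ideal.eq_top_iff_one p).2 h1), by
        rw [one_mul]; exact hab⟩, h4⟩
    · left
      by_cases h5 : Nat.card (𝓞 L ⧸ p) % 4 = 1
      · exact splitAt_of_card hp hfin h5
      · exact hC.2 p hp hfin (by
          rintro (h6 | h6)
          · exact h4 h6
          · exact h5 h6))
  have hempty : abv hLE ∅ = ∅ := by
    ext P
    simp [abv]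
  rw [hempty] at hB
  have hEF : ∀ z ∈ E, z.re ∈ F ∧ z.im ∈ F := fun z hz =>
    ⟨hLF ((hLE z).1 hz).1, hLF ((hLE z).1 hz).2⟩
  have hκ : ∀ z w : E, ‖(z : ℂ) - w‖ = 1 →
      C (⟨z.1.re, (hEF z z.2).1⟩, ⟨z.1.im, (hEF z z.2).2⟩) ≠
        C (⟨w.1.re, (hEF w w.2).1⟩, ⟨w.1.im, (hEF w w.2).2⟩) := by
    intro z w hzw
    apply C.valid
    show (_ : F) = 1
    apply Subtype.ext
    have h1 : ‖(z : ℂ) - w‖ ^ 2 = 1 := by rw [hzw]; norm_num
    rw [← Complex.normSq_eq_norm_sq, Complex.normSq_apply] at h1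
    simp only [Complex.sub_re, Complex.sub_im] at h1
    push_cast
    nlinarith [h1]
  obtain ⟨μ, hμ⟩ := exists_randCol hE.ctb
    (fun z : E => C (⟨z.1.re, (hEF z z.2).1⟩, ⟨z.1.im, (hEF z z.2).2⟩)) hκ
  obtain ⟨σ, hS⟩ := gspec hE hμ
  obtain ⟨lam, hlam, hg⟩ := gap_four
  obtain ⟨δ, hδ, hs⟩ := soft_R
  obtain ⟨lo, hi, s0, θ, k0, κ, Kc, c1, c2, c3, c4, c5, c6, c7, c8, c9⟩ := cert_eleven
  have hfin : ∀ X : Set ℂ, X.Finite →
      ∃ col : ℂ → Fin 4, ∀ x ∈ X, ∀ y ∈ X, ‖x - y‖ = 1 → col x ≠ col y := fun X hX =>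
    rind hg hlam hδ hs c1 c2 c3 c4 c5 c6 c7 c8 c9 hB (by simp)
      (fun X hX ε hε => fam hE hB hS hX hε) X hX
  apply plane_five
  apply SimpleGraph.nonempty_hom_of_forall_finite_subgraph_hom
  intro G' hG'
  set f : (⊤ : Subfield ℝ) × (⊤ : Subfield ℝ) → ℂ := fun p => ⟨p.1, p.2⟩ with hf
  refine Nonempty.some ?_
  obtain ⟨col, hcol⟩ := hfin (f '' G'.verts) (hG'.image f)
  refine ⟨SimpleGraph.Coloring.mk (fun v => col (f v)) fun {v w} hvw => ?_⟩
  refine hcol _ ⟨v, v.2, rfl⟩ _ ⟨w, w.2, rfl⟩ ?_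
  have h1 : (unitDistanceGraph ⊤).Adj (v : (⊤ : Subfield ℝ) × (⊤ : Subfield ℝ)) w :=
    G'.adj_sub hvw
  have h2 : (((v : (⊤ : Subfield ℝ) × (⊤ : Subfield ℝ)).1 -
      (w : (⊤ : Subfield ℝ) × (⊤ : Subfield ℝ)).1) ^ 2 +
      ((v : (⊤ : Subfield ℝ) × (⊤ : Subfield ℝ)).2 -
      (w : (⊤ : Subfield ℝ) × (⊤ : Subfield ℝ)).2) ^ 2 : (⊤ : Subfield ℝ)) = 1 := h1
  have h3 := congrArg (fun x : (⊤ : Subfield ℝ) => (x : ℝ)) h2
  push_cast at h3
  have h4 : ‖f v - f w‖ ^ 2 = 1 := by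
    rw [← Complex.normSq_eq_norm_sq, Complex.normSq_apply]
    simp only [Complex.sub_re, Complex.sub_im, hf]
    linarith
  nlinarith [norm_nonneg (f v - f w)]

/-- the ring `O` has a maximal ideal with `q` residues which is not split -/
def NS (O : Type*) [CommRing O] (q : ℕ) : Prop :=
  ∃ P : Ideal O, P.IsMaximal ∧ Finite (O ⧸ P) ∧ Nat.card (O ⧸ P) = q ∧ ¬ SplitAt P

theorem five_of_NS {F : Subfield ℝ} (h1 : ∃ a b : integralClosure ℤ F, a ^ 2 + 1 = 4 * b)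
    (h2 : ∀ q ∈ ({2, 3, 4, 7, 8, 16, 32} : Finset ℕ), ¬ NS (integralClosure ℤ F) q) :
    ¬ (unitDistanceGraph F).Colorable 4 := by
  refine rfive ⟨h1, fun P hP hfin hc => ?_⟩
  by_contra hcon
  letI : Field (integralClosure ℤ F ⧸ P) := Ideal.Quotient.field P
  have hft : Fintype (integralClosure ℤ F ⧸ P) := Fintype.ofFinite _
  have h3 : IsPrimePow (Nat.card (integralClosure ℤ F ⧸ P)) := by
    rw [Nat.card_eq_fintype_card]
    exact Fintype.isPrimePow_card_of_field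
  refine h2 (Nat.card (integralClosure ℤ F ⧸ P)) ?_ ⟨P, hP, hfin, rfl, hcon⟩
  have h4 : Nat.card (integralClosure ℤ F ⧸ P) ≤ 33 := by
    by_contra h5
    exact hc (Or.inl (mem_Q4.2 (Or.inl (not_le.1 h5))))
  have h5 : Nat.card (integralClosure ℤ F ⧸ P) % 4 ≠ 1 := fun h => hc (Or.inr h)
  have h6 : Nat.card (integralClosure ℤ F ⧸ P) ∉ ({11, 19, 23, 27, 31} : Finset ℕ) := by
    intro h
    refine hc (Or.inl (mem_Q4.2 (Or.inr ?_)))
    simp only [Finset.mem_insert, Finset.mem_singleton] at h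
    omega
  have h7 : ∀ n : ℕ, n ≤ 33 → (IsPrimePow n ∧ n % 4 ≠ 1 ∧ n ∉ ({11, 19, 23, 27, 31} : Finset ℕ)) →
      n ∈ ({2, 3, 4, 7, 8, 16, 32} : Finset ℕ) := by
    decide +kernel
  exact h7 _ h4 ⟨h3, h5, h6⟩

end Pool.Agent.MP_8b8716_co_QR
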