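import Mathlib
import Pool.Agent.Lib.MP_8b8716_co_QP.Defs
import Pool.Agent.Lib.MP_8b8716_co_QR.Defs

set_option autoImplicit false

/-!
# MP_8b8716_co, project QR: the valuation above a nonsplit maximal ideal

`F` is a real algebraic field and `O` its ring of algebraic integers. For a maximal ideal `P` with
`2 ∈ P` we find a valuation ring of `F` above `P` with the same residue field.
-/

noncomputable section

namespace Pool.Agent.MP_8b8716_co_QR

open Pool.Agent.MP_8b8716_co_QP

namespace RV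

/-- the elements of `F` that are integral over `ℤ` are in each valuation ring -/
theorem integral_mem {F : Subfield ℝ} (V : ValuationSubring F) (a : F)
    (ha : IsIntegral ℤ a) : a ∈ V := by
  have h1 : IsIntegral V a := ha.tower_top
  obtain ⟨y, hy⟩ := IsIntegrallyClosed.isIntegral_iff.1 h1
  rw [← hy]
  exact y.2

/-- the lemma of Seidenberg -/
theorem seidenberg {F : Subfield ℝ} {P : Ideal (integralClosure ℤ F)} (x : F) : ∀ n : ℕ,
    ∀ g : Polynomial (integralClosure ℤ F), g.natDegree ≤ n → Polynomial.aeval x g = 0 →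
      (∃ i, g.coeff i ∉ P) →
      ∃ a s : integralClosure ℤ F, (s : F) * x = a ∧ (s ∉ P ∨ a ∉ P) := by
  intro n
  induction n with
  | zero =>
    intro g hg hx hi
    exfalso
    rw [Polynomial.eq_C_of_natDegree_le_zero hg, Polynomial.aeval_C] at hx
    obtain ⟨i, hi⟩ := hi
    have h0 : g.coeff 0 = 0 := Subtype.ext hx
    rcases Nat.eq_zero_or_pos i with h | h
    · subst h
      exact hi (by rw [h0]; exact P.zero_mem)
    · exact hi (by rw [Polynomial.coeff_eq_zero_of_natDegree_lt (by omega)]; exact P.zero_mem)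
  | succ n ih =>
    intro g hg hx hi
    by_cases hle : g.natDegree ≤ n
    · exact ih g hle hx hi
    have hn : g.natDegree = n + 1 := by omega
    have h1 : IsIntegral (integralClosure ℤ F) (g.leadingCoeff • x) :=
      isIntegral_leadingCoeff_smul _ _ hx
    have h2 : IsIntegral ℤ (g.leadingCoeff • x) := isIntegral_trans _ h1
    set c : integralClosure ℤ F := g.leadingCoeff with hc
    set d : integralClosure ℤ F := ⟨g.leadingCoeff • x, h2⟩ with hd
    have hcd : (c : F) * x = d := rfl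
    by_cases hcP : c ∈ P
    swap
    · exact ⟨d, c, hcd, Or.inl hcP⟩
    by_cases hdP : d ∈ P
    swap
    · exact ⟨d, c, hcd, Or.inr hdP⟩
    refine ih (g.eraseLead + Polynomial.C d * Polynomial.X ^ n) ?_ ?_ ?_
    · refine (Polynomial.natDegree_add_le _ _).trans (max_le ?_ ?_)
      · have := g.eraseLead_natDegree_le
        omega
      · exact Polynomial.natDegree_C_mul_X_pow_le _ _
    · have h3 := g.eraseLead_add_C_mul_X_pow
      rw [hn, ← hc] at h3
      rw [← h3] at hx
      simp only [map_add, map_mul, Polynomial.aeval_C, map_pow, Polynomial.aeval_X] at hx ⊢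
      rw [← hx]
      congr 1
      have e1 : algebraMap (integralClosure ℤ F) F d = (d : F) := rfl
      have e2 : algebraMap (integralClosure ℤ F) F c = (c : F) := rfl
      rw [e1, e2, ← hcd]
      ring
    · obtain ⟨i, hi⟩ := hi
      have hin : i ≠ n + 1 := by
        rintro rfl
        apply hi
        have : g.coeff (n + 1) = c := by
          rw [hc, Polynomial.leadingCoeff, hn]
        rw [this]
        exact hcP
      refine ⟨i, fun h => hi ?_⟩
      rw [Polynomial.coeff_add, Polynomial.eraseLead_coeff_of_ne _ (by omega),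
        Polynomial.coeff_C_mul, Polynomial.coeff_X_pow] at h
      have h5 : d * (if i = n then 1 else 0) ∈ P := P.mul_mem_right _ hdP
      exact (P.add_mem_iff_left h5).1 h

/-- every element of an algebraic field has a numerator or a denominator outside `P` -/
theorem exists_frac {F : Subfield ℝ} (hF : ∀ x ∈ F, IsAlgebraic ℚ x)
    {P : Ideal (integralClosure ℤ F)} (hP : P.IsMaximal) (h2 : (2 : integralClosure ℤ F) ∈ P)
    (x : F) : ∃ a s : integralClosure ℤ F, (s : F) * x = a ∧ (s ∉ P ∨ a ∉ P) := by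
  -- a primitive polynomial
  have h1 : IsAlgebraic ℚ (x : ℝ) := hF _ x.2
  have h1' : IsAlgebraic ℤ (x : ℝ) :=
    (IsFractionRing.isAlgebraic_iff ℤ ℚ ℝ).2 h1
  obtain ⟨f, hf0, hf⟩ := h1'
  have hfp : Polynomial.aeval (x : ℝ) f.primPart = 0 := by
    exact Polynomial.aeval_primPart_eq_zero hf0 hf
  have hfx : Polynomial.aeval x f.primPart = 0 := by
    have h3 : Polynomial.aeval ((algebraMap F ℝ) x) f.primPart = 0 := hfp
    rw [Polynomial.aeval_algebraMap_apply] at h3
    exact (map_eq_zero_iff _ (algebraMap F ℝ).injective).1 h3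
  have hprim := f.isPrimitive_primPart
  -- some coefficient is odd
  have hodd : ∃ i, ¬ (2 : ℤ) ∣ f.primPart.coeff i := by
    by_contra hcon
    push Not at hcon
    have h4 : Polynomial.C (2 : ℤ) ∣ f.primPart := (Polynomial.C_dvd_iff_dvd_coeff _ _).2 hcon
    have h5 := hprim 2 h4
    exact absurd (Int.isUnit_iff.1 h5) (by norm_num)
  obtain ⟨i, hi⟩ := hodd
  refine seidenberg x f.primPart.natDegree
    (f.primPart.map (algebraMap ℤ (integralClosure ℤ F))) (Polynomial.natDegree_map_le) ?_ ⟨i, ?_⟩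
  · rw [Polynomial.aeval_map_algebraMap]
    exact hfx
  · rw [Polynomial.coeff_map]
    intro h6
    have h7 : f.primPart.coeff i % 2 = 1 := by omega
    have h8 : f.primPart.coeff i = 2 * (f.primPart.coeff i / 2) + 1 := by omega
    rw [h8, map_add, map_mul, map_one] at h6
    have h9 : (algebraMap ℤ (integralClosure ℤ F)) 2 * (algebraMap ℤ (integralClosure ℤ F))
        (f.primPart.coeff i / 2) ∈ P := by
      apply P.mul_mem_right
      rw [map_ofNat]
      exact h2
    have h10 := (P.add_mem_iff_right h9).1 h6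
    exact hP.ne_top ((Ideal.eq_top_iff_one P).2 h10)

/-- the powers of an integral element are periodic modulo 8 -/
theorem exists_pow {F : Subfield ℝ} (t : integralClosure ℤ F) :
    ∃ i k : ℕ, 0 < k ∧ ∃ w : integralClosure ℤ F, t ^ i * (t ^ k - 1) = 8 * w := by
  let R := Algebra.adjoin ℤ ({t} : Set (integralClosure ℤ F))
  have ht : IsIntegral ℤ t := Algebra.IsIntegral.isIntegral t
  have hfg : (Subalgebra.toSubmodule R).FG := ht.fg_adjoin_singleton
  have : Module.Finite ℤ R := Module.Finite.iff_fg.2 hfg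
  let I : Ideal R := Ideal.span {(8 : R)}
  have : Module.Finite ℤ (R ⧸ I) := Module.Finite.of_surjective (Ideal.Quotient.mkₐ ℤ I).toLinearMap
    (Ideal.Quotient.mkₐ_surjective ℤ I)
  have htor : Module.IsTorsion ℤ (R ⧸ I) := by
    intro y
    refine ⟨⟨8, mem_nonZeroDivisors_of_ne_zero (by norm_num)⟩, ?_⟩
    obtain ⟨y, rfl⟩ := Ideal.Quotient.mk_surjective y
    show (8 : ℤ) • (Ideal.Quotient.mk I y) = 0
    rw [zsmul_eq_mul, Int.cast_ofNat, ← map_ofNat (Ideal.Quotient.mk I), ← map_mul,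
      Ideal.Quotient.eq_zero_iff_mem]
    exact I.mul_mem_right _ (Ideal.subset_span rfl)
  have hfin : Finite (R ⧸ I) := Module.finite_of_fg_torsion _ htor
  let t' : R := ⟨t, Algebra.self_mem_adjoin_singleton ℤ t⟩
  obtain ⟨m, n, hmn, heq⟩ := Finite.exists_ne_map_eq_of_infinite
    (fun n : ℕ => Ideal.Quotient.mk I (t' ^ n))
  wlog hlt : m < n generalizing m n with H
  · exact H n m hmn.symm heq.symm (by omega)
  refine ⟨m, n - m, by omega, ?_⟩
  have h1 : t' ^ n - t' ^ m ∈ I := by
    rw [← Ideal.Quotient.eq_zero_iff_mem, map_sub, sub_eq_zero]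
    exact heq.symm
  obtain ⟨w, hw⟩ := Ideal.mem_span_singleton'.1 h1
  refine ⟨w, ?_⟩
  have h2 := congrArg (Subtype.val : R → integralClosure ℤ F) hw
  have h3 : (w : integralClosure ℤ F) * 8 = t ^ n - t ^ m := h2
  have h4 : t ^ n = t ^ m * t ^ (n - m) := by rw [← pow_add]; congr 1; omega
  rw [mul_sub, ← h4, mul_one, ← h3]
  ring

end RV

theorem exists_valuation {F : Subfield ℝ} (hF : ∀ x ∈ F, IsAlgebraic ℚ x)
    {P : Ideal (integralClosure ℤ F)} (hP : P.IsMaximal) (h2 : (2 : integralClosure ℤ F) ∈ P)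
    (hfin : Finite (integralClosure ℤ F ⧸ P)) (hns : ¬ SplitAt P) :
    ∃ V : ValuationSubring F, (2 : F) ∈ V.nonunits ∧ Finite (IsLocalRing.ResidueField V) ∧
      Nat.card (IsLocalRing.ResidueField V) = Nat.card (integralClosure ℤ F ⧸ P) ∧
      ∀ x : F, (x ^ 2 + 1) / 4 ∉ V.nonunits := by
  set O := (integralClosure ℤ F).toSubring with hO
  obtain ⟨V, hV, hker⟩ := Ideal.image_subset_nonunits_valuationSubring (A := O) P hP.ne_top
  have hPV : ∀ a : integralClosure ℤ F, a ∈ P → (a : F) ∈ V.nonunits := fun a ha =>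
    hker ⟨a, ha, rfl⟩
  have hOV : ∀ a : integralClosure ℤ F, (a : F) ∈ V := fun a => RV.integral_mem V a a.2
  -- the elements outside `P` are units
  have hnP : ∀ a : integralClosure ℤ F, (a : F) ∈ V.nonunits → a ∈ P := by
    intro a ha
    by_contra hna
    obtain ⟨b, hb, c, hc, hbc⟩ : ∃ b : integralClosure ℤ F, b ∈ P ∧ ∃ c : integralClosure ℤ F,
        True ∧ b + c * a = 1 := by
      have h1 : P ⊔ Ideal.span {a} = ⊤ := hP.1.2 _ (by
        rw [lt_iff_le_and_ne]
        refine ⟨le_sup_left, fun h => hna ?_⟩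
        rw [h]
        exact Ideal.mem_sup_right (Ideal.subset_span rfl))
      have h2 : (1 : integralClosure ℤ F) ∈ P ⊔ Ideal.span {a} := by rw [h1]; trivial
      obtain ⟨b, hb, c, hc, h3⟩ := Submodule.mem_sup.1 h2
      obtain ⟨d, hd⟩ := Ideal.mem_span_singleton'.1 hc
      exact ⟨b, hb, d, trivial, by rw [hd, h3]⟩
    have h1 := V.mem_nonunits_iff_exists_mem_maximalIdeal.1 (hPV b hb)
    have h2 := V.mem_nonunits_iff_exists_mem_maximalIdeal.1 ha
    obtain ⟨hb1, hb2⟩ := h1
    obtain ⟨ha1, ha2⟩ := h2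
    have h3 : (⟨b, hb1⟩ : V) + (⟨c, hOV c⟩ : V) * ⟨a, ha1⟩ ∈ IsLocalRing.maximalIdeal V :=
      Ideal.add_mem _ hb2 (Ideal.mul_mem_left _ _ ha2)
    have h4 : (⟨b, hb1⟩ : V) + (⟨c, hOV c⟩ : V) * ⟨a, ha1⟩ = 1 := by
      apply Subtype.ext
      show (b : F) + (c : F) * (a : F) = 1
      have := congrArg (Subtype.val : integralClosure ℤ F → F) hbc
      exact this
    rw [h4] at h3
    exact (IsLocalRing.maximalIdeal.isMaximal V).ne_top ((Ideal.eq_top_iff_one _).2 h3)
  -- fractions
  have hfrac : ∀ x : F, x ∈ V → ∃ a s : integralClosure ℤ F, (s : F) * x = a ∧ s ∉ P := by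
    intro x hx
    obtain ⟨a, s, h1, h2 | h3⟩ := RV.exists_frac hF hP h2 x
    · exact ⟨a, s, h1, h2⟩
    · refine ⟨a, s, h1, fun hs => h3 ?_⟩
      apply hnP
      rw [← h1]
      obtain ⟨h4, h5⟩ := V.mem_nonunits_iff_exists_mem_maximalIdeal.1 (hPV s hs)
      rw [V.mem_nonunits_iff_exists_mem_maximalIdeal]
      exact ⟨V.mul_mem _ _ h4 hx, Ideal.mul_mem_right (⟨x, hx⟩ : V) _ h5⟩
  let ι : integralClosure ℤ F →+* V :=
    { toFun := fun a => ⟨(a : F), hOV a⟩
      map_one' := rfl
      map_mul' := fun _ _ => rfl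
      map_zero' := rfl
      map_add' := fun _ _ => rfl }
  have hι : ∀ a, a ∈ P ↔ IsLocalRing.residue V (ι a) = 0 := by
    intro a
    rw [IsLocalRing.residue_eq_zero_iff]
    constructor
    · intro h
      obtain ⟨h4, h5⟩ := V.mem_nonunits_iff_exists_mem_maximalIdeal.1 (hPV a h)
      exact h5
    · intro h
      exact hnP a (V.mem_nonunits_iff_exists_mem_maximalIdeal.2 ⟨_, h⟩)
  -- inverses modulo `P`
  have hinv : ∀ s : integralClosure ℤ F, s ∉ P → ∃ s' : integralClosure ℤ F, 1 - s * s' ∈ P := by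
    intro s hs
    have h1 : P ⊔ Ideal.span {s} = ⊤ := hP.1.2 _ (by
      rw [lt_iff_le_and_ne]
      refine ⟨le_sup_left, fun h => hs ?_⟩
      rw [h]
      exact Ideal.mem_sup_right (Ideal.subset_span rfl))
    have h2 : (1 : integralClosure ℤ F) ∈ P ⊔ Ideal.span {s} := by rw [h1]; trivial
    obtain ⟨b, hb, c, hc, h3⟩ := Submodule.mem_sup.1 h2
    obtain ⟨d, hd⟩ := Ideal.mem_span_singleton'.1 hc
    refine ⟨d, ?_⟩
    have : 1 - s * d = b := by rw [← h3, ← hd]; ring
    rw [this]
    exact hb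
  let φ : integralClosure ℤ F →+* IsLocalRing.ResidueField V := (IsLocalRing.residue V).comp ι
  have hφs : Function.Surjective φ := by
    intro z
    obtain ⟨x, rfl⟩ := IsLocalRing.residue_surjective z
    obtain ⟨a, s, h1, hs⟩ := hfrac x x.2
    obtain ⟨s', hs'⟩ := hinv s hs
    refine ⟨a * s', ?_⟩
    have e1 : ι s * x = ι a := Subtype.ext h1
    have e2 : IsLocalRing.residue V (ι (1 - s * s')) = 0 := (hι _).1 hs'
    rw [map_sub, map_mul, map_one, map_sub, map_mul, map_one, sub_eq_zero] at e2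
    show IsLocalRing.residue V (ι (a * s')) = _
    rw [map_mul, map_mul, ← e1, map_mul]
    have : IsLocalRing.residue V (ι s) * IsLocalRing.residue V x * IsLocalRing.residue V (ι s') =
        (IsLocalRing.residue V (ι s) * IsLocalRing.residue V (ι s')) *
          IsLocalRing.residue V x := by ring
    rw [this, ← e2, one_mul]
  have hφk : RingHom.ker φ = P := by
    ext a
    rw [RingHom.mem_ker, hι]
    rfl
  have hequiv : (integralClosure ℤ F ⧸ P) ≃ IsLocalRing.ResidueField V :=
    ((Ideal.quotEquivOfEq hφk.symm).trans (RingHom.quotientKerEquivOfSurjective hφs)).toEquiv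
  have h2V : (2 : F) ∈ V.nonunits := hPV 2 h2
  refine ⟨V, h2V, Finite.of_equiv _ hequiv, (Nat.card_congr hequiv).symm, ?_⟩
  intro x hy
  apply hns
  -- `x ∈ V`
  obtain ⟨hy1, hy2⟩ := V.mem_nonunits_iff_exists_mem_maximalIdeal.1 hy
  have hxV : x ∈ V := by
    rcases V.mem_or_inv_mem x with h | h
    · exact h
    · by_cases hx0 : x = 0
      · rw [hx0]; exact V.zero_mem
      have h4V : (4 : F) ∈ V := by
        have := hOV 4
        exact this
      have e1 : x = x⁻¹ * (4 * ((x ^ 2 + 1) / 4) - 1) := by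
        field_simp
        ring
      rw [e1]
      exact V.mul_mem _ _ h (sub_mem (V.mul_mem _ _ h4V hy1) V.one_mem)
  obtain ⟨u, t, hut, ht⟩ := hfrac x hxV
  obtain ⟨i, k, hk, w, hw⟩ := RV.exists_pow t
  have htu : IsUnit (ι t) := by
    by_contra h
    exact ht ((hι t).2 ((IsLocalRing.residue_eq_zero_iff _).2 h))
  -- `t ^ k = 1 + 8 z`
  obtain ⟨z, hz⟩ : ∃ z : V, ι t ^ k = 1 + 8 * z := by
    obtain ⟨v, hv⟩ := (htu.pow i).exists_right_inv
    refine ⟨v * ι w, ?_⟩
    have e1 := congrArg ι hw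
    rw [map_mul, map_sub, map_pow, map_pow, map_one, map_mul] at e1
    have e8 : ι 8 = 8 := rfl
    rw [e8] at e1
    linear_combination v * e1 - (ι t ^ k - 1) * hv
  -- the element `a`
  set X : V := ⟨x, hxV⟩ with hX
  have hu : ι u = ι t * X := by
    apply Subtype.ext
    exact hut.symm
  have hkk : k - 1 + 1 = k := by omega
  have ha : ι (u * t ^ (k - 1)) = X + 8 * (X * z) := by
    rw [map_mul, map_pow, hu]
    have e1 : ι t ^ k = ι t ^ (k - 1) * ι t := by
      rw [← pow_succ, hkk]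
    have e2 : ι t ^ (k - 1) * ι t = 1 + 8 * z := by rw [← e1, hz]
    linear_combination X * e2
  set a : integralClosure ℤ F := u * t ^ (k - 1) with hadef
  -- `(a ^ 2 + 1) / 4` is a nonunit
  set Y : V := ⟨(x ^ 2 + 1) / 4, hy1⟩ with hY
  have h2m : (2 : V) ∈ IsLocalRing.maximalIdeal V := by
    obtain ⟨h4, h5⟩ := V.mem_nonunits_iff_exists_mem_maximalIdeal.1 h2V
    exact h5
  set W : V := Y + 2 * (2 * X * (X * z) + 8 * (X * z) ^ 2) with hW
  have hWm : W ∈ IsLocalRing.maximalIdeal V :=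
    Ideal.add_mem _ hy2 (Ideal.mul_mem_right _ _ h2m)
  have hY4 : 4 * Y = X ^ 2 + 1 := by
    apply Subtype.ext
    show 4 * ((x ^ 2 + 1) / 4) = x ^ 2 + 1
    ring
  have hW4 : ι a ^ 2 + 1 = 4 * W := by
    rw [ha, hW]
    linear_combination -hY4
  obtain ⟨b, s, hbs, hs⟩ := hfrac (W : F) W.2
  have hbs' : ι s * W = ι b := Subtype.ext hbs
  refine ⟨a, s, hs, b, ?_, ?_⟩
  · rw [hι, ← hbs', IsLocalRing.residue_eq_zero_iff]
    exact Ideal.mul_mem_left _ _ hWm
  · apply Subtype.ext
    have e1 : ι (s * (a ^ 2 + 1)) = ι (4 * b) := by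
      have e4 : ι 4 = 4 := rfl
      rw [map_mul ι s, map_add, map_pow, map_one, map_mul ι 4 b, e4, hW4, ← hbs']
      ring
    exact congrArg (Subtype.val : V → F) e1

theorem hom_of_card {O : Type*} [CommRing O] {P : Ideal O} (hP : P.IsMaximal) {p : ℕ}
    (hp : p.Prime) (hc : Nat.card (O ⧸ P) = p) : Nonempty (O →+* ZMod p) := by
  have _ := hP
  have : Fact p.Prime := ⟨hp⟩
  have hfin : Finite (O ⧸ P) := Nat.finite_of_card_ne_zero (by rw [hc]; exact hp.ne_zero)
  have : Fintype (O ⧸ P) := Fintype.ofFinite _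
  have hc' : Fintype.card (O ⧸ P) = p := by rw [← Nat.card_eq_fintype_card, hc]
  exact ⟨(ZMod.ringEquivOfPrime (O ⧸ P) hp hc').symm.toRingHom.comp (Ideal.Quotient.mk P)⟩

theorem card_of_hom {O : Type*} [CommRing O] {p : ℕ} (hp : p.Prime) (f : O →+* ZMod p) :
    (RingHom.ker f).IsMaximal ∧ Nat.card (O ⧸ RingHom.ker f) = p := by
  have : Fact p.Prime := ⟨hp⟩
  have hs : Function.Surjective f := ZMod.ringHom_surjective f
  refine ⟨RingHom.ker_isMaximal_of_surjective f hs, ?_⟩
  rw [Nat.card_congr (RingHom.quotientKerEquivOfSurjective hs).toEquiv, Nat.card_zmod]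

end Pool.Agent.MP_8b8716_co_QR
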