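import Mathlib
import Pool.Agent.Lib.MP_8b8716_co.Final
import Pool.Agent.Lib.MP_8b8716_co.FourPlace
import Pool.Agent.Lib.MP_8b8716_co_QR.RMain
import Pool.Agent.Lib.MP_8b8716_co_QR.RV

set_option autoImplicit false

/-!
# MP_8b8716_co, project QR, module RTab: the table of the chromatic numbers
-/

noncomputable section

namespace Pool.Agent.MP_8b8716_co_QR

open Pool.Agent.MP_8b8716_co_QG (Cond cond_of_sqrt gmain)
open Pool.Agent.MP_8b8716_co_QF (MeasColorable colorable_of_top colorable_top_of_meas seven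
  measColorable_of_complex)
open Pool.Agent.MP_8b8716_co_QP
open Pool.Agent.MP8b8716 (unitDistanceGraph)
open Pool.Agent.MP8b8716

/-! ### Nonsplit places -/

theorem NS_prime {O : Type*} [CommRing O] {p : ℕ} (hp : p.Prime) (h4 : p % 4 = 3) :
    NS O p ↔ Nonempty (O →+* ZMod p) := by
  constructor
  · rintro ⟨P, hP, -, hc, -⟩
    exact hom_of_card hP hp hc
  · rintro ⟨f⟩
    obtain ⟨h1, h2⟩ := card_of_hom hp f
    refine ⟨RingHom.ker f, h1, Nat.finite_of_card_ne_zero (by rw [h2]; exact hp.ne_zero), h2, ?_⟩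
    rintro ⟨a, s, hs, b, hb, he⟩
    have : Fact p.Prime := ⟨hp⟩
    have h3 := congrArg f he
    rw [map_mul, map_add, map_pow, map_one, map_mul, (RingHom.mem_ker).1 hb, mul_zero] at h3
    have hs' : f s ≠ 0 := fun h => hs ((RingHom.mem_ker).2 h)
    have h5 : f a ^ 2 + 1 = 0 := (mul_eq_zero.1 h3).resolve_left hs'
    have h6 : IsSquare (-1 : ZMod p) := ⟨f a, by linear_combination -h5⟩
    exact (ZMod.exists_sq_eq_neg_one_iff.1 h6) h4

theorem two_mem {O : Type*} [CommRing O] {P : Ideal O} (hP : P.IsMaximal) {j : ℕ}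
    (h : Nat.card (O ⧸ P) = 2 ^ j) : (2 : O) ∈ P := by
  have hfin : Finite (O ⧸ P) := Nat.finite_of_card_ne_zero (by rw [h]; positivity)
  have hft : Fintype (O ⧸ P) := Fintype.ofFinite _
  have h1 : ((2 ^ j : ℕ) : O ⧸ P) = 0 := by
    rw [← h, Nat.card_eq_fintype_card]
    exact Nat.cast_card_eq_zero _
  have h2 : ((2 : O)) ^ j ∈ P := by
    apply Ideal.Quotient.eq_zero_iff_mem.1
    rw [map_pow, map_ofNat]
    exact_mod_cast h1
  exact hP.isPrime.mem_of_pow_mem j h2

theorem colorable_four_of_NS {F : Subfield ℝ} (hF : ∀ x ∈ F, IsAlgebraic ℚ x) {q : ℕ}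
    (hq : q ∈ ({2, 4, 7, 8, 16, 32} : Finset ℕ)) (h : NS (integralClosure ℤ F) q) :
    (unitDistanceGraph F).Colorable 4 := by
  by_cases h7 : q = 7
  · subst h7
    exact UP.seven F hF ((NS_prime (by norm_num) (by norm_num)).1 h)
  · obtain ⟨P, hP, hfin, hc, hns⟩ := h
    have h1 : ∃ j, q = 2 ^ j ∧ q ≤ 32 := by
      simp only [Finset.mem_insert, Finset.mem_singleton] at hq
      rcases hq with rfl | rfl | rfl | rfl | rfl | rfl
      · exact ⟨1, by norm_num, by norm_num⟩
      · exact ⟨2, by norm_num, by norm_num⟩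
      · exact absurd rfl h7
      · exact ⟨3, by norm_num, by norm_num⟩
      · exact ⟨4, by norm_num, by norm_num⟩
      · exact ⟨5, by norm_num, by norm_num⟩
    obtain ⟨j, hj, hq32⟩ := h1
    have h2 := two_mem hP (hc.trans hj)
    obtain ⟨V, hV2, hVf, hVc, hVn⟩ := exists_valuation hF hP h2 hfin hns
    exact UV.four_of_place F V hV2 (by rw [hVc, hc]; exact hq32) hVn

theorem five_le_iff (F : Subfield ℝ) :
    5 ≤ (unitDistanceGraph F).chromaticNumber ↔ ¬ (unitDistanceGraph F).Colorable 4 := by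
  rw [← FI.le_iff F 4]
  exact FI.lt_iff_le 4

/-- **The table** for the real algebraic fields. -/
theorem table {F : Subfield ℝ} (hF : ∀ x ∈ F, IsAlgebraic ℚ x) :
    ((unitDistanceGraph F).chromaticNumber = 2 ↔
      ¬ ∃ a b : integralClosure ℤ F, a ^ 2 + 1 = 4 * b) ∧
    ((unitDistanceGraph F).chromaticNumber = 3 ↔
      (∃ a b : integralClosure ℤ F, a ^ 2 + 1 = 4 * b) ∧ NS (integralClosure ℤ F) 3) ∧
    ((unitDistanceGraph F).chromaticNumber = 4 ↔
      (∃ a b : integralClosure ℤ F, a ^ 2 + 1 = 4 * b) ∧ ¬ NS (integralClosure ℤ F) 3 ∧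
        ∃ q ∈ ({2, 4, 7, 8, 16, 32} : Finset ℕ), NS (integralClosure ℤ F) q) ∧
    (5 ≤ (unitDistanceGraph F).chromaticNumber ↔
      (∃ a b : integralClosure ℤ F, a ^ 2 + 1 = 4 * b) ∧
        ∀ q ∈ ({2, 3, 4, 7, 8, 16, 32} : Finset ℕ), ¬ NS (integralClosure ℤ F) q) ∧
    (NS (integralClosure ℤ F) 11 ∨ NS (integralClosure ℤ F) 19 →
      (unitDistanceGraph F).chromaticNumber ≤ 5) := by
  obtain ⟨h2, h3, h4⟩ := FI.main F hF
  have e3 : NS (integralClosure ℤ F) 3 ↔ Nonempty (integralClosure ℤ F →+* ZMod 3) :=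
    NS_prime (by norm_num) (by norm_num)
  rw [← e3] at h3 h4
  have h5 : 5 ≤ (unitDistanceGraph F).chromaticNumber ↔
      (∃ a b : integralClosure ℤ F, a ^ 2 + 1 = 4 * b) ∧
        ∀ q ∈ ({2, 3, 4, 7, 8, 16, 32} : Finset ℕ), ¬ NS (integralClosure ℤ F) q := by
    constructor
    · intro h
      have h6 : 4 ≤ (unitDistanceGraph F).chromaticNumber := le_trans (by norm_num) h
      obtain ⟨h7, h8⟩ := h4.1 h6
      refine ⟨h7, fun q hq hns => ?_⟩
      by_cases h9 : q = 3
      · exact h8 (h9 ▸ hns)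
      · refine (five_le_iff F).1 h (colorable_four_of_NS hF ?_ hns)
        simp only [Finset.mem_insert, Finset.mem_singleton] at hq ⊢
        tauto
    · rintro ⟨h6, h7⟩
      exact (five_le_iff F).2 (five_of_NS h6 h7)
  refine ⟨h2, h3, ?_, h5, ?_⟩
  · constructor
    · intro h
      obtain ⟨h6, h7⟩ := h4.1 h.ge
      refine ⟨h6, h7, ?_⟩
      by_contra hcon
      push Not at hcon
      have h8 : 5 ≤ (unitDistanceGraph F).chromaticNumber := by
        refine h5.2 ⟨h6, fun q hq => ?_⟩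
        by_cases h9 : q = 3
        · rwa [h9]
        · refine hcon q ?_
          simp only [Finset.mem_insert, Finset.mem_singleton] at hq ⊢
          tauto
      rw [h] at h8
      exact absurd h8 (by norm_num)
    · rintro ⟨h6, h7, q, hq, hns⟩
      exact le_antisymm ((FI.le_iff F 4).2 (colorable_four_of_NS hF hq hns)) (h4.2 ⟨h6, h7⟩)
  · rintro (h | h)
    · exact (FI.le_iff F 5).2 (U5.eleven F hF ((NS_prime (by norm_num) (by norm_num)).1 h))
    · exact (FI.le_iff F 5).2 (U5.nineteen F hF ((NS_prime (by norm_num) (by norm_num)).1 h))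

/-! ### Arbitrary real fields -/

theorem cond_of_NS {F : Subfield ℝ} {B : ℕ}
    (h1 : ∃ a b : integralClosure ℤ F, a ^ 2 + 1 = 4 * b)
    (h2 : ∀ q ≤ B, ¬ NS (integralClosure ℤ F) q) : Cond {q | B < q} (integralClosure ℤ F) := by
  refine ⟨h1, fun P hP hf hc => ?_⟩
  by_contra hcon
  exact h2 _ (not_lt.1 hc) ⟨P, hP, hf, rfl, hcon⟩

theorem meas_iff {F : Subfield ℝ} (h1 : ∃ a b : integralClosure ℤ F, a ^ 2 + 1 = 4 * b) {k : ℕ}
    (h2 : ∀ q ≤ 4 * (k - 1) ^ 2 - 3, ¬ NS (integralClosure ℤ F) q) :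
    (unitDistanceGraph F).chromaticNumber ≤ k ↔ MeasColorable k := by
  rw [SimpleGraph.chromaticNumber_le_iff_colorable]
  exact ⟨fun h => gmain (cond_of_NS h1 h2) h, fun h =>
    colorable_of_top F (colorable_top_of_meas h)⟩

theorem meas_all {F : Subfield ℝ} (h1 : ∃ a b : integralClosure ℤ F, a ^ 2 + 1 = 4 * b)
    (h2 : ∀ q ≤ 97, ¬ NS (integralClosure ℤ F) q) (k : ℕ) :
    (unitDistanceGraph F).chromaticNumber ≤ k ↔ MeasColorable k := by
  rcases Nat.lt_or_ge k 7 with h7 | h7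
  · refine meas_iff h1 fun q hq => h2 q (hq.trans ?_)
    interval_cases k <;> norm_num
  · have h8 : MeasColorable k := by
      obtain ⟨κ, h3, h4⟩ := seven h7
      exact measColorable_of_complex
        ⟨κ, fun i => (h3 (measurableSet_singleton i)).nullMeasurableSet, h4⟩
    refine ⟨fun _ => h8, fun _ => ?_⟩
    rw [SimpleGraph.chromaticNumber_le_iff_colorable]
    exact colorable_of_top F (colorable_top_of_meas h8)

theorem eq_top {F : Subfield ℝ} (h1 : ∃ a b : integralClosure ℤ F, a ^ 2 + 1 = 4 * b)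
    (h2 : ∀ q ≤ 97, ¬ NS (integralClosure ℤ F) q) :
    (unitDistanceGraph F).chromaticNumber = (unitDistanceGraph ⊤).chromaticNumber := by
  have h9 : ∀ k : ℕ, (unitDistanceGraph F).Colorable k ↔ (unitDistanceGraph ⊤).Colorable k := by
    intro k
    refine ⟨fun hc => ?_, colorable_of_top F⟩
    rw [← SimpleGraph.chromaticNumber_le_iff_colorable] at hc
    exact colorable_top_of_meas ((meas_all h1 h2 k).1 hc)
  have h10 : ∀ n : ℕ∞, (unitDistanceGraph F).chromaticNumber ≤ n ↔
      (unitDistanceGraph ⊤).chromaticNumber ≤ n := by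
    intro n
    induction n using ENat.recTopCoe with
    | top => simp
    | coe n =>
      rw [SimpleGraph.chromaticNumber_le_iff_colorable,
        SimpleGraph.chromaticNumber_le_iff_colorable]
      exact h9 n
  exact le_antisymm ((h10 _).2 le_rfl) ((h10 _).1 le_rfl)

/-! ### Quadratic fields -/

theorem exists_root {N l : ℕ} (hl : l.Prime) (h4 : l % 4 = 3) (h : ¬ IsSquare (N : ZMod l)) :
    ∃ b : ℕ, l ∣ b ^ 2 + N ∧ ¬ l ∣ b := by
  have : Fact l.Prime := ⟨hl⟩
  have hl2 : ringChar (ZMod l) ≠ 2 := by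
    rw [ZMod.ringChar_zmod_n]
    rintro rfl
    norm_num at h4
  have h1 : quadraticChar (ZMod l) (-1) = -1 := by
    rw [quadraticChar_neg_one_iff_not_isSquare, ZMod.exists_sq_eq_neg_one_iff]
    exact fun h => h h4
  have h2 : quadraticChar (ZMod l) (N : ZMod l) = -1 :=
    quadraticChar_neg_one_iff_not_isSquare.2 h
  have hN : (N : ZMod l) ≠ 0 := by
    intro h3
    apply h
    rw [h3]
    exact IsSquare.zero
  have h3 : quadraticChar (ZMod l) (-(N : ZMod l)) = 1 := by
    rw [← neg_one_mul, map_mul, h1, h2]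
    norm_num
  obtain ⟨b, hb⟩ := (quadraticChar_one_iff_isSquare (neg_ne_zero.2 hN)).1 h3
  refine ⟨b.val, ?_, ?_⟩
  · rw [← ZMod.natCast_eq_zero_iff]
    push_cast
    rw [ZMod.natCast_zmod_val, pow_two, ← hb]
    ring
  · rw [← ZMod.natCast_eq_zero_iff, ZMod.natCast_zmod_val]
    rintro rfl
    rw [mul_zero] at hb
    exact hN (neg_eq_zero.1 hb)

/-- small places of a field which contains `√N` -/
theorem quad_NS {N : ℕ} (h24 : N % 24 = 23) (h7 : ¬ IsSquare (N : ZMod 7)) {F : Subfield ℝ}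
    (hD : Real.sqrt N ∈ F) : ∀ q ∈ ({2, 3, 4, 7, 8, 16, 32} : Finset ℕ),
      ¬ NS (integralClosure ℤ F) q := by
  have hc : Cond {q | 7 < q} (integralClosure ℤ F) := by
    refine cond_of_sqrt hD (by omega) fun l hl h4 hl7 => ?_
    have h3 : l = 3 ∨ l = 7 := by omega
    rcases h3 with rfl | rfl
    · refine exists_root hl h4 ?_
      have h5 : (N : ZMod 3) = 2 := by
        have h6 := (ZMod.natCast_eq_natCast_iff N 2 3).2 (by unfold Nat.ModEq; omega)
        exact_mod_cast h6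
      rw [h5]
      decide
    · exact exists_root hl h4 h7
  rintro q hq ⟨P, hP, hfin, hcard, hns⟩
  by_cases h8 : q ≤ 7
  · exact hns (hc.2 P hP hfin (by rw [hcard]; exact not_lt.2 h8))
  · have h9 : ∃ j, q = 2 ^ j := by
      simp only [Finset.mem_insert, Finset.mem_singleton] at hq
      rcases hq with rfl | rfl | rfl | rfl | rfl | rfl | rfl
      · omega
      · omega
      · omega
      · omega
      · exact ⟨3, by norm_num⟩
      · exact ⟨4, by norm_num⟩
      · exact ⟨5, by norm_num⟩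
    obtain ⟨j, hj⟩ := h9
    have h2 := two_mem hP (hcard.trans hj)
    have hint : IsIntegral ℤ (⟨Real.sqrt N, hD⟩ : F) := by
      refine ⟨Polynomial.X ^ 2 - Polynomial.C (N : ℤ),
        Polynomial.monic_X_pow_sub_C _ two_ne_zero, ?_⟩
      rw [Polynomial.eval₂_sub, Polynomial.eval₂_pow, Polynomial.eval₂_X, Polynomial.eval₂_C]
      apply Subtype.ext
      have h6 : Real.sqrt N ^ 2 = N := Real.sq_sqrt (Nat.cast_nonneg N)
      simp [h6]
    obtain ⟨c, hc⟩ : ∃ c, N + 1 = 8 * c := ⟨(N + 1) / 8, by omega⟩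
    refine hns ⟨⟨⟨Real.sqrt N, hD⟩, hint⟩, 1, fun h => hP.ne_top ((Ideal.eq_top_iff_one P).2 h),
      2 * (c : integralClosure ℤ F), P.mul_mem_right _ h2, ?_⟩
    have h6 : Real.sqrt N ^ 2 = N := Real.sq_sqrt (Nat.cast_nonneg N)
    have h10 : (N : ℝ) + 1 = 8 * c := by exact_mod_cast hc
    have e4 : (((4 : integralClosure ℤ F) : F) : ℝ) = 4 := rfl
    have e2 : (((2 : integralClosure ℤ F) : F) : ℝ) = 2 := rfl
    apply Subtype.ext
    apply Subtype.ext
    push_cast
    rw [e4, e2, one_mul]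
    linear_combination h6 + h10

/-- **The table** for the real quadratic fields. -/
theorem quad_table {N : ℕ} {F : Subfield ℝ} (hN : Squarefree N) (h1 : 1 < N)
    (hF : F = Subfield.closure {Real.sqrt (N : ℝ)}) :
    ((unitDistanceGraph F).chromaticNumber = 2 ↔ N % 4 ≠ 3) ∧
    ((unitDistanceGraph F).chromaticNumber = 3 ↔ N % 12 = 3 ∨ N % 12 = 7) ∧
    ((unitDistanceGraph F).chromaticNumber = 4 ↔
      N % 24 = 11 ∨ (N % 24 = 23 ∧ IsSquare (N : ZMod 7))) ∧
    (5 ≤ (unitDistanceGraph F).chromaticNumber ↔ N % 24 = 23 ∧ ¬ IsSquare (N : ZMod 7)) ∧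
    (N % 24 = 23 → ¬ IsSquare (N : ZMod 7) → IsSquare (N : ZMod 11) ∨ IsSquare (N : ZMod 19) →
      (unitDistanceGraph F).chromaticNumber = 5) ∧
    (N % 8 = 7 → (∀ l : ℕ, l.Prime → l % 4 = 3 → l ≤ 97 → ¬ IsSquare (N : ZMod l)) →
      (unitDistanceGraph F).chromaticNumber = (unitDistanceGraph ⊤).chromaticNumber) := by
  subst hF
  obtain ⟨a1, a2, a3, a4, a5, a6⟩ := FI.quadratic N hN h1
  change ((unitDistanceGraph (Subfield.closure {Real.sqrt (N : ℝ)})).chromaticNumber = 2 ↔ _) at a1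
  change ((unitDistanceGraph (Subfield.closure {Real.sqrt (N : ℝ)})).chromaticNumber = 3 ↔ _) at a2
  change (4 ≤ (unitDistanceGraph (Subfield.closure {Real.sqrt (N : ℝ)})).chromaticNumber ↔ _) at a3
  change (_ → (unitDistanceGraph (Subfield.closure {Real.sqrt (N : ℝ)})).chromaticNumber = 4) at a4
  change (_ → _ → (unitDistanceGraph (Subfield.closure {Real.sqrt (N : ℝ)})).chromaticNumber = 4)
    at a5
  change (_ → _ → (unitDistanceGraph (Subfield.closure {Real.sqrt (N : ℝ)})).chromaticNumber = 4 ∨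
    (unitDistanceGraph (Subfield.closure {Real.sqrt (N : ℝ)})).chromaticNumber = 5) at a6
  set F : Subfield ℝ := Subfield.closure {Real.sqrt (N : ℝ)} with hF
  have hD : Real.sqrt N ∈ F := Subfield.subset_closure (Set.mem_singleton _)
  have hab : N % 4 = 3 → ∃ a b : integralClosure ℤ F, a ^ 2 + 1 = 4 * b := by
    intro h
    by_contra hcon
    exact (a1.1 ((FI.main F (QD.Fq_alg N)).1.2 hcon)) h
  have h5 : 5 ≤ (unitDistanceGraph F).chromaticNumber ↔
      N % 24 = 23 ∧ ¬ IsSquare (N : ZMod 7) := by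
    constructor
    · intro h
      have h6 : N % 12 = 11 := a3.1 (le_trans (by norm_num) h)
      have h7 : ¬ (unitDistanceGraph F).chromaticNumber = 4 := by
        intro h8
        rw [h8] at h
        exact absurd h (by norm_num)
      refine ⟨?_, fun h8 => h7 (a5 h6 h8)⟩
      have h9 : N % 24 ≠ 11 := fun h8 => h7 (a4 h8)
      omega
    · rintro ⟨h6, h7⟩
      exact (five_le_iff F).2 (five_of_NS (hab (by omega)) (quad_NS h6 h7 hD))
  refine ⟨a1, a2, ?_, h5, ?_, ?_⟩
  · constructor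
    · intro h
      have h6 : N % 12 = 11 := a3.1 h.ge
      by_contra hcon
      push Not at hcon
      have h7 : N % 24 = 23 := by omega
      have h8 := h5.2 ⟨h7, hcon.2 h7⟩
      rw [h] at h8
      exact absurd h8 (by norm_num)
    · rintro (h | ⟨h, h'⟩)
      · exact a4 h
      · exact a5 (by omega) h'
  · intro h h' h''
    rcases a6 (by omega) h'' with h6 | h6
    · have h8 := h5.2 ⟨h, h'⟩
      rw [h6] at h8
      exact absurd h8 (by norm_num)
    · exact h6
  · intro h8 h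
    have hc : Cond {q | 97 < q} (integralClosure ℤ F) :=
      cond_of_sqrt hD h8 fun l hl h4 hl97 => exists_root hl h4 (h l hl h4 hl97)
    refine eq_top (hab (by omega)) ?_
    rintro q hq ⟨P, hP, hfin, hcard, hns⟩
    exact hns (hc.2 P hP hfin (by rw [hcard]; exact not_lt.2 hq))

end Pool.Agent.MP_8b8716_co_QR
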